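import Pool.Agent.W47.AM.Tree

/-! Basic definitions: pairs of binary forms as vectors of pairs of integers. -/

set_option autoImplicit false

namespace Pool.Agent.W47.AM

noncomputable section

open Finset

/-- the determinant `q ∧ v` -/
def L (q v : ℤ × ℤ) : ℤ := q.2 * v.1 - q.1 * v.2

/-- the box of size `H` in `ℤ²` -/
def bx (H : ℕ) : Finset (ℤ × ℤ) := Finset.Icc (-(H:ℤ)) H ×ˢ Finset.Icc (-(H:ℤ)) H

/-- small vectors `v` with `a ∣ q ∧ v` -/
def V (H : ℕ) (a : ℤ) (q : ℤ × ℤ) : Finset (ℤ × ℤ) := (bx (2 * H)).filter (fun v => a ∣ L q v)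

/-- pairs of binary forms of degree `d` with coefficients at most `H` -/
def boxw (d H : ℕ) : Finset (Fin (d + 1) → ℤ × ℤ) := Fintype.piFinset fun _ => bx H

/-- the map given by the pair `w` sends `(a : b)` to `q` (or is undefined there) -/
def Rel {d : ℕ} (w : Fin (d + 1) → ℤ × ℤ) (a b : ℤ) (q : ℤ × ℤ) : Prop :=
  ∑ i, L q (w i) * a ^ (i : ℕ) * b ^ (d - i) = 0

lemma L_sub (q v v' : ℤ × ℤ) : L q (v - v') = L q v - L q v' := by
  simp only [L, Prod.fst_sub, Prod.snd_sub]; ring

lemma mem_bx {H : ℕ} {v : ℤ × ℤ} : v ∈ bx H ↔ |v.1| ≤ H ∧ |v.2| ≤ H := by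
  simp [bx, Finset.mem_product, Finset.mem_Icc, abs_le]

lemma mem_boxw {d H : ℕ} {w : Fin (d + 1) → ℤ × ℤ} : w ∈ boxw d H ↔ ∀ i, w i ∈ bx H := by
  simp [boxw, Fintype.mem_piFinset]

lemma mem_V {H : ℕ} {a : ℤ} {q v : ℤ × ℤ} :
    v ∈ V H a q ↔ (|v.1| ≤ ((2 * H : ℕ) : ℤ) ∧ |v.2| ≤ ((2 * H : ℕ) : ℤ)) ∧ a ∣ L q v := by
  simp [V, mem_bx]

lemma sub_mem_bx {H : ℕ} {v v' : ℤ × ℤ} (h : v ∈ bx H) (h' : v' ∈ bx H) :
    v - v' ∈ bx (2 * H) := by
  rw [mem_bx] at *
  simp only [Prod.fst_sub, Prod.snd_sub]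
  push_cast
  constructor
  · have := abs_sub v.1 v'.1
    linarith [h.1, h'.1]
  · have := abs_sub v.2 v'.2
    linarith [h.2, h'.2]

/-- first step: the lowest coefficient of a vanishing form at a primitive point -/
lemma dvd_step {d : ℕ} {c : Fin (d + 1) → ℤ} {a b : ℤ} (hab : IsCoprime a b) (ha : a ≠ 0)
    (h : ∑ i, c i * a ^ (i : ℕ) * b ^ (d - i) = 0) (k : Fin (d + 1))
    (hk : ∀ j, j < k → c j = 0) : k = Fin.last d ∨ a ∣ c k := by
  by_cases hkl : k = Fin.last d
  · exact Or.inl hkl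
  refine Or.inr ?_
  have h1 : a ^ ((k : ℕ) + 1) ∣ c k * a ^ (k : ℕ) * b ^ (d - k) := by
    rw [← Finset.add_sum_erase _ _ (Finset.mem_univ k)] at h
    have h2 : a ^ ((k : ℕ) + 1) ∣ ∑ i ∈ Finset.univ.erase k, c i * a ^ (i : ℕ) * b ^ (d - i) := by
      apply Finset.dvd_sum
      intro i hi
      have hne : i ≠ k := (Finset.mem_erase.mp hi).1
      rcases lt_or_gt_of_ne hne with hlt | hgt
      · rw [hk i hlt]; simp
      · have h3 : (k : ℕ) + 1 ≤ i := hgt
        exact Dvd.dvd.mul_right (Dvd.dvd.mul_left (pow_dvd_pow a h3) _) _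
    have h4 : c k * a ^ (k : ℕ) * b ^ (d - k) =
        -∑ i ∈ Finset.univ.erase k, c i * a ^ (i : ℕ) * b ^ (d - i) := by linarith
    rw [h4]
    exact (dvd_neg).mpr h2
  have h5 : a ^ (k : ℕ) * a ∣ a ^ (k : ℕ) * (c k * b ^ (d - k)) := by
    rw [pow_succ] at h1
    convert h1 using 1
    ring
  have h6 : a ∣ c k * b ^ (d - k) := (mul_dvd_mul_iff_left (pow_ne_zero _ ha)).mp h5
  exact (IsCoprime.pow_right hab).dvd_of_dvd_mul_right h6

theorem sol_le {d H : ℕ} {a b : ℤ} {q : ℤ × ℤ} (hab : IsCoprime a b) (ha : a ≠ 0)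
    (S : Finset (Fin (d + 1) → ℤ × ℤ)) (hS : ∀ w ∈ S, w ∈ boxw d H ∧ Rel w a b q) :
    S.card ≤ (V H a q).card ^ d * (V H 0 q).card := by
  classical
  have key := tree (d + 1) S (fun k => if k = Fin.last d then (V H 0 q).card else (V H a q).card) ?_
  · refine key.trans (le_of_eq ?_)
    rw [Fin.prod_univ_castSucc]
    simp [Fin.castSucc_ne_last]
  intro k y hy
  -- translate by `y k`
  have hmain : ∀ z ∈ S, (∀ j, j < k → z j = y j) →
      ((k = Fin.last d → z k - y k ∈ V H 0 q) ∧ (k ≠ Fin.last d → z k - y k ∈ V H a q)) := by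
    intro z hz hzy
    have hb1 := sub_mem_bx (mem_boxw.mp (hS z hz).1 k) (mem_boxw.mp (hS y hy).1 k)
    have hrel : ∑ i, (L q (z i) - L q (y i)) * a ^ (i : ℕ) * b ^ (d - i) = 0 := by
      have h1 : ∑ i, L q (z i) * a ^ (i : ℕ) * b ^ (d - i) = 0 := (hS z hz).2
      have h2 : ∑ i, L q (y i) * a ^ (i : ℕ) * b ^ (d - i) = 0 := (hS y hy).2
      simp only [sub_mul, Finset.sum_sub_distrib, h1, h2, sub_zero]
    have hz0 : ∀ j, j < k → L q (z j) - L q (y j) = 0 := by
      intro j hj; rw [hzy j hj]; ring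
    constructor
    · intro hk
      rw [V, Finset.mem_filter]
      refine ⟨hb1, ?_⟩
      rw [L_sub, zero_dvd_iff]
      subst hk
      rw [Finset.sum_eq_single (Fin.last d)] at hrel
      · have : (L q (z (Fin.last d)) - L q (y (Fin.last d))) * a ^ d = 0 := by simpa using hrel
        rcases mul_eq_zero.mp this with h | h
        · exact h
        · exact absurd h (pow_ne_zero _ ha)
      · intro j _ hj
        have : j < Fin.last d := lt_of_le_of_ne (Fin.le_last j) hj
        rw [hz0 j this]; ring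
      · simp
    · intro hk
      rw [V, Finset.mem_filter]
      refine ⟨hb1, ?_⟩
      rw [L_sub]
      exact (dvd_step hab ha hrel k hz0).resolve_left hk
  by_cases hk : k = Fin.last d
  · simp only [hk, if_true]
    rw [hk] at hmain
    refine Finset.card_le_card_of_injOn (fun v => v - y (Fin.last d)) ?_ ?_
    · intro t ht
      obtain ⟨z, hz, rfl⟩ := Finset.mem_image.mp ht
      rw [Finset.mem_filter] at hz
      exact (hmain z hz.1 hz.2).1 rfl
    · intro t _ t' _ htt; simpa using htt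
  · simp only [hk, if_false]
    refine Finset.card_le_card_of_injOn (fun v => v - y k) ?_ ?_
    · intro t ht
      obtain ⟨z, hz, rfl⟩ := Finset.mem_image.mp ht
      rw [Finset.mem_filter] at hz
      exact (hmain z hz.1 hz.2).2 hk
    · intro t _ t' _ htt; simpa using htt

theorem solD_le {e H : ℕ} {a b : ℤ} {q : ℤ × ℤ} (hab : IsCoprime a b) (ha : a ≠ 0) (hb : b ≠ 0)
    (v0 : ℤ × ℤ) (S : Finset (Fin (e + 2) → ℤ × ℤ))
    (hS : ∀ w ∈ S, w ∈ boxw (e + 1) H ∧ Rel w a b q ∧ w (Fin.last (e + 1)) = v0) :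
    S.card ≤ (V H a q).card ^ e * (V H 0 q).card := by
  classical
  have key := tree (e + 2) S (fun k => if k = Fin.last (e + 1) then 1 else
    if k = Fin.castSucc (Fin.last e) then (V H 0 q).card else (V H a q).card) ?_
  · refine key.trans (le_of_eq ?_)
    rw [Fin.prod_univ_castSucc, Fin.prod_univ_castSucc]
    simp [Fin.castSucc_ne_last]
  intro k y hy
  have hmain : ∀ z ∈ S, (∀ j, j < k → z j = y j) →
      ((k = Fin.castSucc (Fin.last e) → z k - y k ∈ V H 0 q) ∧
        (k ≠ Fin.last (e + 1) → z k - y k ∈ V H a q)) := by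
    intro z hz hzy
    have hb1 := sub_mem_bx (mem_boxw.mp (hS z hz).1 k) (mem_boxw.mp (hS y hy).1 k)
    have hrel : ∑ i, (L q (z i) - L q (y i)) * a ^ (i : ℕ) * b ^ (e + 1 - i) = 0 := by
      have h1 : ∑ i, L q (z i) * a ^ (i : ℕ) * b ^ (e + 1 - i) = 0 := (hS z hz).2.1
      have h2 : ∑ i, L q (y i) * a ^ (i : ℕ) * b ^ (e + 1 - i) = 0 := (hS y hy).2.1
      simp only [sub_mul, Finset.sum_sub_distrib, h1, h2, sub_zero]
    have hlast : L q (z (Fin.last (e + 1))) - L q (y (Fin.last (e + 1))) = 0 := by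
      rw [(hS z hz).2.2, (hS y hy).2.2]; ring
    have hz0 : ∀ j, j < k → L q (z j) - L q (y j) = 0 := by
      intro j hj; rw [hzy j hj]; ring
    constructor
    · intro hk
      rw [V, Finset.mem_filter]
      refine ⟨hb1, ?_⟩
      rw [L_sub, zero_dvd_iff]
      subst hk
      rw [Finset.sum_eq_single (Fin.castSucc (Fin.last e))] at hrel
      · have : (L q (z (Fin.castSucc (Fin.last e))) - L q (y (Fin.castSucc (Fin.last e)))) *
            (a ^ e * b) = 0 := by
          have h3 : e + 1 - e = 1 := by omega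
          simpa [h3, mul_assoc] using hrel
        rcases mul_eq_zero.mp this with h | h
        · exact h
        · exact absurd h (mul_ne_zero (pow_ne_zero _ ha) hb)
      · intro j _ hj
        by_cases hjl : j = Fin.last (e + 1)
        · rw [hjl, hlast]; ring
        · have h1 : (j : ℕ) ≠ e + 1 := fun h => hjl (Fin.ext (by simpa using h))
          have h2 : (j : ℕ) ≠ e := fun h => hj (Fin.ext (by simpa using h))
          have h3 : (j : ℕ) < e := by have := j.2; omega
          have : j < Fin.castSucc (Fin.last e) := by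
            rw [Fin.lt_def]; simpa using h3
          rw [hz0 j this]; ring
      · simp
    · intro hk
      rw [V, Finset.mem_filter]
      refine ⟨hb1, ?_⟩
      rw [L_sub]
      exact (dvd_step hab ha hrel k hz0).resolve_left hk
  by_cases hk : k = Fin.last (e + 1)
  · simp only [hk, if_true]
    apply Finset.card_le_one.mpr
    intro t ht t' ht'
    obtain ⟨z, hz, rfl⟩ := Finset.mem_image.mp ht
    obtain ⟨z', hz', rfl⟩ := Finset.mem_image.mp ht'
    rw [(hS z (Finset.mem_filter.mp hz).1).2.2, (hS z' (Finset.mem_filter.mp hz').1).2.2]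
  · by_cases hk' : k = Fin.castSucc (Fin.last e)
    · simp only [hk', if_true]
      rw [if_neg (Fin.castSucc_ne_last _)]
      rw [hk'] at hmain
      refine Finset.card_le_card_of_injOn (fun v => v - y (Fin.castSucc (Fin.last e))) ?_ ?_
      · intro t ht
        obtain ⟨z, hz, rfl⟩ := Finset.mem_image.mp ht
        rw [Finset.mem_filter] at hz
        exact (hmain z hz.1 hz.2).1 rfl
      · intro t _ t' _ htt; simpa using htt
    · simp only [hk, hk', if_false]
      refine Finset.card_le_card_of_injOn (fun v => v - y k) ?_ ?_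
      · intro t ht
        obtain ⟨z, hz, rfl⟩ := Finset.mem_image.mp ht
        rw [Finset.mem_filter] at hz
        exact (hmain z hz.1 hz.2).2 hk
      · intro t _ t' _ htt; simpa using htt

/-- the reduction of the top coefficient modulo `b` -/
lemma top_dvd {d : ℕ} {w : Fin (d + 1) → ℤ × ℤ} {a b : ℤ} {q : ℤ × ℤ} (hab : IsCoprime a b)
    (h : Rel w a b q) : b ∣ L q (w (Fin.last d)) := by
  have h1 : b ∣ L q (w (Fin.last d)) * a ^ d := by
    unfold Rel at h
    rw [← Finset.add_sum_erase _ _ (Finset.mem_univ (Fin.last d))] at h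
    have h2 : b ∣ ∑ i ∈ Finset.univ.erase (Fin.last d), L q (w i) * a ^ (i : ℕ) * b ^ (d - i) := by
      apply Finset.dvd_sum
      intro i hi
      have hne : i ≠ Fin.last d := (Finset.mem_erase.mp hi).1
      have h3 : (i : ℕ) ≠ d := fun h => hne (Fin.ext (by simpa using h))
      have h4 : d - (i : ℕ) ≠ 0 := by have := i.2; omega
      exact Dvd.dvd.mul_left (dvd_pow_self b h4) _
    have h4 : L q (w (Fin.last d)) * a ^ d =
        -∑ i ∈ Finset.univ.erase (Fin.last d), L q (w i) * a ^ (i : ℕ) * b ^ (d - i) := by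
      rw [Fin.val_last, Nat.sub_self, pow_zero, mul_one] at h
      linarith
    rw [h4]
    exact (dvd_neg).mpr h2
  exact (IsCoprime.pow_right hab.symm).dvd_of_dvd_mul_right h1

end

end Pool.Agent.W47.AM
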