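import Pool.Agent.W47.AM.Defs

/-! The dual vector. -/

set_option autoImplicit false

namespace Pool.Agent.W47.AM

noncomputable section

open Finset

/-- a binary form over `ℂ` of positive degree has a non trivial zero -/
lemma exists_zero {d : ℕ} (hd : 1 ≤ d) (c : ℕ → ℂ) : ∃ x y : ℂ, (x ≠ 0 ∨ y ≠ 0) ∧
    ∑ i ∈ Finset.range (d + 1), c i * x ^ i * y ^ (d - i) = 0 := by
  by_cases hc : c d = 0
  · refine ⟨1, 0, Or.inl one_ne_zero, ?_⟩
    rw [Finset.sum_range_succ, Finset.sum_eq_zero]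
    · simp [hc]
    · intro i hi
      rw [Finset.mem_range] at hi
      rw [zero_pow (by omega)]; simp
  · set p : Polynomial ℂ := ∑ i ∈ Finset.range (d + 1), Polynomial.C (c i) * Polynomial.X ^ i with hp
    have hcoef : p.coeff d = c d := by
      rw [hp, Polynomial.finsetSum_coeff]
      simp only [Polynomial.coeff_C_mul, Polynomial.coeff_X_pow]
      rw [Finset.sum_eq_single d]
      · simp
      · intro i _ hi
        rw [if_neg (Ne.symm hi)]; simp
      · intro h; simp at h
    have hdeg : p.degree ≠ 0 := by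
      intro h
      have h1 : (d : WithBot ℕ) ≤ p.degree := Polynomial.le_degree_of_ne_zero (by rw [hcoef]; exact hc)
      rw [h] at h1
      have : d ≤ 0 := by exact_mod_cast h1
      omega
    obtain ⟨x, hx⟩ := IsAlgClosed.exists_root p hdeg
    refine ⟨x, 1, Or.inr one_ne_zero, ?_⟩
    rw [Polynomial.IsRoot.def, hp, Polynomial.eval_finsetSum] at hx
    simpa using hx

/-- division of a form vanishing at `(a : b)` by `b x - a y` -/
lemma exists_quot {a b : ℤ} (hab : IsCoprime a b) (ha : a ≠ 0) : ∀ (d : ℕ) (c : ℕ → ℤ) (t0 : ℤ),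
    ∑ i ∈ Finset.range (d + 1), c i * a ^ i * b ^ (d - i) = b ^ (d + 1) * t0 →
    ∃ t : ℕ → ℤ, t 0 = t0 ∧ t (d + 1) = 0 ∧ ∀ i ≤ d, c i = b * t i - a * t (i + 1) := by
  intro d
  induction d with
  | zero =>
    intro c t0 h
    refine ⟨fun i => if i = 0 then t0 else 0, by simp, by simp, ?_⟩
    intro i hi
    have : i = 0 := by omega
    subst this
    simpa using h
  | succ d ih =>
    intro c t0 h
    rw [Finset.sum_range_succ'] at h
    have e1 : ∑ i ∈ Finset.range (d + 1), c (i + 1) * a ^ (i + 1) * b ^ (d + 1 - (i + 1)) =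
        a * ∑ i ∈ Finset.range (d + 1), c (i + 1) * a ^ i * b ^ (d - i) := by
      rw [Finset.mul_sum]
      apply Finset.sum_congr rfl
      intro i _
      have : d + 1 - (i + 1) = d - i := by omega
      rw [this]; ring
    rw [e1] at h
    simp only [pow_zero, mul_one, Nat.sub_zero] at h
    have h1 : a ∣ b ^ (d + 1) * (b * t0 - c 0) := by
      refine ⟨∑ i ∈ Finset.range (d + 1), c (i + 1) * a ^ i * b ^ (d - i), ?_⟩
      have : b ^ (d + 1 + 1) * t0 = b ^ (d + 1) * (b * t0) := by ring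
      rw [this] at h
      linarith
    obtain ⟨t1, ht1⟩ := (IsCoprime.pow_right hab).dvd_of_dvd_mul_left h1
    have h2 : ∑ i ∈ Finset.range (d + 1), c (i + 1) * a ^ i * b ^ (d - i) = b ^ (d + 1) * t1 := by
      apply mul_left_cancel₀ ha
      have e2 : a * (b ^ (d + 1) * t1) = b ^ (d + 1) * (b * t0 - c 0) := by rw [ht1]; ring
      rw [e2]
      have : b ^ (d + 1 + 1) * t0 = b ^ (d + 1) * (b * t0) := by ring
      rw [this] at h
      linarith
    obtain ⟨t, h3, h4, h5⟩ := ih (fun i => c (i + 1)) t1 h2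
    refine ⟨fun i => if i = 0 then t0 else t (i - 1), by simp, by simpa using h4, ?_⟩
    intro i hi
    rcases Nat.eq_zero_or_pos i with h0 | h0
    · subst h0
      simp only [if_true, Nat.zero_add, one_ne_zero, if_false, Nat.sub_self]
      rw [h3]; linarith
    · obtain ⟨j, rfl⟩ : ∃ j, i = j + 1 := ⟨i - 1, by omega⟩
      have := h5 j (by omega)
      simpa using this

/-- size of the quotient -/
lemma quot_bound {a b : ℤ} (ha : 0 < a) (hb : |b| ≤ a) {d : ℕ} {c t : ℕ → ℤ} {M : ℤ}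
    (h0 : t 0 = 0) (hc : ∀ i ≤ d, |c i| ≤ M) (h : ∀ i ≤ d, c i = b * t i - a * t (i + 1)) :
    ∀ i ≤ d + 1, a * |t i| ≤ i * M := by
  intro i
  induction i with
  | zero => intro _; simp [h0]
  | succ i ih =>
    intro hi
    have h1 := ih (by omega)
    have h2 := h i (by omega)
    have h3 := hc i (by omega)
    have h4 : a * t (i + 1) = b * t i - c i := by linarith
    have h5 : a * |t (i + 1)| = |b * t i - c i| := by rw [← h4, abs_mul, abs_of_pos ha]
    rw [h5]
    calc |b * t i - c i| ≤ |b * t i| + |c i| := abs_sub _ _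
      _ = |b| * |t i| + |c i| := by rw [abs_mul]
      _ ≤ a * |t i| + M := by gcongr
      _ ≤ i * M + M := by gcongr
      _ = _ := by push_cast; ring

/-- the `3 × 3` minors of the rows `f`, `x S`, `y S` -/
def mn (f t : ℕ → ℤ) (i j k : ℕ) : ℤ :=
  f i * (t j * t (k + 1) - t k * t (j + 1)) - f j * (t i * t (k + 1) - t k * t (i + 1)) +
    f k * (t i * t (j + 1) - t j * t (i + 1))

lemma mn_dvd {f g t : ℕ → ℤ} {q1 q2 a b : ℤ} (hq : IsCoprime q1 q2) {i j k : ℕ}
    (hi : q2 * f i - q1 * g i = b * t i - a * t (i + 1))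
    (hj : q2 * f j - q1 * g j = b * t j - a * t (j + 1))
    (hk : q2 * f k - q1 * g k = b * t k - a * t (k + 1)) : q1 ∣ mn f t i j k := by
  have h1 : q1 ∣ q2 * mn f t i j k := by
    refine ⟨mn g t i j k, ?_⟩
    unfold mn
    linear_combination (t j * t (k + 1) - t k * t (j + 1)) * hi -
      (t i * t (k + 1) - t k * t (i + 1)) * hj + (t i * t (j + 1) - t j * t (i + 1)) * hk
  exact hq.dvd_of_dvd_mul_left h1

lemma mn_bound {f t : ℕ → ℤ} {a H T : ℤ} (ha : 0 < a) (hH : 0 ≤ H) {i j k : ℕ}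
    (hfi : |f i| ≤ H) (hfj : |f j| ≤ H) (hfk : |f k| ≤ H)
    (hti : a * |t i| ≤ T) (htj : a * |t j| ≤ T) (htk : a * |t k| ≤ T)
    (hti' : a * |t (i + 1)| ≤ T) (htj' : a * |t (j + 1)| ≤ T) (htk' : a * |t (k + 1)| ≤ T) :
    a ^ 2 * |mn f t i j k| ≤ 6 * H * T ^ 2 := by
  have key : ∀ u v p q F : ℤ, |F| ≤ H → a * |u| ≤ T → a * |v| ≤ T → a * |p| ≤ T → a * |q| ≤ T →
      a ^ 2 * |F * (u * v - p * q)| ≤ 2 * H * T ^ 2 := by
    intro u v p q F hF hu hv hp hq
    have hT : 0 ≤ T := le_trans (by positivity) hu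
    have h1 : a ^ 2 * |u * v| ≤ T ^ 2 := by
      rw [abs_mul]
      calc a ^ 2 * (|u| * |v|) = (a * |u|) * (a * |v|) := by ring
        _ ≤ T * T := mul_le_mul hu hv (by positivity) hT
        _ = T ^ 2 := by ring
    have h2 : a ^ 2 * |p * q| ≤ T ^ 2 := by
      rw [abs_mul]
      calc a ^ 2 * (|p| * |q|) = (a * |p|) * (a * |q|) := by ring
        _ ≤ T * T := mul_le_mul hp hq (by positivity) hT
        _ = T ^ 2 := by ring
    have h3 : |u * v - p * q| ≤ |u * v| + |p * q| := abs_sub _ _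
    have h4 : a ^ 2 * |u * v - p * q| ≤ 2 * T ^ 2 := by
      nlinarith [pow_pos ha 2]
    rw [abs_mul]
    calc a ^ 2 * (|F| * |u * v - p * q|) = |F| * (a ^ 2 * |u * v - p * q|) := by ring
      _ ≤ H * (2 * T ^ 2) := mul_le_mul hF h4 (by positivity) hH
      _ = _ := by ring
  have k1 := key (t j) (t (k + 1)) (t k) (t (j + 1)) (f i) hfi htj htk' htk htj'
  have k2 := key (t i) (t (k + 1)) (t k) (t (i + 1)) (f j) hfj hti htk' htk hti'
  have k3 := key (t i) (t (j + 1)) (t j) (t (i + 1)) (f k) hfk hti htj' htj hti'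
  have h5 : |mn f t i j k| ≤ |f i * (t j * t (k + 1) - t k * t (j + 1))| +
      |f j * (t i * t (k + 1) - t k * t (i + 1))| + |f k * (t i * t (j + 1) - t j * t (i + 1))| := by
    unfold mn
    refine (abs_add_le _ _).trans ?_
    gcongr
    exact abs_sub _ _
  calc a ^ 2 * |mn f t i j k| ≤ a ^ 2 * (|f i * (t j * t (k + 1) - t k * t (j + 1))| +
      |f j * (t i * t (k + 1) - t k * t (i + 1))| +
        |f k * (t i * t (j + 1) - t j * t (i + 1))|) := by gcongr
    _ ≤ _ := by linarith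

/-- no common zero implies that some minor does not vanish -/
lemma exists_minor {d : ℕ} (hd : 2 ≤ d) {f g t : ℕ → ℤ} {q1 q2 a b : ℤ} (hq1 : q1 ≠ 0)
    (h0 : t 0 = 0) (hd0 : t (d + 1) = 0)
    (h : ∀ i ≤ d, q2 * f i - q1 * g i = b * t i - a * t (i + 1))
    (hz : ∀ x y : ℂ, ∑ i ∈ Finset.range (d + 1), (f i : ℂ) * x ^ i * y ^ (d - i) = 0 →
      ∑ i ∈ Finset.range (d + 1), (g i : ℂ) * x ^ i * y ^ (d - i) = 0 → x = 0 ∧ y = 0) :
    ∃ m k, m + 1 ≤ d ∧ k ≤ d ∧ t (m + 1) ≠ 0 ∧ mn f t m (m + 1) k ≠ 0 := by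
  classical
  have hg : ∀ x y : ℂ, (q1 : ℂ) * ∑ i ∈ Finset.range (d + 1), (g i : ℂ) * x ^ i * y ^ (d - i) =
      (q2 : ℂ) * ∑ i ∈ Finset.range (d + 1), (f i : ℂ) * x ^ i * y ^ (d - i) -
      (b : ℂ) * ∑ i ∈ Finset.range (d + 1), (t i : ℂ) * x ^ i * y ^ (d - i) +
      (a : ℂ) * ∑ i ∈ Finset.range (d + 1), (t (i + 1) : ℂ) * x ^ i * y ^ (d - i) := by
    intro x y
    rw [Finset.mul_sum, Finset.mul_sum, Finset.mul_sum, Finset.mul_sum, ← Finset.sum_sub_distrib,
      ← Finset.sum_add_distrib]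
    apply Finset.sum_congr rfl
    intro i hi
    rw [Finset.mem_range] at hi
    have h1 := h i (by omega)
    have h2 : (q2 : ℂ) * f i - q1 * g i = b * t i - a * t (i + 1) := by exact_mod_cast h1
    linear_combination (-(x ^ i * y ^ (d - i))) * h2
  have hq1' : (q1 : ℂ) ≠ 0 := by exact_mod_cast hq1
  by_cases ht : ∀ i ≤ d, t i = 0
  · exfalso
    obtain ⟨x, y, hxy, hf⟩ := exists_zero (d := d) (by omega) (fun i => (f i : ℂ))
    have e1 : ∑ i ∈ Finset.range (d + 1), (t i : ℂ) * x ^ i * y ^ (d - i) = 0 := by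
      apply Finset.sum_eq_zero; intro i hi
      rw [Finset.mem_range] at hi
      rw [ht i (by omega)]; simp
    have e2 : ∑ i ∈ Finset.range (d + 1), (t (i + 1) : ℂ) * x ^ i * y ^ (d - i) = 0 := by
      apply Finset.sum_eq_zero; intro i hi
      rw [Finset.mem_range] at hi
      rcases Nat.lt_or_ge i d with h1 | h1
      · rw [ht (i + 1) (by omega)]; simp
      · have : i = d := by omega
        rw [this, hd0]; simp
    have e3 := hg x y
    rw [e1, e2] at e3
    rw [hf] at e3
    have e4 : ∑ i ∈ Finset.range (d + 1), (g i : ℂ) * x ^ i * y ^ (d - i) = 0 := by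
      have : (q1 : ℂ) * ∑ i ∈ Finset.range (d + 1), (g i : ℂ) * x ^ i * y ^ (d - i) = 0 := by
        rw [e3]; ring
      exact (mul_eq_zero.mp this).resolve_left hq1'
    have := hz x y hf e4
    rcases hxy with h1 | h1
    · exact h1 this.1
    · exact h1 this.2
  · push Not at ht
    obtain ⟨i0, hi0, hti0⟩ := ht
    have hex : ∃ i, t i ≠ 0 := ⟨i0, hti0⟩
    set m1 := Nat.find hex with hm1
    have hm1t : t m1 ≠ 0 := Nat.find_spec hex
    have hm1min : ∀ j < m1, t j = 0 := by
      intro j hj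
      have := Nat.find_min hex hj
      push Not at this
      exact this
    have hm1d : m1 ≤ d := (Nat.find_min' hex hti0).trans hi0
    have hm10 : m1 ≠ 0 := by
      intro h1
      rw [h1] at hm1t
      exact hm1t h0
    obtain ⟨m, hm⟩ : ∃ m, m1 = m + 1 := ⟨m1 - 1, by omega⟩
    rw [hm] at hm1t hm1min hm1d
    have htm : t m = 0 := hm1min m (by omega)
    by_contra hcon
    push Not at hcon
    have hall : ∀ k ≤ d, t (m + 1) ^ 2 * f k = f m * t (m + 1) * t (k + 1) +
        (f (m + 1) * t (m + 1) - f m * t (m + 2)) * t k := by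
      intro k hk
      have h1 := hcon m k hm1d hk hm1t
      unfold mn at h1
      rw [htm] at h1
      linear_combination (-1) * h1
    -- a zero of the quotient
    obtain ⟨x, y, hxy, hS⟩ := exists_zero (d := d - 1) (by omega) (fun i => (t (i + 1) : ℂ))
    have hdd : d - 1 + 1 = d := by omega
    rw [hdd] at hS
    have e2 : ∑ i ∈ Finset.range (d + 1), (t (i + 1) : ℂ) * x ^ i * y ^ (d - i) = 0 := by
      rw [Finset.sum_range_succ, hd0]
      have : ∑ i ∈ Finset.range d, (t (i + 1) : ℂ) * x ^ i * y ^ (d - i) =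
          y * ∑ i ∈ Finset.range d, (t (i + 1) : ℂ) * x ^ i * y ^ (d - 1 - i) := by
        rw [Finset.mul_sum]
        apply Finset.sum_congr rfl
        intro i hi
        rw [Finset.mem_range] at hi
        have : d - i = (d - 1 - i) + 1 := by omega
        rw [this]; ring
      rw [this, hS]; simp
    have e1 : ∑ i ∈ Finset.range (d + 1), (t i : ℂ) * x ^ i * y ^ (d - i) = 0 := by
      rw [Finset.sum_range_succ', h0]
      have : ∑ i ∈ Finset.range d, (t (i + 1) : ℂ) * x ^ (i + 1) * y ^ (d - (i + 1)) =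
          x * ∑ i ∈ Finset.range d, (t (i + 1) : ℂ) * x ^ i * y ^ (d - 1 - i) := by
        rw [Finset.mul_sum]
        apply Finset.sum_congr rfl
        intro i hi
        rw [Finset.mem_range] at hi
        have : d - (i + 1) = (d - 1 - i) := by omega
        rw [this]; ring
      rw [this, hS]; simp
    have hf : ∑ i ∈ Finset.range (d + 1), (f i : ℂ) * x ^ i * y ^ (d - i) = 0 := by
      have hne : ((t (m + 1) : ℂ)) ^ 2 ≠ 0 := pow_ne_zero _ (by exact_mod_cast hm1t)
      have h3 : ((t (m + 1) : ℂ)) ^ 2 *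
          ∑ i ∈ Finset.range (d + 1), (f i : ℂ) * x ^ i * y ^ (d - i) =
          (f m * t (m + 1) : ℂ) * ∑ i ∈ Finset.range (d + 1), (t (i + 1) : ℂ) * x ^ i * y ^ (d - i) +
          (f (m + 1) * t (m + 1) - f m * t (m + 2) : ℂ) *
            ∑ i ∈ Finset.range (d + 1), (t i : ℂ) * x ^ i * y ^ (d - i) := by
        rw [Finset.mul_sum, Finset.mul_sum, Finset.mul_sum, ← Finset.sum_add_distrib]
        apply Finset.sum_congr rfl
        intro i hi
        rw [Finset.mem_range] at hi
        have h1 := hall i (by omega)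
        have h2 : (t (m + 1) : ℂ) ^ 2 * f i = f m * t (m + 1) * t (i + 1) +
          (f (m + 1) * t (m + 1) - f m * t (m + 2)) * t i := by exact_mod_cast h1
        linear_combination (x ^ i * y ^ (d - i)) * h2
      rw [e1, e2, mul_zero, mul_zero, add_zero] at h3
      exact (mul_eq_zero.mp h3).resolve_left hne
    have e4 : ∑ i ∈ Finset.range (d + 1), (g i : ℂ) * x ^ i * y ^ (d - i) = 0 := by
      have e3 := hg x y
      rw [e1, e2, hf] at e3
      have : (q1 : ℂ) * ∑ i ∈ Finset.range (d + 1), (g i : ℂ) * x ^ i * y ^ (d - i) = 0 := by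
        rw [e3]; ring
      exact (mul_eq_zero.mp this).resolve_left hq1'
    have := hz x y hf e4
    rcases hxy with h1 | h1
    · exact h1 this.1
    · exact h1 this.2

end

end Pool.Agent.W47.AM
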