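import Pool.Agent.W47.AM.Defs

/-! Bounds for the number of small vectors `v` with `a ∣ q ∧ v`. -/

set_option autoImplicit false

namespace Pool.Agent.W47.AM

noncomputable section

open Finset

/-- the sup norm -/
def nrm (v : ℤ × ℤ) : ℕ := max v.1.natAbs v.2.natAbs

lemma na {x y : ℤ} (h : |x| ≤ |y|) : x.natAbs ≤ y.natAbs := by
  simp only [Int.abs_eq_natAbs] at h; exact_mod_cast h

lemma nrm_le {v : ℤ × ℤ} {H : ℕ} : nrm v ≤ H ↔ |v.1| ≤ H ∧ |v.2| ≤ H := by
  simp only [nrm, max_le_iff, Int.abs_eq_natAbs]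
  norm_cast

lemma mem_bx' {H : ℕ} {v : ℤ × ℤ} : v ∈ bx H ↔ nrm v ≤ H := by rw [mem_bx, nrm_le]

lemma abs_fst_le (v : ℤ × ℤ) : |v.1| ≤ nrm v := by
  have : v.1.natAbs ≤ nrm v := le_max_left _ _
  rw [Int.abs_eq_natAbs]; exact_mod_cast this

lemma abs_snd_le (v : ℤ × ℤ) : |v.2| ≤ nrm v := by
  have : v.2.natAbs ≤ nrm v := le_max_right _ _
  rw [Int.abs_eq_natAbs]; exact_mod_cast this

lemma nrm_pos {v : ℤ × ℤ} (h : v ≠ 0) : 1 ≤ nrm v := by
  by_contra hlt
  have h0 : nrm v ≤ 0 := by omega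
  rw [nrm_le] at h0
  apply h
  have h1 : v.1 = 0 := by have := h0.1; simpa using this
  have h2 : v.2 = 0 := by have := h0.2; simpa using this
  exact Prod.ext h1 h2

lemma L_abs_le (q v : ℤ × ℤ) : |L q v| ≤ 2 * nrm q * nrm v := by
  have h1 := abs_fst_le q
  have h2 := abs_snd_le q
  have h3 := abs_fst_le v
  have h4 := abs_snd_le v
  calc |L q v| ≤ |q.2 * v.1| + |q.1 * v.2| := abs_sub _ _
    _ = |q.2| * |v.1| + |q.1| * |v.2| := by rw [abs_mul, abs_mul]
    _ ≤ nrm q * nrm v + nrm q * nrm v := by gcongr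
    _ = _ := by ring

/-- counting points on lines -/
lemma line_count {H M lam : ℕ} (hlam : 1 ≤ lam) (S : Finset (ℤ × ℤ)) (hS : ∀ v ∈ S, v ∈ bx (2 * H))
    (φ : ℤ × ℤ → ℤ) (hφ : ∀ v ∈ S, |φ v| ≤ M) (j : ℤ × ℤ → ℤ) (hj : ∀ v, |j v| ≤ nrm v)
    (hsep : ∀ v ∈ S, ∀ v' ∈ S, φ v = φ v' → v ≠ v' → (lam : ℤ) ≤ |j v - j v'|) :
    S.card ≤ (2 * M + 1) * (4 * H / lam + 1) := by
  have hcard : (Finset.Icc (-(M:ℤ)) M ×ˢ Finset.Icc (0:ℤ) ((4 * H / lam : ℕ) : ℤ)).card =
      (2 * M + 1) * (4 * H / lam + 1) := by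
    rw [Finset.card_product, Int.card_Icc, Int.card_Icc]
    congr 1
    · omega
  rw [← hcard]
  have hl : (0 : ℤ) < lam := by exact_mod_cast hlam
  refine Finset.card_le_card_of_injOn (fun v => (φ v, (j v + 2 * H) / lam)) ?_ ?_
  · intro v hv
    have h1 := hφ v hv
    have h2 := mem_bx'.mp (hS v hv)
    have h3 := hj v
    have h4 : |j v| ≤ 2 * (H : ℤ) := by
      refine h3.trans ?_
      exact_mod_cast h2
    rw [abs_le] at h1 h4
    simp only [Finset.coe_product, Set.mem_prod, Finset.mem_coe, Finset.mem_Icc]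
    refine ⟨h1, Int.ediv_nonneg (by linarith) hl.le, ?_⟩
    push_cast
    apply Int.ediv_le_ediv hl
    linarith
  · intro v hv v' hv' hvv
    simp only [Prod.mk.injEq] at hvv
    by_contra hne
    have h1 := hsep v hv v' hv' hvv.1 hne
    have e1 := Int.emod_add_mul_ediv (j v + 2 * H) lam
    have e2 := Int.emod_add_mul_ediv (j v' + 2 * H) lam
    have b1 := Int.emod_nonneg (j v + 2 * H) hl.ne'
    have b2 := Int.emod_lt_of_pos (j v + 2 * H) hl
    have b3 := Int.emod_nonneg (j v' + 2 * H) hl.ne'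
    have b4 := Int.emod_lt_of_pos (j v' + 2 * H) hl
    rw [hvv.2] at e1
    have h5 : |j v - j v'| < lam := by
      rw [abs_lt]
      constructor <;> linarith
    linarith

/-- a vector parallel to a primitive vector is a multiple of it -/
lemma exists_mul {q v : ℤ × ℤ} (hq : IsCoprime q.1 q.2) (h : L q v = 0) :
    ∃ k : ℤ, v.1 = k * q.1 ∧ v.2 = k * q.2 := by
  obtain ⟨x, y, hxy⟩ := hq
  refine ⟨x * v.1 + y * v.2, ?_, ?_⟩
  · have h' : q.2 * v.1 = q.1 * v.2 := by unfold L at h; linarith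
    linear_combination (-v.1) * hxy + y * h'
  · have h' : q.2 * v.1 = q.1 * v.2 := by unfold L at h; linarith
    linear_combination (-v.2) * hxy - x * h'

lemma ne_zero_of_coprime {q : ℤ × ℤ} (hq : IsCoprime q.1 q.2) : q ≠ 0 := by
  rintro rfl
  obtain ⟨x, y, hxy⟩ := hq
  simp at hxy

lemma nrm_pos_of_coprime {q : ℤ × ℤ} (hq : IsCoprime q.1 q.2) : 1 ≤ nrm q :=
  nrm_pos (ne_zero_of_coprime hq)

/-- the coordinate where the norm is attained -/
lemma exists_coord (q : ℤ × ℤ) : ∃ j : ℤ × ℤ → ℤ, (∀ v, |j v| ≤ nrm v) ∧ |j q| = nrm q ∧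
    (∀ v v', j (v - v') = j v - j v') ∧ (∀ v : ℤ × ℤ, L q v = 0 → q ≠ 0 → (nrm v : ℤ) = |j v|) := by
  rcases le_total (|q.2|) (|q.1|) with h | h
  · refine ⟨Prod.fst, abs_fst_le, ?_, fun _ _ => rfl, ?_⟩
    · have : nrm q = q.1.natAbs := by
        simp only [nrm]; apply max_eq_left; exact na (by assumption)
      rw [this, Int.abs_eq_natAbs]
    · intro v hv hq
      have h1 : q.2 * v.1 = q.1 * v.2 := by unfold L at hv; linarith
      have h2 : |q.2| * |v.1| = |q.1| * |v.2| := by rw [← abs_mul, ← abs_mul, h1]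
      have hq1 : 0 < |q.1| := by
        rcases eq_or_ne q.1 0 with h0 | h0
        · exfalso
          rw [h0] at h
          simp at h
          exact hq (Prod.ext h0 h)
        · exact abs_pos.mpr h0
      have h3 : |v.2| ≤ |v.1| := by
        have : |q.1| * |v.2| ≤ |q.1| * |v.1| := by
          rw [← h2]; exact mul_le_mul_of_nonneg_right h (abs_nonneg _)
        exact le_of_mul_le_mul_left this hq1
      have : nrm v = v.1.natAbs := by
        simp only [nrm]; apply max_eq_left; exact na (by assumption)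
      rw [this, Int.abs_eq_natAbs]
  · refine ⟨Prod.snd, abs_snd_le, ?_, fun _ _ => rfl, ?_⟩
    · have : nrm q = q.2.natAbs := by
        simp only [nrm]; apply max_eq_right; exact na (by assumption)
      rw [this, Int.abs_eq_natAbs]
    · intro v hv hq
      have h1 : q.2 * v.1 = q.1 * v.2 := by unfold L at hv; linarith
      have h2 : |q.2| * |v.1| = |q.1| * |v.2| := by rw [← abs_mul, ← abs_mul, h1]
      have hq1 : 0 < |q.2| := by
        rcases eq_or_ne q.2 0 with h0 | h0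
        · exfalso
          rw [h0] at h
          simp at h
          exact hq (Prod.ext h h0)
        · exact abs_pos.mpr h0
      have h3 : |v.1| ≤ |v.2| := by
        have : |q.2| * |v.1| ≤ |q.2| * |v.2| := by
          rw [h2]; exact mul_le_mul_of_nonneg_right h (abs_nonneg _)
        exact le_of_mul_le_mul_left this hq1
      have : nrm v = v.2.natAbs := by
        simp only [nrm]; apply max_eq_right; exact na (by assumption)
      rw [this, Int.abs_eq_natAbs]

/-- the deterministic bound -/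
theorem V_card_det {H : ℕ} {a : ℕ} (ha : 0 < a) {q : ℤ × ℤ} (hq : IsCoprime q.1 q.2) :
    (V H a q).card ≤ (2 * (4 * H * nrm q / a) + 1) * (4 * H / nrm q + 1) := by
  obtain ⟨j, hj1, hj2, hj3, hj4⟩ := exists_coord q
  have hq0 : q ≠ 0 := ne_zero_of_coprime hq
  have haz : (0 : ℤ) < a := by exact_mod_cast ha
  refine line_count (nrm_pos_of_coprime hq) (V H a q) (fun v hv => (Finset.mem_filter.mp hv).1)
    (fun v => L q v / a) ?_ j hj1 ?_
  · intro v hv
    have h1 := L_abs_le q v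
    have h2 := mem_bx'.mp (Finset.mem_filter.mp hv).1
    obtain ⟨m, hm⟩ := (Finset.mem_filter.mp hv).2
    rw [hm, Int.mul_ediv_cancel_left _ haz.ne']
    have h3 : (a : ℤ) * |m| ≤ 4 * H * nrm q := by
      have : (a : ℤ) * |m| = |L q v| := by rw [hm, abs_mul, abs_of_pos haz]
      rw [this]
      refine h1.trans ?_
      have h2' : (nrm v : ℤ) ≤ 2 * H := by exact_mod_cast h2
      nlinarith [(Int.natCast_nonneg (nrm q) : (0:ℤ) ≤ nrm q)]
    push_cast
    rw [Int.le_ediv_iff_mul_le haz]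
    linarith
  · intro v hv v' hv' hvv hne
    obtain ⟨m, hm⟩ := (Finset.mem_filter.mp hv).2
    obtain ⟨m', hm'⟩ := (Finset.mem_filter.mp hv').2
    rw [hm, hm', Int.mul_ediv_cancel_left _ haz.ne', Int.mul_ediv_cancel_left _ haz.ne'] at hvv
    have hL : L q (v - v') = 0 := by rw [L_sub, hm, hm', hvv]; ring
    obtain ⟨k, hk1, hk2⟩ := exists_mul hq hL
    rw [← hj3, ← hj4 _ hL hq0]
    have hk0 : k ≠ 0 := by
      rintro rfl
      apply hne
      have e1 : (v - v').1 = 0 := by rw [hk1]; ring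
      have e2 : (v - v').2 = 0 := by rw [hk2]; ring
      exact sub_eq_zero.mp (Prod.ext e1 e2)
    have hk1' : 1 ≤ |k| := Int.one_le_abs hk0
    have h1 : |q.1| ≤ |(v - v').1| := by
      rw [hk1, abs_mul]; nlinarith [abs_nonneg q.1]
    have h2 : |q.2| ≤ |(v - v').2| := by
      rw [hk2, abs_mul]; nlinarith [abs_nonneg q.2]
    have : nrm q ≤ nrm (v - v') := by
      simp only [nrm]
      exact max_le_max (na (by assumption)) (na (by assumption))
    exact_mod_cast this

/-- the bound for the kernel -/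
theorem V0_card {H : ℕ} {q : ℤ × ℤ} (hq : IsCoprime q.1 q.2) :
    (V H 0 q).card ≤ 4 * H / nrm q + 1 := by
  obtain ⟨j, hj1, hj2, hj3, hj4⟩ := exists_coord q
  have hq0 : q ≠ 0 := ne_zero_of_coprime hq
  have := line_count (M := 0) (nrm_pos_of_coprime hq) (V H 0 q)
    (fun v hv => (Finset.mem_filter.mp hv).1) (fun v => 0) (fun v _ => by simp) j hj1 ?_
  · simpa using this
  · intro v hv v' hv' _ hne
    have hm := (Finset.mem_filter.mp hv).2
    have hm' := (Finset.mem_filter.mp hv').2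
    rw [zero_dvd_iff] at hm hm'
    have hL : L q (v - v') = 0 := by rw [L_sub, hm, hm']; ring
    obtain ⟨k, hk1, hk2⟩ := exists_mul hq hL
    rw [← hj3, ← hj4 _ hL hq0]
    have hk0 : k ≠ 0 := by
      rintro rfl
      apply hne
      have e1 : (v - v').1 = 0 := by rw [hk1]; ring
      have e2 : (v - v').2 = 0 := by rw [hk2]; ring
      exact sub_eq_zero.mp (Prod.ext e1 e2)
    have hk1' : 1 ≤ |k| := Int.one_le_abs hk0
    have h1 : |q.1| ≤ |(v - v').1| := by
      rw [hk1, abs_mul]; nlinarith [abs_nonneg q.1]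
    have h2 : |q.2| ≤ |(v - v').2| := by
      rw [hk2, abs_mul]; nlinarith [abs_nonneg q.2]
    have : nrm q ≤ nrm (v - v') := by
      simp only [nrm]
      exact max_le_max (na (by assumption)) (na (by assumption))
    exact_mod_cast this

/-- for `|q|` large only the zero vector is in the kernel -/
theorem V0_card_one {H : ℕ} {q : ℤ × ℤ} (hq : IsCoprime q.1 q.2) (h : 2 * H < nrm q) :
    (V H 0 q).card ≤ 1 := by
  rw [Finset.card_le_one]
  have key : ∀ v ∈ V H 0 q, v = 0 := by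
    intro v hv
    have h1 := mem_bx'.mp (Finset.mem_filter.mp hv).1
    have hm := (Finset.mem_filter.mp hv).2
    rw [zero_dvd_iff] at hm
    obtain ⟨k, hk1, hk2⟩ := exists_mul hq hm
    by_contra hne
    have hk0 : k ≠ 0 := by
      rintro rfl
      apply hne
      exact Prod.ext (by simpa using hk1) (by simpa using hk2)
    have hk1' : 1 ≤ |k| := Int.one_le_abs hk0
    have h1' : |q.1| ≤ |v.1| := by
      rw [hk1, abs_mul]; nlinarith [abs_nonneg q.1]
    have h2' : |q.2| ≤ |v.2| := by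
      rw [hk2, abs_mul]; nlinarith [abs_nonneg q.2]
    have : nrm q ≤ nrm v := by
      simp only [nrm]
      exact max_le_max (na (by assumption)) (na (by assumption))
    omega
  intro a ha b hb
  rw [key a ha, key b hb]

/-- two elements of the lattice have determinant divisible by `a` -/
lemma dvd_wedge {a : ℤ} {q v v' : ℤ × ℤ} (hq : IsCoprime q.1 q.2) (h : a ∣ L q v)
    (h' : a ∣ L q v') : a ∣ L v v' := by
  obtain ⟨x, y, hxy⟩ := hq
  have e : L v v' = (x * v.1 + y * v.2) * L q v' - (x * v'.1 + y * v'.2) * L q v := by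
    unfold L
    linear_combination (-(v.2 * v'.1 - v.1 * v'.2)) * hxy
  rw [e]
  exact dvd_sub (Dvd.dvd.mul_left h' _) (Dvd.dvd.mul_left h _)

/-- the lattice bound -/
theorem V_card_lat {H : ℕ} {a : ℕ} (ha : 0 < a) {q : ℤ × ℤ} (hq : IsCoprime q.1 q.2) :
    (V H a q).card ≤ 1 ∨ ∃ v0 ∈ V H a q, v0 ≠ 0 ∧
      (V H a q).card ≤ (2 * (4 * H * nrm v0 / a) + 1) * (4 * H / nrm v0 + 1) := by
  classical
  by_cases hall : ∀ v ∈ V H a q, v = 0
  · left
    rw [Finset.card_le_one]
    intro v hv v' hv'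
    rw [hall v hv, hall v' hv']
  right
  push Not at hall
  have hne : ((V H a q).filter (fun v => v ≠ 0)).Nonempty := by
    obtain ⟨v, hv, hv0⟩ := hall
    exact ⟨v, Finset.mem_filter.mpr ⟨hv, hv0⟩⟩
  obtain ⟨v0, hv0, hmin⟩ := Finset.exists_min_image _ nrm hne
  rw [Finset.mem_filter] at hv0
  refine ⟨v0, hv0.1, hv0.2, ?_⟩
  obtain ⟨j, hj1, hj2, hj3, hj4⟩ := exists_coord v0
  have haz : (0 : ℤ) < a := by exact_mod_cast ha
  have hd : ∀ v ∈ V H a q, (a : ℤ) ∣ L v0 v := fun v hv =>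
    dvd_wedge hq (Finset.mem_filter.mp hv0.1).2 (Finset.mem_filter.mp hv).2
  refine line_count (nrm_pos hv0.2) (V H a q) (fun v hv => (Finset.mem_filter.mp hv).1)
    (fun v => L v0 v / a) ?_ j hj1 ?_
  · intro v hv
    have h1 := L_abs_le v0 v
    have h2 := mem_bx'.mp (Finset.mem_filter.mp hv).1
    obtain ⟨m, hm⟩ := hd v hv
    rw [hm, Int.mul_ediv_cancel_left _ haz.ne']
    have h3 : (a : ℤ) * |m| ≤ 4 * H * nrm v0 := by
      have : (a : ℤ) * |m| = |L v0 v| := by rw [hm, abs_mul, abs_of_pos haz]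
      rw [this]
      refine h1.trans ?_
      have h2' : (nrm v : ℤ) ≤ 2 * H := by exact_mod_cast h2
      nlinarith [(Int.natCast_nonneg (nrm v0) : (0:ℤ) ≤ nrm v0)]
    push_cast
    rw [Int.le_ediv_iff_mul_le haz]
    linarith
  · intro v hv v' hv' hvv hne'
    obtain ⟨m, hm⟩ := hd v hv
    obtain ⟨m', hm'⟩ := hd v' hv'
    rw [hm, hm', Int.mul_ediv_cancel_left _ haz.ne', Int.mul_ediv_cancel_left _ haz.ne'] at hvv
    have hL : L v0 (v - v') = 0 := by rw [L_sub, hm, hm', hvv]; ring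
    rw [← hj3, ← hj4 _ hL hv0.2]
    have hne2 : v - v' ≠ 0 := sub_ne_zero.mpr hne'
    by_cases hbig : nrm (v - v') ≤ 2 * H
    · have hmem : v - v' ∈ V H a q := by
        rw [V, Finset.mem_filter]
        refine ⟨mem_bx'.mpr hbig, ?_⟩
        rw [L_sub]
        exact dvd_sub (Finset.mem_filter.mp hv).2 (Finset.mem_filter.mp hv').2
      have := hmin (v - v') (Finset.mem_filter.mpr ⟨hmem, hne2⟩)
      exact_mod_cast this
    · have h1 := mem_bx'.mp (Finset.mem_filter.mp hv0.1).1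
      have : nrm v0 ≤ nrm (v - v') := by omega
      exact_mod_cast this

end

end Pool.Agent.W47.AM
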