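import Pool.Agent.W47.AM.Dual
import Pool.Agent.W47.AM.Line

/-! Existence of the dual vector for a pair of forms. -/

set_option autoImplicit false

namespace Pool.Agent.W47.AM

noncomputable section

open Finset

/-- the two forms have no common zero -/
def NoZero {d : ℕ} (w : Fin (d + 1) → ℤ × ℤ) : Prop :=
  ∀ x y : ℂ, ∑ i, ((w i).1 : ℂ) * x ^ (i : ℕ) * y ^ (d - i) = 0 →
    ∑ i, ((w i).2 : ℂ) * x ^ (i : ℕ) * y ^ (d - i) = 0 → x = 0 ∧ y = 0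

/-- dual vector on four coordinates -/
def HasDual {d : ℕ} (Y : ℕ) (w : Fin (d + 1) → ℤ × ℤ) : Prop :=
  ∃ j : Fin 4 → Fin (d + 1), Function.Injective j ∧ ∃ y : Fin 4 → ℤ, y ≠ 0 ∧ (∀ i, |y i| ≤ Y) ∧
    ∑ i, y i * (w (j i)).1 = 0 ∧ ∑ i, y i * (w (j i)).2 = 0

/-- dual vector with a short recurrence, in degree `3` -/
def HasDual3 (H Y : ℕ) (w : Fin 4 → ℤ × ℤ) : Prop :=
  ∃ y : Fin 4 → ℤ, y ≠ 0 ∧ (∀ i, |y i| ≤ Y) ∧
    ∑ i, y i * (w i).1 = 0 ∧ ∑ i, y i * (w i).2 = 0 ∧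
    ∃ s : Fin 3 → ℤ, s ≠ 0 ∧ (∀ i, |s i| ≤ 6 * H) ∧
      s 0 * y 0 + s 1 * y 1 + s 2 * y 2 = 0 ∧ s 0 * y 1 + s 1 * y 2 + s 2 * y 3 = 0

/-- extension by zero -/
def ext0 {d : ℕ} (u : Fin (d + 1) → ℤ) (i : ℕ) : ℤ := if h : i < d + 1 then u ⟨i, h⟩ else 0

lemma ext0_fin {d : ℕ} (u : Fin (d + 1) → ℤ) (i : Fin (d + 1)) : ext0 u i = u i := by
  unfold ext0; rw [dif_pos i.2]

/-- swap the two forms -/
def sw {d : ℕ} (w : Fin (d + 1) → ℤ × ℤ) : Fin (d + 1) → ℤ × ℤ := fun i => (w i).swap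

lemma sw_box {d H : ℕ} {w : Fin (d + 1) → ℤ × ℤ} (h : w ∈ boxw d H) : sw w ∈ boxw d H := by
  rw [mem_boxw] at h ⊢
  intro i
  have := h i
  rw [mem_bx] at this ⊢
  exact ⟨this.2, this.1⟩

lemma sw_rel {d : ℕ} {w : Fin (d + 1) → ℤ × ℤ} {a b : ℤ} {q : ℤ × ℤ} (h : Rel w a b q) :
    Rel (sw w) a b q.swap := by
  unfold Rel at *
  have : ∑ i, L q.swap (sw w i) * a ^ (i : ℕ) * b ^ (d - i) =
      -∑ i, L q (w i) * a ^ (i : ℕ) * b ^ (d - i) := by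
    rw [← Finset.sum_neg_distrib]
    apply Finset.sum_congr rfl
    intro i _
    simp only [L, sw, Prod.fst_swap, Prod.snd_swap]; ring
  rw [this, h, neg_zero]

lemma sw_noZero {d : ℕ} {w : Fin (d + 1) → ℤ × ℤ} (h : NoZero w) : NoZero (sw w) :=
  fun x y h1 h2 => h x y h2 h1

lemma nrm_swap (q : ℤ × ℤ) : nrm q.swap = nrm q := by simp [nrm, max_comm]

/-- data of a short quotient -/
theorem dual_data {d H : ℕ} {w : Fin (d + 1) → ℤ × ℤ} (hw : w ∈ boxw d H)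
    {a : ℕ} (ha : 1 ≤ a) {b : ℤ} (hb : |b| ≤ a) (hab : IsCoprime (a:ℤ) b) {q : ℤ × ℤ}
    (hrel : Rel w a b q) :
    ∃ t : ℕ → ℤ, t 0 = 0 ∧ t (d + 1) = 0 ∧
      (∀ i ≤ d, q.2 * ext0 (fun i => (w i).1) i - q.1 * ext0 (fun i => (w i).2) i =
        b * t i - a * t (i + 1)) ∧
      ∀ i ≤ d + 1, (a:ℤ) * |t i| ≤ i * (2 * nrm q * H) := by
  have ha0 : (a:ℤ) ≠ 0 := by omega
  have h1 : ∑ i ∈ Finset.range (d + 1),
      (q.2 * ext0 (fun i => (w i).1) i - q.1 * ext0 (fun i => (w i).2) i) * (a:ℤ) ^ i *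
        b ^ (d - i) = b ^ (d + 1) * 0 := by
    rw [mul_zero, Finset.sum_range]
    unfold Rel at hrel
    rw [← hrel]
    apply Finset.sum_congr rfl
    intro i _
    rw [ext0_fin, ext0_fin]; rfl
  obtain ⟨t, h2, h3, h4⟩ := exists_quot hab ha0 d _ 0 h1
  refine ⟨t, h2, h3, h4, ?_⟩
  refine quot_bound (by omega) hb h2 ?_ h4
  intro i hi
  have hi' : i < d + 1 := by omega
  have e : q.2 * ext0 (fun i => (w i).1) i - q.1 * ext0 (fun i => (w i).2) i =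
      L q (w ⟨i, hi'⟩) := by
    simp [ext0, hi', L]
  rw [e]
  refine (L_abs_le _ _).trans ?_
  have := mem_bx'.mp (mem_boxw.mp hw ⟨i, hi'⟩)
  have h5 : (nrm (w ⟨i, hi'⟩) : ℤ) ≤ H := by exact_mod_cast this
  gcongr

lemma mn_div_bound {d H Y : ℕ} {w : Fin (d + 1) → ℤ × ℤ} (hw : w ∈ boxw d H)
    {a : ℕ} (ha : 1 ≤ a) {q : ℤ × ℤ} {t : ℕ → ℤ} (ht1 : t (d + 1) = 0)
    (hC : (nrm q : ℤ) = |q.1|) (hC0 : 1 ≤ nrm q)
    (hCa : nrm q ≤ a) (hY : 24 * d ^ 2 * H ^ 3 ≤ Y * a)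
    (ht : ∀ i ≤ d + 1, (a:ℤ) * |t i| ≤ i * (2 * nrm q * H)) {i j k : ℕ} (hi : i ≤ d) (hj : j ≤ d)
    (hk : k ≤ d) {z : ℤ} (hz : mn (ext0 fun i => (w i).1) t i j k = q.1 * z) : |z| ≤ Y := by
  have ha' : (0:ℤ) < a := by omega
  have hf : ∀ i, |ext0 (fun i => (w i).1) i| ≤ (H:ℤ) := by
    intro i
    unfold ext0
    split_ifs with h
    · exact (mem_bx.mp (mem_boxw.mp hw ⟨i, h⟩)).1
    · simp
  have htt : ∀ i ≤ d + 1, (a:ℤ) * |t i| ≤ d * (2 * nrm q * H) := by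
    intro i hi
    rcases Nat.lt_or_ge d i with h | h
    · have : i = d + 1 := by omega
      rw [this, ht1]; simp; positivity
    · refine (ht i hi).trans ?_
      have : (i:ℤ) ≤ d := by exact_mod_cast h
      gcongr
  have h1 := mn_bound (f := ext0 fun i => (w i).1) (t := t) (a := a) (H := H)
    (T := d * (2 * nrm q * H)) ha' (by positivity) (i := i) (j := j) (k := k) (hf i) (hf j) (hf k)
    (htt i (by omega)) (htt j (by omega)) (htt k (by omega)) (htt _ (by omega)) (htt _ (by omega))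
    (htt _ (by omega))
  rw [hz, abs_mul, ← hC] at h1
  have hC0' : (0:ℤ) < nrm q := by exact_mod_cast hC0
  have h2 : (a:ℤ) ^ 2 * |z| ≤ 24 * d ^ 2 * H ^ 3 * nrm q := by
    have : (nrm q : ℤ) * ((a:ℤ) ^ 2 * |z|) ≤
        (nrm q : ℤ) * (24 * (d:ℤ) ^ 2 * (H:ℤ) ^ 3 * (nrm q : ℤ)) := by
      have e1 : (nrm q : ℤ) * ((a:ℤ) ^ 2 * |z|) = (a:ℤ) ^ 2 * ((nrm q : ℤ) * |z|) := by ring
      have e2 : 6 * (H:ℤ) * ((d:ℤ) * (2 * (nrm q : ℤ) * (H:ℤ))) ^ 2 =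
        (nrm q : ℤ) * (24 * (d:ℤ) ^ 2 * (H:ℤ) ^ 3 * (nrm q : ℤ)) := by ring
      rw [e1, ← e2]; exact h1
    exact le_of_mul_le_mul_left this hC0'
  have h3 : (a:ℤ) ^ 2 * |z| ≤ (a:ℤ) ^ 2 * Y := by
    have hY' : (24 * (d:ℤ) ^ 2 * H ^ 3) ≤ Y * a := by exact_mod_cast hY
    have hCa' : (nrm q : ℤ) ≤ a := by exact_mod_cast hCa
    calc (a:ℤ) ^ 2 * |z| ≤ 24 * d ^ 2 * H ^ 3 * nrm q := h2
      _ ≤ (Y * a) * a := by gcongr
      _ = _ := by ring
  exact le_of_mul_le_mul_left h3 (by positivity)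

lemma noZero_ext {d : ℕ} {w : Fin (d + 1) → ℤ × ℤ} (h : NoZero w) (x y : ℂ)
    (h1 : ∑ i ∈ Finset.range (d + 1), (ext0 (fun i => (w i).1) i : ℂ) * x ^ i * y ^ (d - i) = 0)
    (h2 : ∑ i ∈ Finset.range (d + 1), (ext0 (fun i => (w i).2) i : ℂ) * x ^ i * y ^ (d - i) = 0) :
    x = 0 ∧ y = 0 := by
  apply h x y
  · rw [Finset.sum_range] at h1
    simpa [ext0_fin] using h1
  · rw [Finset.sum_range] at h2
    simpa [ext0_fin] using h2

/-- four distinct indices -/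
lemma fourth {d : ℕ} (hd : 3 ≤ d) {i j k : ℕ} : ∃ l, l ≤ d ∧ l ≠ i ∧ l ≠ j ∧ l ≠ k := by
  by_contra hcon
  push Not at hcon
  have h : ∀ l ∈ Finset.range (d + 1), l ∈ ({i, j, k} : Finset ℕ) := by
    intro l hl
    rw [Finset.mem_range] at hl
    simp only [Finset.mem_insert, Finset.mem_singleton]
    by_contra hne
    push Not at hne
    exact hcon l (by omega) hne.1 hne.2.1 |> fun h => hne.2.2 h
  have h1 := Finset.card_le_card (fun l hl => h l hl : Finset.range (d + 1) ⊆ {i, j, k})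
  have h2 := Finset.card_le_three (a := i) (b := j) (c := k)
  rw [Finset.card_range] at h1
  omega

theorem dual_aux {d H Y : ℕ} (hd : 3 ≤ d) {w : Fin (d + 1) → ℤ × ℤ} (hw : w ∈ boxw d H)
    (hnz : NoZero w) {a : ℕ} (ha : 1 ≤ a) {b : ℤ} (hb : |b| ≤ a) (hab : IsCoprime (a:ℤ) b)
    {q : ℤ × ℤ} (hq : IsCoprime q.1 q.2) (hC : (nrm q : ℤ) = |q.1|) (hCa : nrm q ≤ a)
    (hY : 24 * d ^ 2 * H ^ 3 ≤ Y * a) (hrel : Rel w a b q) : HasDual Y w := by
  obtain ⟨t, ht0, ht1, ht2, ht3⟩ := dual_data hw ha hb hab hrel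
  have hC0 := nrm_pos_of_coprime hq
  have hq1 : q.1 ≠ 0 := by
    intro h0
    rw [h0] at hC
    simp at hC
    omega
  obtain ⟨m, k, hm, hk, htm, hmn⟩ := exists_minor (d := d) (by omega) hq1 ht0 ht1 ht2
    (noZero_ext hnz)
  have hkm : k ≠ m := by
    rintro rfl
    apply hmn; unfold mn; ring
  have hkm1 : k ≠ m + 1 := by
    rintro rfl
    apply hmn; unfold mn; ring
  obtain ⟨l, hl, hl1, hl2, hl3⟩ := fourth hd (i := m) (j := m + 1) (k := k)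
  set f := ext0 (fun i => (w i).1) with hf
  set g := ext0 (fun i => (w i).2) with hg
  obtain ⟨y0, hy0⟩ := mn_dvd hq (ht2 (m + 1) hm) (ht2 k hk) (ht2 l hl)
  obtain ⟨y1, hy1⟩ := mn_dvd hq (ht2 m (by omega)) (ht2 k hk) (ht2 l hl)
  obtain ⟨y2, hy2⟩ := mn_dvd hq (ht2 m (by omega)) (ht2 (m + 1) hm) (ht2 l hl)
  obtain ⟨y3, hy3⟩ := mn_dvd hq (ht2 m (by omega)) (ht2 (m + 1) hm) (ht2 k hk)
  have b0 := mn_div_bound hw ha ht1 hC hC0 hCa hY ht3 hm hk hl hy0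
  have b1 := mn_div_bound hw ha ht1 hC hC0 hCa hY ht3 (by omega : m ≤ d) hk hl hy1
  have b2 := mn_div_bound hw ha ht1 hC hC0 hCa hY ht3 (by omega : m ≤ d) hm hl hy2
  have b3 := mn_div_bound hw ha ht1 hC hC0 hCa hY ht3 (by omega : m ≤ d) hm hk hy3
  have hy30 : y3 ≠ 0 := by
    rintro rfl
    apply hmn
    rw [hy3]; ring
  refine ⟨![⟨m, by omega⟩, ⟨m + 1, by omega⟩, ⟨k, by omega⟩, ⟨l, by omega⟩], ?_,
    ![y0, -y1, y2, -y3], ?_, ?_, ?_, ?_⟩
  · intro i j hij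
    fin_cases i <;> fin_cases j <;> simp [Fin.ext_iff] at hij ⊢ <;> omega
  · intro h0
    have := congrFun h0 3
    simp at this
    exact hy30 this
  · intro i
    fin_cases i
    · exact b0
    · simpa using b1
    · exact b2
    · simpa using b3
  · have hfw : ∀ i (hi : i < d + 1), (w ⟨i, hi⟩).1 = f i := by
      intro i hi
      rw [hf]; simp [ext0, hi]
    rw [Fin.sum_univ_four]
    simp only [Matrix.cons_val_zero, Matrix.cons_val_one, Matrix.cons_val_two, Matrix.cons_val_three,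
      Matrix.head_cons, Matrix.tail_cons]
    rw [hfw, hfw, hfw, hfw]
    apply mul_left_cancel₀ hq1
    rw [mul_zero]
    have : q.1 * (y0 * f m + -y1 * f (m + 1) + y2 * f k + -y3 * f l) =
        mn f t (m + 1) k l * f m - mn f t m k l * f (m + 1) + mn f t m (m + 1) l * f k -
          mn f t m (m + 1) k * f l := by
      rw [hy0, hy1, hy2, hy3]; ring
    rw [this]
    unfold mn; ring
  · have hgw : ∀ i (hi : i < d + 1), (w ⟨i, hi⟩).2 = g i := by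
      intro i hi
      rw [hg]; simp [ext0, hi]
    rw [Fin.sum_univ_four]
    simp only [Matrix.cons_val_zero, Matrix.cons_val_one, Matrix.cons_val_two, Matrix.cons_val_three,
      Matrix.head_cons, Matrix.tail_cons]
    rw [hgw, hgw, hgw, hgw]
    apply mul_left_cancel₀ hq1
    apply mul_left_cancel₀ hq1
    rw [mul_zero, mul_zero]
    have : q.1 * (q.1 * (y0 * g m + -y1 * g (m + 1) + y2 * g k + -y3 * g l)) =
        mn f t (m + 1) k l * (q.1 * g m) - mn f t m k l * (q.1 * g (m + 1)) +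
          mn f t m (m + 1) l * (q.1 * g k) - mn f t m (m + 1) k * (q.1 * g l) := by
      rw [hy0, hy1, hy2, hy3]; ring
    rw [this]
    have e1 : q.1 * g m = q.2 * f m - (b * t m - a * t (m + 1)) := by
      have := ht2 m (by omega); linarith
    have e2 : q.1 * g (m + 1) = q.2 * f (m + 1) - (b * t (m + 1) - a * t (m + 1 + 1)) := by
      have := ht2 (m + 1) hm; linarith
    have e3 : q.1 * g k = q.2 * f k - (b * t k - a * t (k + 1)) := by
      have := ht2 k hk; linarith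
    have e4 : q.1 * g l = q.2 * f l - (b * t l - a * t (l + 1)) := by
      have := ht2 l hl; linarith
    rw [e1, e2, e3, e4]
    unfold mn; ring

/-- existence of the dual vector -/
theorem dual {d H Y : ℕ} (hd : 3 ≤ d) {w : Fin (d + 1) → ℤ × ℤ} (hw : w ∈ boxw d H)
    (hnz : NoZero w) {a : ℕ} (ha : 1 ≤ a) {b : ℤ} (hb : |b| ≤ a) (hab : IsCoprime (a:ℤ) b)
    {q : ℤ × ℤ} (hq : IsCoprime q.1 q.2) (hCa : nrm q ≤ a)
    (hY : 24 * d ^ 2 * H ^ 3 ≤ Y * a) (hrel : Rel w a b q) : HasDual Y w := by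
  rcases le_total |q.2| |q.1| with h | h
  · refine dual_aux hd hw hnz ha hb hab hq ?_ hCa hY hrel
    have : nrm q = q.1.natAbs := by simp only [nrm]; exact max_eq_left (na h)
    rw [this, Int.abs_eq_natAbs]
  · have h1 : HasDual Y (sw w) := by
      refine dual_aux hd (sw_box hw) (sw_noZero hnz) ha hb hab (q := q.swap) hq.symm ?_
        (by rw [nrm_swap]; exact hCa) hY (sw_rel hrel)
      have : nrm q = q.2.natAbs := by simp only [nrm]; exact max_eq_right (na h)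
      rw [nrm_swap, this, Prod.fst_swap, Int.abs_eq_natAbs]
    obtain ⟨j, hj, y, hy, hyY, hy1, hy2⟩ := h1
    exact ⟨j, hj, y, hy, hyY, hy2, hy1⟩

end

end Pool.Agent.W47.AM
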