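import Pool.Agent.W47.AM.Dual2

/-! The dual vector in degree three, with its recurrence. -/

set_option autoImplicit false

namespace Pool.Agent.W47.AM

noncomputable section

open Finset

theorem dual3_aux {H Y : ℕ} {w : Fin (3 + 1) → ℤ × ℤ} (hw : w ∈ boxw 3 H)
    (hnz : NoZero w) {a : ℕ} (ha : 1 ≤ a) {b : ℤ} (hb : |b| ≤ a) (hab : IsCoprime (a:ℤ) b)
    {q : ℤ × ℤ} (hq : IsCoprime q.1 q.2) (hC : (nrm q : ℤ) = |q.1|) (hCa : nrm q ≤ a)
    (hY : 216 * H ^ 3 ≤ Y * a) (hrel : Rel w a b q) : HasDual3 H Y w := by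
  obtain ⟨t, ht0, ht1, ht2, ht3⟩ := dual_data hw ha hb hab hrel
  have hC0 := nrm_pos_of_coprime hq
  have hq1 : q.1 ≠ 0 := by
    intro h0
    rw [h0] at hC
    simp at hC
    omega
  have hY' : 24 * 3 ^ 2 * H ^ 3 ≤ Y * a := by
    refine le_trans (le_of_eq ?_) hY; ring
  obtain ⟨m, k, hm, hk, htm, hmn⟩ := exists_minor (d := 3) (by omega) hq1 ht0 ht1 ht2
    (noZero_ext hnz)
  set f := ext0 (fun i => (w i).1) with hf
  set g := ext0 (fun i => (w i).2) with hg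
  obtain ⟨y0, hy0⟩ := mn_dvd hq (ht2 1 (by omega)) (ht2 2 (by omega)) (ht2 3 (by omega))
  obtain ⟨y1, hy1⟩ := mn_dvd hq (ht2 0 (by omega)) (ht2 2 (by omega)) (ht2 3 (by omega))
  obtain ⟨y2, hy2⟩ := mn_dvd hq (ht2 0 (by omega)) (ht2 1 (by omega)) (ht2 3 (by omega))
  obtain ⟨y3, hy3⟩ := mn_dvd hq (ht2 0 (by omega)) (ht2 1 (by omega)) (ht2 2 (by omega))
  have b0 := mn_div_bound hw ha ht1 hC hC0 hCa hY' ht3 (by omega : 1 ≤ 3) (by omega : 2 ≤ 3)
    (by omega : 3 ≤ 3) hy0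
  have b1 := mn_div_bound hw ha ht1 hC hC0 hCa hY' ht3 (by omega : 0 ≤ 3) (by omega : 2 ≤ 3)
    (by omega : 3 ≤ 3) hy1
  have b2 := mn_div_bound hw ha ht1 hC hC0 hCa hY' ht3 (by omega : 0 ≤ 3) (by omega : 1 ≤ 3)
    (by omega : 3 ≤ 3) hy2
  have b3 := mn_div_bound hw ha ht1 hC hC0 hCa hY' ht3 (by omega : 0 ≤ 3) (by omega : 1 ≤ 3)
    (by omega : 2 ≤ 3) hy3
  have ht1' : t 4 = 0 := ht1
  have e0 : mn f t 1 2 3 = f 1 * (t 2 * 0 - t 3 * t 3) - f 2 * (t 1 * 0 - t 3 * t 2) +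
    f 3 * (t 1 * t 3 - t 2 * t 2) := by
    unfold mn; norm_num [ht1']
  have e1 : mn f t 0 2 3 = f 0 * (t 2 * 0 - t 3 * t 3) - f 2 * (0 * 0 - t 3 * t 1) +
    f 3 * (0 * t 3 - t 2 * t 1) := by
    unfold mn; norm_num [ht1', ht0]
  have e2 : mn f t 0 1 3 = f 0 * (t 1 * 0 - t 3 * t 2) - f 1 * (0 * 0 - t 3 * t 1) +
    f 3 * (0 * t 2 - t 1 * t 1) := by
    unfold mn; norm_num [ht1', ht0]
  have e3 : mn f t 0 1 2 = f 0 * (t 1 * t 3 - t 2 * t 2) - f 1 * (0 * t 3 - t 2 * t 1) +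
    f 2 * (0 * t 2 - t 1 * t 1) := by
    unfold mn; norm_num [ht0]
  rw [e0] at hy0
  rw [e1] at hy1
  rw [e2] at hy2
  rw [e3] at hy3
  have r0 : q.1 * g 0 = q.2 * f 0 + a * t 1 := by
    have := ht2 0 (by omega); rw [ht0] at this; norm_num at this; linarith
  have r1 : q.1 * g 1 = q.2 * f 1 - (b * t 1 - a * t 2) := by
    have := ht2 1 (by omega); norm_num at this; linarith
  have r2 : q.1 * g 2 = q.2 * f 2 - (b * t 2 - a * t 3) := by
    have := ht2 2 (by omega); norm_num at this; linarith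
  have r3 : q.1 * g 3 = q.2 * f 3 - (b * t 3) := by
    have := ht2 3 (by omega); norm_num [ht1'] at this; linarith
  have hfw : ∀ i : Fin 4, (w i).1 = f (i : ℕ) := by
    intro i; rw [hf]; exact (ext0_fin (d := 3) (fun i => (w i).1) i).symm
  have hgw : ∀ i : Fin 4, (w i).2 = g (i : ℕ) := by
    intro i; rw [hg]; exact (ext0_fin (d := 3) (fun i => (w i).2) i).symm
  have hne : ¬ (y0 = 0 ∧ y1 = 0 ∧ y2 = 0 ∧ y3 = 0) := by
    rintro ⟨rfl, rfl, rfl, rfl⟩
    rw [mul_zero] at hy0 hy1 hy2 hy3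
    apply hmn
    have hm' : m ≤ 2 := by omega
    interval_cases m <;> interval_cases k <;> unfold mn <;> norm_num [ht0, ht1'] <;> linarith
  have hsb : ∀ i ≤ 3, |t i| ≤ 6 * H := by
    intro i hi
    have h1 := ht3 i (by omega)
    have ha' : (0:ℤ) < a := by omega
    have hCa' : (nrm q : ℤ) ≤ a := by exact_mod_cast hCa
    have hi' : (i:ℤ) ≤ 3 := by exact_mod_cast hi
    have h2 : (a:ℤ) * |t i| ≤ a * (6 * H) := by
      calc (a:ℤ) * |t i| ≤ i * (2 * nrm q * H) := h1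
        _ ≤ 3 * (2 * (a:ℤ) * H) := by gcongr
        _ = _ := by ring
    exact le_of_mul_le_mul_left h2 ha'
  refine ⟨![y0, -y1, y2, -y3], ?_, ?_, ?_, ?_, ![t 1, t 2, t 3], ?_, ?_, ?_, ?_⟩
  · intro h0
    apply hne
    have h1 := congrFun h0 0
    have h2 := congrFun h0 1
    have h3 := congrFun h0 2
    have h4 := congrFun h0 3
    simp at h1 h2 h3 h4
    exact ⟨h1, h2, h3, h4⟩
  · intro i
    fin_cases i
    · exact b0
    · simpa using b1
    · exact b2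
    · simpa using b3
  · rw [Fin.sum_univ_four, hfw, hfw, hfw, hfw]
    simp only [Matrix.cons_val_zero, Matrix.cons_val_one, Matrix.cons_val_two, Matrix.cons_val_three,
      Matrix.head_cons, Matrix.tail_cons]
    apply mul_left_cancel₀ hq1
    rw [mul_zero]
    have : q.1 * (y0 * f 0 + -y1 * f 1 + y2 * f 2 + -y3 * f 3) =
        (q.1 * y0) * f 0 - (q.1 * y1) * f 1 + (q.1 * y2) * f 2 - (q.1 * y3) * f 3 := by ring
    refine Eq.trans this ?_
    rw [← hy0, ← hy1, ← hy2, ← hy3]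
    ring
  · rw [Fin.sum_univ_four, hgw, hgw, hgw, hgw]
    simp only [Matrix.cons_val_zero, Matrix.cons_val_one, Matrix.cons_val_two, Matrix.cons_val_three,
      Matrix.head_cons, Matrix.tail_cons]
    apply mul_left_cancel₀ hq1
    apply mul_left_cancel₀ hq1
    rw [mul_zero, mul_zero]
    have : q.1 * (q.1 * (y0 * g 0 + -y1 * g 1 + y2 * g 2 + -y3 * g 3)) =
        (q.1 * y0) * (q.1 * g 0) - (q.1 * y1) * (q.1 * g 1) + (q.1 * y2) * (q.1 * g 2) -
          (q.1 * y3) * (q.1 * g 3) := by ring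
    refine Eq.trans this ?_
    rw [← hy0, ← hy1, ← hy2, ← hy3, r0, r1, r2, r3]
    ring
  · intro h0
    have h1 := congrFun h0 0
    have h2 := congrFun h0 1
    have h3 := congrFun h0 2
    simp at h1 h2 h3
    apply htm
    have hm' : m ≤ 2 := by omega
    interval_cases m <;> assumption
  · intro i
    fin_cases i
    · exact hsb 1 (by omega)
    · exact hsb 2 (by omega)
    · exact hsb 3 (by omega)
  · simp only [Matrix.cons_val_zero, Matrix.cons_val_one, Matrix.cons_val_two,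
      Matrix.head_cons, Matrix.tail_cons]
    apply mul_left_cancel₀ hq1
    rw [mul_zero]
    have : q.1 * (t 1 * y0 + t 2 * -y1 + t 3 * y2) =
      t 1 * (q.1 * y0) - t 2 * (q.1 * y1) + t 3 * (q.1 * y2) := by ring
    refine Eq.trans this ?_
    rw [← hy0, ← hy1, ← hy2]
    ring
  · simp only [Matrix.cons_val_zero, Matrix.cons_val_one, Matrix.cons_val_two,
      Matrix.cons_val_three, Matrix.head_cons, Matrix.tail_cons]
    apply mul_left_cancel₀ hq1
    rw [mul_zero]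
    have : q.1 * (t 1 * -y1 + t 2 * y2 + t 3 * -y3) =
      -(t 1 * (q.1 * y1)) + t 2 * (q.1 * y2) - t 3 * (q.1 * y3) := by ring
    refine Eq.trans this ?_
    rw [← hy1, ← hy2, ← hy3]
    ring

/-- existence of the dual vector -/
theorem dual3 {H Y : ℕ} {w : Fin (3 + 1) → ℤ × ℤ} (hw : w ∈ boxw 3 H)
    (hnz : NoZero w) {a : ℕ} (ha : 1 ≤ a) {b : ℤ} (hb : |b| ≤ a) (hab : IsCoprime (a:ℤ) b)
    {q : ℤ × ℤ} (hq : IsCoprime q.1 q.2) (hCa : nrm q ≤ a)
    (hY : 216 * H ^ 3 ≤ Y * a) (hrel : Rel w a b q) : HasDual3 H Y w := by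
  rcases le_total |q.2| |q.1| with h | h
  · refine dual3_aux hw hnz ha hb hab hq ?_ hCa hY hrel
    have : nrm q = q.1.natAbs := by simp only [nrm]; exact max_eq_left (na h)
    rw [this, Int.abs_eq_natAbs]
  · have h1 : HasDual3 H Y (sw w) := by
      refine dual3_aux (sw_box hw) (sw_noZero hnz) ha hb hab (q := q.swap) hq.symm ?_
        (by rw [nrm_swap]; exact hCa) hY (sw_rel hrel)
      have : nrm q = q.2.natAbs := by simp only [nrm]; exact max_eq_right (na h)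
      rw [nrm_swap, this, Prod.fst_swap, Int.abs_eq_natAbs]
    obtain ⟨y, hy, hyY, hy1, hy2, hs⟩ := h1
    exact ⟨y, hy, hyY, hy2, hy1, hs⟩

end

end Pool.Agent.W47.AM
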