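import Pool.Agent.W47.AM.Sums

/-! Solutions of a linear equation in a box. -/

set_option autoImplicit false

namespace Pool.Agent.W47.AM

noncomputable section

open Finset Classical

/-- small solutions of `z · f = 0` -/
def lin {n : ℕ} (H : ℕ) (z : Fin n → ℤ) : Finset (Fin n → ℤ) :=
  (Fintype.piFinset fun _ => Finset.Icc (-(H:ℤ)) H).filter (fun f => ∑ i, z i * f i = 0)

lemma mem_lin {n H : ℕ} {z f : Fin n → ℤ} :
    f ∈ lin H z ↔ (∀ i, |f i| ≤ H) ∧ ∑ i, z i * f i = 0 := by
  simp [lin, Fintype.mem_piFinset, abs_le]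

/-- points of an interval in one class -/
lemma card_class {H v : ℕ} (T : Finset ℤ) (hT : ∀ x ∈ T, |x| ≤ H)
    (hd : ∀ x ∈ T, ∀ y ∈ T, (v:ℤ) ∣ x - y) : T.card ≤ 2 * H / v + 1 := by
  rcases Nat.eq_zero_or_pos v with h0 | h0
  · subst h0
    simp only [Nat.div_zero, zero_add]
    rw [Finset.card_le_one]
    intro x hx y hy
    have := hd x hx y hy
    simp only [Nat.cast_zero, zero_dvd_iff] at this
    linarith
  have hv : (0:ℤ) < v := by exact_mod_cast h0
  have hcard : (Finset.Icc (0:ℤ) ((2 * H / v : ℕ) : ℤ)).card = 2 * H / v + 1 := by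
    generalize 2 * H / v = K
    rw [Int.card_Icc]; omega
  rw [← hcard]
  refine Finset.card_le_card_of_injOn (fun x => (x + H) / v) ?_ ?_
  · intro x hx
    have h1 := hT x hx
    rw [abs_le] at h1
    simp only [Finset.mem_coe, Finset.mem_Icc]
    refine ⟨Int.ediv_nonneg (by linarith) hv.le, ?_⟩
    push_cast
    apply Int.ediv_le_ediv hv
    linarith
  · intro x hx y hy hxy
    simp only at hxy
    obtain ⟨k, hk⟩ := hd x hx y hy
    have e1 := Int.emod_add_mul_ediv (x + H) v
    have e2 := Int.emod_add_mul_ediv (y + H) v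
    have b1 := Int.emod_nonneg (x + H) hv.ne'
    have b2 := Int.emod_lt_of_pos (x + H) hv
    have b3 := Int.emod_nonneg (y + H) hv.ne'
    have b4 := Int.emod_lt_of_pos (y + H) hv
    rw [hxy] at e1
    have h5 : (v:ℤ) * k < v * 1 := by rw [← hk]; linarith
    have h6 : (v:ℤ) * (-1) < v * k := by rw [← hk]; linarith
    have h7 := lt_of_mul_lt_mul_left h5 hv.le
    have h8 := lt_of_mul_lt_mul_left h6 hv.le
    have : k = 0 := by omega
    rw [this, mul_zero] at hk
    linarith

lemma prod_bound {A : ℝ} (hA : 1 ≤ A) : ∀ (r : ℕ) (v : Fin r → ℕ), (∀ k, 1 ≤ v k) →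
    A * ∏ k, (A / v k + 1) ≤ A ^ (r + 1) / (∏ k, (v k : ℝ)) + (2 ^ r - 1) * A ^ r := by
  intro r
  induction r with
  | zero => intro v _; simp
  | succ r ih =>
    intro v hv
    rw [Fin.prod_univ_castSucc, Fin.prod_univ_castSucc]
    have h1 := ih (fun k => v (Fin.castSucc k)) (fun k => hv _)
    set M : ℝ := ∏ k : Fin r, (v (Fin.castSucc k) : ℝ) with hM
    set u : ℝ := (v (Fin.last r) : ℝ) with hu
    have hM1 : 1 ≤ M := by
      rw [hM]
      have : ∏ k : Fin r, (1:ℝ) ≤ ∏ k : Fin r, (v (Fin.castSucc k) : ℝ) := by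
        apply Finset.prod_le_prod
        · intro i _; norm_num
        · intro i _; exact_mod_cast hv _
      simpa using this
    have hu1 : 1 ≤ u := by rw [hu]; exact_mod_cast hv _
    have h2 : (0:ℝ) ≤ A / u + 1 := by positivity
    have h2r : (1:ℝ) ≤ 2 ^ r := one_le_pow₀ (by norm_num)
    have hAr : (0:ℝ) < A ^ r := by positivity
    calc A * ((∏ k : Fin r, (A / (v (Fin.castSucc k) : ℝ) + 1)) * (A / u + 1))
        = (A * ∏ k : Fin r, (A / (v (Fin.castSucc k) : ℝ) + 1)) * (A / u + 1) := by ring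
      _ ≤ (A ^ (r + 1) / M + (2 ^ r - 1) * A ^ r) * (A / u + 1) := by gcongr
      _ = A ^ (r + 1 + 1) / (M * u) + A ^ (r + 1) / M + (2 ^ r - 1) * (A ^ (r + 1) / u) +
          (2 ^ r - 1) * A ^ r := by
          field_simp; ring
      _ ≤ A ^ (r + 1 + 1) / (M * u) + A ^ (r + 1) + (2 ^ r - 1) * A ^ (r + 1) +
          (2 ^ r - 1) * A ^ (r + 1) := by
          have e1 : A ^ (r + 1) / M ≤ A ^ (r + 1) := div_le_self (by positivity) hM1
          have e2 : A ^ (r + 1) / u ≤ A ^ (r + 1) := div_le_self (by positivity) hu1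
          have e3 : A ^ r ≤ A ^ (r + 1) := pow_le_pow_right₀ hA (by omega)
          have e4 : (0:ℝ) ≤ 2 ^ r - 1 := by linarith
          gcongr
      _ = _ := by ring

/-- gcd of the coefficients from `k` on -/
def G {n : ℕ} (z : Fin n → ℤ) (k : ℕ) : ℤ := (Finset.univ.filter (fun i : Fin n => k ≤ (i:ℕ))).gcd z

lemma G_dvd {n : ℕ} (z : Fin n → ℤ) {k : ℕ} {i : Fin n} (h : k ≤ (i:ℕ)) : G z k ∣ z i :=
  Finset.gcd_dvd (by simp [h])

lemma dvd_G {n : ℕ} (z : Fin n → ℤ) {k : ℕ} {c : ℤ} (h : ∀ i : Fin n, k ≤ (i:ℕ) → c ∣ z i) :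
    c ∣ G z k := by
  apply Finset.dvd_gcd
  intro i hi
  exact h i (Finset.mem_filter.mp hi).2

lemma G_dvd_succ {n : ℕ} (z : Fin n → ℤ) (k : ℕ) : G z k ∣ G z (k + 1) :=
  dvd_G z fun i hi => G_dvd z (by omega)

theorem lin_card_last {d H : ℕ} (z : Fin (d + 1) → ℤ) (hz : Finset.univ.gcd z = 1)
    (hlast : z (Fin.last d) ≠ 0) (hH : 1 ≤ H) :
    (2 * (H:ℝ)) * ((lin H z).card : ℝ) ≤
      (2 * (H:ℝ)) ^ (d + 1) / ((z (Fin.last d)).natAbs : ℝ) + 2 ^ d * (2 * (H:ℝ)) ^ d := by
  have hG0 : G z 0 = 1 := by unfold G; simpa using hz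
  have hGne : ∀ k ≤ d, G z k ≠ 0 := by
    intro k hk h0
    have h1 : G z k ∣ z (Fin.last d) := G_dvd z (by simpa using hk)
    rw [h0, zero_dvd_iff] at h1
    exact hlast h1
  have hGd : (G z d).natAbs = (z (Fin.last d)).natAbs := by
    apply Nat.dvd_antisymm
    · exact Int.natAbs_dvd_natAbs.mpr (G_dvd z (by simp))
    · apply Int.natAbs_dvd_natAbs.mpr
      apply dvd_G
      intro i hi
      have : i = Fin.last d := Fin.ext (by have := i.2; simp; omega)
      rw [this]
  have hGend : G z (d + 1) = 0 := by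
    unfold G
    have : (Finset.univ.filter (fun i : Fin (d + 1) => d + 1 ≤ (i:ℕ))) = ∅ := by
      ext i; simp only [Finset.mem_filter, Finset.mem_univ, true_and, Finset.notMem_empty,
        iff_false]; have := i.2; omega
    rw [this, Finset.gcd_empty]
  set v : ℕ → ℕ := fun k => (G z (k + 1) / G z k).natAbs with hv
  have hGmul : ∀ k, G z (k + 1) = G z k * (G z (k + 1) / G z k) := fun k =>
    (Int.mul_ediv_cancel' (G_dvd_succ z k)).symm
  have key := tree (d + 1) (lin H z) (fun k => 2 * H / v k + 1) ?_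
  · -- evaluate the product
    rw [Fin.prod_univ_castSucc] at key
    have hvd : v d = 0 := by simp [hv, hGend]
    simp only [Fin.val_castSucc, Fin.val_last, hvd, Nat.div_zero, zero_add, mul_one] at key
    have hv1 : ∀ k : Fin d, 1 ≤ v (k:ℕ) := by
      intro k
      have h1 := hGne ((k:ℕ) + 1) (by have := k.2; omega)
      rw [hGmul] at h1
      have h2 : G z ((k:ℕ) + 1) / G z (k:ℕ) ≠ 0 := right_ne_zero_of_mul h1
      exact Int.natAbs_pos.mpr h2
    have hprod : ∏ k : Fin d, ((v (k:ℕ) : ℕ) : ℝ) = ((z (Fin.last d)).natAbs : ℝ) := by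
      have h1 : ∀ r ≤ d, (∏ k ∈ Finset.range r, v k) * (G z 0).natAbs = (G z r).natAbs := by
        intro r
        induction r with
        | zero => intro _; simp
        | succ r ih =>
          intro hr
          rw [Finset.prod_range_succ, mul_right_comm, ih (by omega)]
          conv_rhs => rw [hGmul]
          rw [Int.natAbs_mul]
      have h2 := h1 d le_rfl
      rw [hG0, hGd] at h2
      simp only [Int.natAbs_one, mul_one] at h2
      rw [← h2, Finset.prod_range]
      push_cast; rfl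
    have hA : (1:ℝ) ≤ 2 * (H:ℝ) := by
      have : (1:ℝ) ≤ H := by exact_mod_cast hH
      linarith
    have h3 := prod_bound hA d (fun k : Fin d => v (k:ℕ)) hv1
    rw [hprod] at h3
    have h4 : ((lin H z).card : ℝ) ≤ ∏ k : Fin d, (2 * (H:ℝ) / v (k:ℕ) + 1) := by
      calc ((lin H z).card : ℝ) ≤ ((∏ k : Fin d, (2 * H / v (k:ℕ) + 1) : ℕ) : ℝ) := by
            exact_mod_cast key
        _ = ∏ k : Fin d, (((2 * H / v (k:ℕ) : ℕ) : ℝ) + 1) := by push_cast; rfl
        _ ≤ _ := by
            apply Finset.prod_le_prod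
            · intro i _; positivity
            · intro i _
              have : ((2 * H / v (i:ℕ) : ℕ) : ℝ) ≤ 2 * (H:ℝ) / v (i:ℕ) := by
                refine Nat.cast_div_le.trans ?_
                push_cast; exact le_rfl
              linarith
    calc (2 * (H:ℝ)) * ((lin H z).card : ℝ)
        ≤ (2 * (H:ℝ)) * ∏ k : Fin d, (2 * (H:ℝ) / v (k:ℕ) + 1) := by gcongr
      _ ≤ _ := h3
      _ ≤ _ := by
          have : (0:ℝ) ≤ (2 * (H:ℝ)) ^ d := by positivity
          have : (2 ^ d - 1) * (2 * (H:ℝ)) ^ d ≤ 2 ^ d * (2 * (H:ℝ)) ^ d := by nlinarith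
          linarith
  · intro k y hy
    refine card_class _ ?_ ?_
    · intro x hx
      obtain ⟨f, hf, rfl⟩ := Finset.mem_image.mp hx
      exact (mem_lin.mp (Finset.mem_filter.mp hf).1).1 k
    · intro x hx x' hx'
      obtain ⟨f, hf, rfl⟩ := Finset.mem_image.mp hx
      obtain ⟨f', hf', rfl⟩ := Finset.mem_image.mp hx'
      rw [Finset.mem_filter] at hf hf'
      have h1 := (mem_lin.mp hf.1).2
      have h2 := (mem_lin.mp hf'.1).2
      have h3 : ∑ i, z i * (f i - f' i) = 0 := by
        simp only [mul_sub, Finset.sum_sub_distrib, h1, h2, sub_zero]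
      have h4 : G z ((k:ℕ) + 1) ∣ z k * (f k - f' k) := by
        rw [← Finset.add_sum_erase _ _ (Finset.mem_univ k)] at h3
        have h5 : G z ((k:ℕ) + 1) ∣ ∑ i ∈ Finset.univ.erase k, z i * (f i - f' i) := by
          apply Finset.dvd_sum
          intro i hi
          have hne : i ≠ k := (Finset.mem_erase.mp hi).1
          rcases lt_or_gt_of_ne hne with hlt | hgt
          · rw [hf.2 i hlt, hf'.2 i hlt]; simp
          · exact Dvd.dvd.mul_right (G_dvd z hgt) _
        have h6 : z k * (f k - f' k) = -∑ i ∈ Finset.univ.erase k, z i * (f i - f' i) := by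
          linarith
        rw [h6]; exact (dvd_neg).mpr h5
      -- divide by G z k
      have hk : (k:ℕ) ≤ d := by have := k.2; omega
      have hg := hGne k hk
      obtain ⟨u, hu⟩ := G_dvd z (le_refl (k:ℕ))
      obtain ⟨v', hv'⟩ := G_dvd_succ z (k:ℕ)
      have hvv : G z ((k:ℕ) + 1) / G z (k:ℕ) = v' := by
        rw [hv', Int.mul_ediv_cancel_left _ hg]
      have hcop : IsCoprime u v' := by
        rw [Int.isCoprime_iff_gcd_eq_one]
        have h7 : G z (k:ℕ) * (Int.gcd u v' : ℤ) ∣ G z (k:ℕ) := by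
          apply dvd_G
          intro i hi
          rcases Nat.eq_or_lt_of_le hi with h8 | h8
          · have : i = k := Fin.ext h8.symm
            rw [this, hu]
            exact mul_dvd_mul_left _ (Int.gcd_dvd_left _ _)
          · have h9 : G z ((k:ℕ) + 1) ∣ z i := G_dvd z h8
            refine dvd_trans ?_ h9
            rw [hv']
            exact mul_dvd_mul_left _ (Int.gcd_dvd_right _ _)
        have h8 : (Int.gcd u v' : ℤ) ∣ 1 := by
          have : G z (k:ℕ) * (Int.gcd u v' : ℤ) ∣ G z (k:ℕ) * 1 := by rwa [mul_one]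
          exact (mul_dvd_mul_iff_left hg).mp this
        have := Int.natAbs_dvd_natAbs.mpr h8
        simpa using this
      rw [hu, hv', mul_assoc] at h4
      have h5 := (mul_dvd_mul_iff_left hg).mp h4
      have h6 : v' ∣ f k - f' k := hcop.symm.dvd_of_dvd_mul_left h5
      simp only [hv, hvv]
      exact Int.natAbs_dvd.mpr h6

theorem lin_card {d H : ℕ} (z : Fin (d + 1) → ℤ) (hz : Finset.univ.gcd z = 1)
    {i0 : Fin (d + 1)} (hi0 : z i0 ≠ 0) (hH : 1 ≤ H) :
    (2 * (H:ℝ)) * ((lin H z).card : ℝ) ≤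
      (2 * (H:ℝ)) ^ (d + 1) / ((z i0).natAbs : ℝ) + 2 ^ d * (2 * (H:ℝ)) ^ d := by
  set σ : Equiv.Perm (Fin (d + 1)) := Equiv.swap i0 (Fin.last d) with hσ
  have h1 : (lin H z).card = (lin H (fun i => z (σ i))).card := by
    apply Finset.card_bij (fun f _ => fun i => f (σ i))
    · intro f hf
      rw [mem_lin] at hf ⊢
      refine ⟨fun i => hf.1 _, ?_⟩
      rw [← hf.2]
      exact Equiv.sum_comp σ (fun i => z i * f i)
    · intro f _ f' _ hff
      funext i
      have := congrFun hff (σ.symm i)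
      simpa using this
    · intro f hf
      rw [mem_lin] at hf
      refine ⟨fun i => f (σ.symm i), ?_, ?_⟩
      · rw [mem_lin]
        refine ⟨fun i => hf.1 _, ?_⟩
        rw [← hf.2, ← Equiv.sum_comp σ (fun i => z i * f (σ.symm i))]
        apply Finset.sum_congr rfl
        intro i _
        rw [Equiv.symm_apply_apply]
      · funext i
        exact congrArg f (Equiv.symm_apply_apply σ i)
  have h2 : Finset.univ.gcd (fun i => z (σ i)) = 1 := by
    rw [← hz]
    apply dvd_antisymm_of_normalize_eq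
    · exact Finset.normalize_gcd
    · exact Finset.normalize_gcd
    · apply Finset.dvd_gcd
      intro i _
      have : (fun i => z (σ i)) (σ.symm i) = z i := by simp
      rw [← this]
      exact Finset.gcd_dvd (Finset.mem_univ _)
    · apply Finset.dvd_gcd
      intro i _
      exact Finset.gcd_dvd (Finset.mem_univ _)
  have h3 := lin_card_last (H := H) (fun i => z (σ i)) h2 (by simpa [hσ] using hi0) hH
  rw [h1]
  have h4 : z (σ (Fin.last d)) = z i0 := by simp [hσ]
  simp only [h4] at h3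
  exact h3

end

end Pool.Agent.W47.AM
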