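import Pool.Agent.W47.AM.PartF

/-! Splitting the bad pairs. -/

set_option autoImplicit false

namespace Pool.Agent.W47.AM

noncomputable section

open Finset Classical

/-- some rational point whose height does not increase -/
def Bad {d : ℕ} (w : Fin (d + 1) → ℤ × ℤ) : Prop :=
  ∃ a b : ℤ, IsCoprime a b ∧ ∃ q : ℤ × ℤ, IsCoprime q.1 q.2 ∧ nrm q ≤ nrm (a, b) ∧ Rel w a b q

/-- the same with the first coordinate dominating -/
def BadX {d : ℕ} (w : Fin (d + 1) → ℤ × ℤ) : Prop :=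
  ∃ a : ℕ, 1 ≤ a ∧ ∃ b : ℤ, |b| ≤ a ∧ IsCoprime (a:ℤ) b ∧
    ∃ q : ℤ × ℤ, IsCoprime q.1 q.2 ∧ nrm q ≤ a ∧ Rel w a b q

/-- exchange the variables -/
def rv {d : ℕ} (w : Fin (d + 1) → ℤ × ℤ) : Fin (d + 1) → ℤ × ℤ := fun i => w (Fin.rev i)

lemma rv_rv {d : ℕ} (w : Fin (d + 1) → ℤ × ℤ) : rv (rv w) = w := by
  funext i; simp [rv]

lemma rv_box {d H : ℕ} {w : Fin (d + 1) → ℤ × ℤ} (h : w ∈ boxw d H) : rv w ∈ boxw d H := by
  rw [mem_boxw] at h ⊢
  intro i
  exact h _

lemma rev_sum {R : Type*} [CommRing R] {d : ℕ} (c : Fin (d + 1) → R) (x y : R) :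
    ∑ i, c (Fin.rev i) * x ^ (i : ℕ) * y ^ (d - i) = ∑ i, c i * y ^ (i : ℕ) * x ^ (d - i) := by
  rw [← Equiv.sum_comp Fin.revPerm (fun i : Fin (d + 1) => c i * y ^ (i : ℕ) * x ^ (d - i))]
  apply Finset.sum_congr rfl
  intro i _
  simp only [Fin.revPerm_apply, Fin.val_rev]
  have h1 : d + 1 - ((i : ℕ) + 1) = d - i := by omega
  have h2 : d - (d - (i : ℕ)) = i := by have := i.2; omega
  rw [h1, h2]; ring

lemma rv_rel {d : ℕ} {w : Fin (d + 1) → ℤ × ℤ} {a b : ℤ} {q : ℤ × ℤ} (h : Rel w a b q) :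
    Rel (rv w) b a q := by
  unfold Rel at *
  rw [← h]
  exact rev_sum (fun i => L q (w i)) b a

lemma rv_noZero {d : ℕ} {w : Fin (d + 1) → ℤ × ℤ} (h : NoZero w) : NoZero (rv w) := by
  intro x y h1 h2
  have e1 : ∑ i, ((w i).1 : ℂ) * y ^ (i : ℕ) * x ^ (d - i) = 0 := by
    rw [← rev_sum (fun i => ((w i).1 : ℂ)) x y]; exact h1
  have e2 : ∑ i, ((w i).2 : ℂ) * y ^ (i : ℕ) * x ^ (d - i) = 0 := by
    rw [← rev_sum (fun i => ((w i).2 : ℂ)) x y]; exact h2
  have := h y x e1 e2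
  exact ⟨this.2, this.1⟩

lemma neg_rel {d : ℕ} {w : Fin (d + 1) → ℤ × ℤ} {a b : ℤ} {q : ℤ × ℤ} (h : Rel w a b q) :
    Rel w (-a) (-b) q := by
  unfold Rel at *
  have : ∑ i, L q (w i) * (-a) ^ (i : ℕ) * (-b) ^ (d - i) =
      (-1) ^ d * ∑ i, L q (w i) * a ^ (i : ℕ) * b ^ (d - i) := by
    rw [Finset.mul_sum]
    apply Finset.sum_congr rfl
    intro i _
    rw [neg_pow a, neg_pow b]
    have : (-1 : ℤ) ^ d = (-1) ^ (i : ℕ) * (-1) ^ (d - i) := by
      rw [← pow_add]; congr 1; have := i.2; omega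
    rw [this]; ring
  rw [this, h, mul_zero]

lemma badX_of {d : ℕ} {w : Fin (d + 1) → ℤ × ℤ} {a b : ℤ} (hab : IsCoprime a b)
    (hle : |b| ≤ |a|) {q : ℤ × ℤ} (hq : IsCoprime q.1 q.2) (hn : nrm q ≤ nrm (a, b))
    (hrel : Rel w a b q) : BadX w := by
  have ha0 : a ≠ 0 := by
    rintro rfl
    rw [abs_zero] at hle
    have : b = 0 := by
      have := abs_nonneg b
      exact abs_eq_zero.mp (le_antisymm hle this)
    subst this
    obtain ⟨x, y, hxy⟩ := hab
    simp at hxy
  have hnorm : nrm (a, b) = a.natAbs := by simp only [nrm]; exact max_eq_left (na hle)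
  rw [hnorm] at hn
  have ha1 : 1 ≤ a.natAbs := Int.natAbs_pos.mpr ha0
  rcases le_total 0 a with h | h
  · have e : ((a.natAbs : ℕ) : ℤ) = a := Int.natAbs_of_nonneg h
    refine ⟨a.natAbs, ha1, b, ?_, ?_, q, hq, hn, ?_⟩
    · rw [e]; rw [abs_of_nonneg h] at hle; exact hle
    · rw [e]; exact hab
    · rw [e]; exact hrel
  · have e : ((a.natAbs : ℕ) : ℤ) = -a := by omega
    refine ⟨a.natAbs, ha1, -b, ?_, ?_, q, hq, hn, ?_⟩
    · rw [e, abs_neg]; rw [abs_of_nonpos h] at hle; exact hle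
    · rw [e]; exact hab.neg_neg
    · rw [e]; exact neg_rel hrel

lemma bad_cases {d : ℕ} {w : Fin (d + 1) → ℤ × ℤ} (h : Bad w) : BadX w ∨ BadX (rv w) := by
  obtain ⟨a, b, hab, q, hq, hn, hrel⟩ := h
  rcases le_total |b| |a| with h1 | h1
  · exact Or.inl (badX_of hab h1 hq hn hrel)
  · refine Or.inr (badX_of hab.symm h1 hq ?_ (rv_rel hrel))
    refine hn.trans (le_of_eq ?_)
    simp [nrm, max_comm]

lemma bad_card {d H : ℕ} : ((boxw d H).filter (fun w => NoZero w ∧ Bad w)).card ≤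
    2 * ((boxw d H).filter (fun w => NoZero w ∧ BadX w)).card := by
  have hsub : (boxw d H).filter (fun w => NoZero w ∧ Bad w) ⊆
      (boxw d H).filter (fun w => NoZero w ∧ BadX w) ∪
      ((boxw d H).filter (fun w => NoZero w ∧ BadX w)).image rv := by
    intro w hw
    rw [Finset.mem_filter] at hw
    rw [Finset.mem_union]
    rcases bad_cases hw.2.2 with h | h
    · left; exact Finset.mem_filter.mpr ⟨hw.1, hw.2.1, h⟩
    · right
      exact Finset.mem_image.mpr ⟨rv w, Finset.mem_filter.mpr ⟨rv_box hw.1, rv_noZero hw.2.1, h⟩,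
        rv_rv w⟩
  refine (Finset.card_le_card hsub).trans ((Finset.card_union_le _ _).trans ?_)
  have := Finset.card_image_le (s := (boxw d H).filter (fun w => NoZero w ∧ BadX w)) (f := rv)
  omega

/-- pairs with vanishing top coefficients -/
lemma card_top {d H : ℕ} (hH : 1 ≤ H) :
    (((boxw d H).filter (fun w => w (Fin.last d) = 0)).card : ℝ) ≤ 9 ^ d * (H:ℝ) ^ (2 * d) := by
  have h1 : ((boxw d H).filter (fun w => w (Fin.last d) = 0)).card ≤
      (Fintype.piFinset fun _ : Fin d => bx H).card := by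
    refine Finset.card_le_card_of_injOn (fun w i => w (Fin.castSucc i)) ?_ ?_
    · intro w hw
      rw [Finset.mem_coe, Finset.mem_filter] at hw
      rw [Finset.mem_coe, Fintype.mem_piFinset]
      intro i
      exact mem_boxw.mp hw.1 _
    · intro w hw w' hw' hww
      rw [Finset.mem_coe, Finset.mem_filter] at hw hw'
      funext i
      rcases Fin.eq_castSucc_or_eq_last i with ⟨j, rfl⟩ | rfl
      · exact congrFun hww j
      · rw [hw.2, hw'.2]
  rw [Fintype.card_piFinset] at h1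
  simp only [card_bx, Finset.prod_const, Finset.card_univ, Fintype.card_fin] at h1
  have hH' : (1:ℝ) ≤ H := by exact_mod_cast hH
  calc (((boxw d H).filter (fun w => w (Fin.last d) = 0)).card : ℝ) ≤
        (((2 * H + 1) ^ 2) ^ d : ℕ) := by exact_mod_cast h1
    _ = ((2 * (H:ℝ) + 1) ^ 2) ^ d := by push_cast; rfl
    _ ≤ ((3 * (H:ℝ)) ^ 2) ^ d := by gcongr; linarith
    _ = _ := by rw [mul_pow, mul_pow, ← pow_mul (H:ℝ)]; norm_num

theorem badX_card {d H B0 Y : ℕ} (hd : 3 ≤ d) (hY : 24 * d ^ 2 * H ^ 3 ≤ Y * B0) :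
    ((boxw d H).filter (fun w => NoZero w ∧ BadX w)).card ≤
      ((boxw d H).filter (fun w => InC H B0 w)).card +
      ((boxw d H).filter (fun w => InD H B0 w ∧ w (Fin.last d) ≠ 0)).card +
      ((boxw d H).filter (fun w => w (Fin.last d) = 0)).card +
      ((boxw d H).filter (fun w => HasDual Y w)).card := by
  have hsub : (boxw d H).filter (fun w => NoZero w ∧ BadX w) ⊆
      (boxw d H).filter (fun w => InC H B0 w) ∪
      (boxw d H).filter (fun w => InD H B0 w ∧ w (Fin.last d) ≠ 0) ∪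
      (boxw d H).filter (fun w => w (Fin.last d) = 0) ∪
      (boxw d H).filter (fun w => HasDual Y w) := by
    intro w hw
    rw [Finset.mem_filter] at hw
    obtain ⟨hw, hnz, a, ha, b, hb, hab, q, hq, hqa, hrel⟩ := hw
    simp only [Finset.mem_union, Finset.mem_filter]
    by_cases hB : a ≤ B0
    · left
      by_cases hqH : nrm q ≤ 2 * H
      · left; left
        exact ⟨hw, a, ha, hB, b, hb, hab, q, hq, hqH, hqa, hrel⟩
      · by_cases hl : w (Fin.last d) = 0
        · right; exact ⟨hw, hl⟩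
        · left; right
          exact ⟨hw, ⟨a, ha, hB, b, hb, hab, q, hq, by omega, hqa, hrel⟩, hl⟩
    · right
      refine ⟨hw, dual hd hw hnz ha hb hab hq hqa ?_ hrel⟩
      refine hY.trans (Nat.mul_le_mul_left _ (by omega))
  refine (Finset.card_le_card hsub).trans ?_
  refine (Finset.card_union_le _ _).trans (Nat.add_le_add_right ?_ _)
  refine (Finset.card_union_le _ _).trans (Nat.add_le_add_right ?_ _)
  exact Finset.card_union_le _ _

theorem badX_card3 {H B0 Y : ℕ} (hY : 216 * H ^ 3 ≤ Y * B0) :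
    ((boxw 3 H).filter (fun w => NoZero w ∧ BadX w)).card ≤
      ((boxw 3 H).filter (fun w => InC H B0 w)).card +
      ((boxw 3 H).filter (fun w => InD H B0 w ∧ w (Fin.last 3) ≠ 0)).card +
      ((boxw 3 H).filter (fun w => w (Fin.last 3) = 0)).card +
      ((boxw 3 H).filter (fun w => HasDual3 H Y w)).card := by
  have hsub : (boxw 3 H).filter (fun w => NoZero w ∧ BadX w) ⊆
      (boxw 3 H).filter (fun w => InC H B0 w) ∪
      (boxw 3 H).filter (fun w => InD H B0 w ∧ w (Fin.last 3) ≠ 0) ∪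
      (boxw 3 H).filter (fun w => w (Fin.last 3) = 0) ∪
      (boxw 3 H).filter (fun w => HasDual3 H Y w) := by
    intro w hw
    rw [Finset.mem_filter] at hw
    obtain ⟨hw, hnz, a, ha, b, hb, hab, q, hq, hqa, hrel⟩ := hw
    simp only [Finset.mem_union, Finset.mem_filter]
    by_cases hB : a ≤ B0
    · left
      by_cases hqH : nrm q ≤ 2 * H
      · left; left
        exact ⟨hw, a, ha, hB, b, hb, hab, q, hq, hqH, hqa, hrel⟩
      · by_cases hl : w (Fin.last 3) = 0
        · right; exact ⟨hw, hl⟩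
        · left; right
          exact ⟨hw, ⟨a, ha, hB, b, hb, hab, q, hq, by omega, hqa, hrel⟩, hl⟩
    · right
      refine ⟨hw, dual3 hw hnz ha hb hab hq hqa ?_ hrel⟩
      refine hY.trans (Nat.mul_le_mul_left _ (by omega))
  refine (Finset.card_le_card hsub).trans ?_
  refine (Finset.card_union_le _ _).trans (Nat.add_le_add_right ?_ _)
  refine (Finset.card_union_le _ _).trans (Nat.add_le_add_right ?_ _)
  exact Finset.card_union_le _ _

end

end Pool.Agent.W47.AM
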