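import Pool.Agent.Helper112.Arith
import Pool.Agent.W47.AM.Split

/-! Choice of parameters. -/

set_option autoImplicit false

namespace Pool.Agent.W47.AM

noncomputable section

open Finset Classical

/-- the basic growth facts: `x = H^(1/400)` -/
theorem params : ∃ C : ℝ, 1 ≤ C ∧ ∀ H : ℕ, 1 ≤ H → ∃ x : ℝ, 1 ≤ x ∧ x ^ 400 = H ∧
    x = (H : ℝ) ^ (1 / 400 : ℝ) ∧ ∀ c : ℝ, 1 ≤ c →
      (∀ X : ℕ, (X : ℝ) ≤ c * x ^ 1600 → rho X ≤ C * c * x) ∧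
      ∃ D : ℕ, (D : ℝ) ≤ C * c * x ∧ ∀ n : ℕ, 0 < n → (n : ℝ) ≤ c * x ^ 1600 →
        n.divisors.card ≤ D := by
  obtain ⟨C1, hC1, hdiv⟩ := Pool.Agent.Helper112.divisor_bound (1 / 1600) (by norm_num)
  refine ⟨C1 + 3205, by linarith, ?_⟩
  intro H hH
  have hH' : (1:ℝ) ≤ H := by exact_mod_cast hH
  set x : ℝ := (H : ℝ) ^ (1 / 400 : ℝ) with hx
  have hx1 : 1 ≤ x := Real.one_le_rpow hH' (by norm_num)
  have hx0 : 0 < x := by linarith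
  have hxH : x ^ 400 = H := by
    rw [hx, ← Real.rpow_natCast, ← Real.rpow_mul (by positivity)]
    norm_num
  refine ⟨x, hx1, hxH, rfl, ?_⟩
  intro c hc
  have hlogx : Real.log x ≤ x := by
    have := Real.log_le_sub_one_of_pos hx0
    linarith
  have hlogc : Real.log c ≤ c := by
    have := Real.log_le_sub_one_of_pos (by linarith : 0 < c)
    linarith
  constructor
  · intro X hX
    rcases Nat.eq_zero_or_pos X with h0 | h0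
    · subst h0
      have : rho 0 ≤ 3 + 2 * Real.log ((0:ℕ):ℝ) := rho_le_log 0
      simp at this
      have : (3:ℝ) ≤ (C1 + 3205) * c * x := by
        have h1 : (1:ℝ) ≤ c * x := one_le_mul_of_one_le_of_one_le hc hx1
        nlinarith
      linarith
    · have hX1 : (0:ℝ) < X := by exact_mod_cast h0
      have h1 : Real.log X ≤ c + 1600 * x := by
        calc Real.log X ≤ Real.log (c * x ^ 1600) := Real.log_le_log hX1 hX
          _ = Real.log c + 1600 * Real.log x := by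
              rw [Real.log_mul (by linarith) (by positivity), Real.log_pow]; norm_num
          _ ≤ _ := by linarith
      have h2 := rho_le_log X
      have h3 : 3 + 2 * (c + 1600 * x) ≤ 3205 * (c * x) := by
        nlinarith [mul_le_mul hc hx1 (by norm_num) (by linarith : 0 ≤ c),
          mul_nonneg (sub_nonneg.mpr hc) (sub_nonneg.mpr hx1)]
      have h4 : 3205 * (c * x) ≤ (C1 + 3205) * c * x := by
        have : 0 ≤ C1 * (c * x) := by positivity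
        nlinarith
      linarith
  · refine ⟨⌊C1 * c * x⌋₊, ?_, ?_⟩
    · refine (Nat.floor_le (by positivity)).trans ?_
      have : 0 ≤ c * x := by positivity
      nlinarith
    · intro n hn hnc
      apply Nat.le_floor
      refine (hdiv n hn).trans ?_
      have h1 : (n:ℝ) ^ (1 / 1600 : ℝ) ≤ c * x := by
        calc (n:ℝ) ^ (1 / 1600 : ℝ) ≤ (c * x ^ 1600) ^ (1 / 1600 : ℝ) :=
              Real.rpow_le_rpow (by positivity) hnc (by norm_num)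
          _ = c ^ (1 / 1600 : ℝ) * x := by
              rw [Real.mul_rpow (by linarith) (by positivity), ← Real.rpow_natCast x,
                ← Real.rpow_mul hx0.le]
              norm_num
          _ ≤ c * x := by
              have : c ^ (1 / 1600 : ℝ) ≤ c ^ (1:ℝ) :=
                Real.rpow_le_rpow_of_exponent_le hc (by norm_num)
              rw [Real.rpow_one] at this
              gcongr
      calc C1 * (n:ℝ) ^ (1 / 1600 : ℝ) ≤ C1 * (c * x) := by gcongr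
        _ = _ := by ring

lemma ceil_bounds {t : ℝ} (ht : 1 ≤ t) : t ≤ ⌈t⌉₊ ∧ (⌈t⌉₊ : ℝ) ≤ 2 * t ∧ 1 ≤ ⌈t⌉₊ := by
  refine ⟨Nat.le_ceil t, ?_, ?_⟩
  · have := Nat.ceil_lt_add_one (by linarith : 0 ≤ t)
    linarith
  · exact Nat.one_le_ceil_iff.mpr (by linarith)

/-- degree at least four -/
theorem final4 {d : ℕ} (hd : 4 ≤ d) : ∃ C : ℝ, ∀ H : ℕ, 1 ≤ H →
    (((boxw d H).filter (fun w => NoZero w ∧ Bad w)).card : ℝ) ≤
      C * ((H : ℝ) ^ (1 / 400 : ℝ)) ^ (800 * d + 610) := by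
  obtain ⟨C1, hC1, hpar⟩ := params
  obtain ⟨e, rfl⟩ : ∃ e, d = e + 1 := ⟨d - 1, by omega⟩
  set c : ℝ := 10000 * ((e:ℝ) + 1) ^ 4 with hc
  have hc1 : 1 ≤ c := by
    have : (1:ℝ) ≤ ((e:ℝ) + 1) ^ 4 := one_le_pow₀ (by linarith [(Nat.cast_nonneg e : (0:ℝ) ≤ e)])
    linarith
  set C2 : ℝ := C1 * c with hC2
  have hC2p : 1 ≤ C2 := one_le_mul_of_one_le_of_one_le hC1 hc1
  refine ⟨2 * ((9 * (2 ^ (e + 1) * 6 ^ (e + 1 + 1) * 8 ^ (e + 1))) * (4 * C2 ^ 2 + C2 ^ 2) +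
    (9 * (2 * C2)) * (3 ^ e * (9 * 8 + 9 * 48 ^ 2 * 24 ^ (e - 2) * 2 + 9 * 4 * 4 ^ e * C2 ^ 3)) +
    9 ^ (e + 1) + ((e + 1 + 1) ^ 4 : ℕ) * (2 * (2 ^ (2 * (e + 1)) *
      ((99 * ((e:ℝ) + 1) ^ 2) ^ 2 * C2 ^ 2) + 4 ^ (e + 1) * 2 ^ (2 * (e + 1)) *
        (99 * ((e:ℝ) + 1) ^ 2) ^ 4))), ?_⟩
  intro H hH
  obtain ⟨x, hx1, hxH, hxdef, hrest⟩ := hpar H hH
  obtain ⟨hrho, D, hDle, hDdiv⟩ := hrest c hc1
  rw [← hxdef]
  have hx0 : 0 < x := by linarith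
  have hH' : (1:ℝ) ≤ H := by exact_mod_cast hH
  have he : (0:ℝ) ≤ e := Nat.cast_nonneg e
  set B0 := ⌈x ^ 900⌉₊ with hB0
  obtain ⟨hB1, hB2, hB3⟩ := ceil_bounds (one_le_pow₀ hx1 : 1 ≤ x ^ 900)
  rw [← hB0] at hB1 hB2 hB3
  set Y := ⌈24 * ((e:ℝ) + 1) ^ 2 * x ^ 300⌉₊ with hY
  have hY0 : 1 ≤ 24 * ((e:ℝ) + 1) ^ 2 * x ^ 300 := by
    have h1 : (1:ℝ) ≤ ((e:ℝ) + 1) ^ 2 := one_le_pow₀ (by linarith)
    have h2 : (1:ℝ) ≤ x ^ 300 := one_le_pow₀ hx1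
    nlinarith
  obtain ⟨hY1, hY2, hY3⟩ := ceil_bounds hY0
  rw [← hY] at hY1 hY2 hY3
  have hYB : 24 * (e + 1) ^ 2 * H ^ 3 ≤ Y * B0 := by
    have : (24 * ((e:ℝ) + 1) ^ 2 * (H:ℝ) ^ 3) ≤ (Y:ℝ) * B0 := by
      calc 24 * ((e:ℝ) + 1) ^ 2 * (H:ℝ) ^ 3 = (24 * ((e:ℝ) + 1) ^ 2 * x ^ 300) * x ^ 900 := by
            rw [← hxH]; ring
        _ ≤ _ := by gcongr
    exact_mod_cast this
  -- the four parts
  have hp1600 : ∀ k ≤ 1600, x ^ k ≤ x ^ 1600 := fun k hk => pow_le_pow_right₀ hx1 hk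
  have hce : (10000:ℝ) ≤ c := by
    have : (1:ℝ) ≤ ((e:ℝ) + 1) ^ 4 := one_le_pow₀ (by linarith)
    linarith
  have hPB : rho B0 ≤ C2 * x := by
    apply hrho
    calc (B0:ℝ) ≤ 2 * x ^ 900 := hB2
      _ ≤ c * x ^ 1600 := by
        have := hp1600 900 (by norm_num)
        gcongr; linarith
  have hPH : rho (2 * H) ≤ C2 * x := by
    apply hrho
    push_cast
    calc 2 * (H:ℝ) = 2 * x ^ 400 := by rw [hxH]
      _ ≤ c * x ^ 1600 := by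
        have := hp1600 400 (by norm_num)
        gcongr; linarith
  have hPY : rho Y ≤ C2 * x := by
    apply hrho
    calc (Y:ℝ) ≤ 2 * (24 * ((e:ℝ) + 1) ^ 2 * x ^ 300) := hY2
      _ = (48 * ((e:ℝ) + 1) ^ 2) * x ^ 300 := by ring
      _ ≤ c * x ^ 1600 := by
        have h1 := hp1600 300 (by norm_num)
        have h2 : 48 * ((e:ℝ) + 1) ^ 2 ≤ c := by
          have h3 : ((e:ℝ) + 1) ^ 2 ≤ ((e:ℝ) + 1) ^ 4 := pow_le_pow_right₀ (by linarith) (by norm_num)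
          rw [hc]; nlinarith
        gcongr
  have hD' : ∀ n, 0 < n → n ≤ 4 * B0 * H → n.divisors.card ≤ D := by
    intro n hn hn2
    apply hDdiv n hn
    calc (n:ℝ) ≤ 4 * B0 * H := by exact_mod_cast hn2
      _ ≤ 4 * (2 * x ^ 900) * x ^ 400 := by rw [hxH]; gcongr
      _ = 8 * x ^ 1300 := by ring
      _ ≤ c * x ^ 1600 := by
        have := hp1600 1300 (by norm_num)
        gcongr; linarith
  have hDx : (D:ℝ) ≤ C2 * x := hDle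
  set N := 800 * (e + 1) + 610 with hN
  have p1 : (((boxw (e + 1) H).filter (fun w => InC H B0 w)).card : ℝ) ≤
      (9 * (2 ^ (e + 1) * 6 ^ (e + 1 + 1) * 8 ^ (e + 1))) * (4 * C2 ^ 2 + C2 ^ 2) * x ^ N := by
    refine (partC (by omega) hH hPB).trans ?_
    rw [mul_assoc _ (4 * C2 ^ 2 + C2 ^ 2)]
    apply mul_le_mul_of_nonneg_left _ (by positivity)
    calc (B0:ℝ) ^ 2 * H ^ (e + 1 + 1) * (C2 * x) ^ 2 + (H:ℝ) ^ (2 * (e + 1) + 1) * (C2 * x) ^ 2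
        ≤ (2 * x ^ 900) ^ 2 * (x ^ 400) ^ (e + 1 + 1) * (C2 * x) ^ 2 +
          (x ^ 400) ^ (2 * (e + 1) + 1) * (C2 * x) ^ 2 := by rw [hxH]; gcongr
      _ = 4 * C2 ^ 2 * x ^ (400 * e + 2602) + C2 ^ 2 * x ^ (800 * e + 1202) := by ring
      _ ≤ 4 * C2 ^ 2 * x ^ N + C2 ^ 2 * x ^ N := by
          gcongr
          all_goals omega
      _ = _ := by ring
  have p2 : (((boxw (e + 1) H).filter
      (fun w => InD H B0 w ∧ w (Fin.last (e + 1)) ≠ 0)).card : ℝ) ≤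
      (9 * (2 * C2)) * (3 ^ e * (9 * 8 + 9 * 48 ^ 2 * 24 ^ (e - 2) * 2 + 9 * 4 * 4 ^ e * C2 ^ 3)) *
        x ^ N := by
    refine (partD (by omega) hH hB3 hPH hD').trans ?_
    calc 9 * (H:ℝ) ^ 2 * (2 * D) *
        (3 ^ e * (9 * (B0:ℝ) ^ 3 + 9 * 48 ^ 2 * 24 ^ (e - 2) * (H:ℝ) ^ (e + 2) * B0 +
          9 * (B0:ℝ) ^ 2 * (4 * (H:ℝ)) ^ e * (C2 * x) ^ 2 * D))
        ≤ 9 * (x ^ 400) ^ 2 * (2 * (C2 * x)) *
        (3 ^ e * (9 * (2 * x ^ 900) ^ 3 + 9 * 48 ^ 2 * 24 ^ (e - 2) * (x ^ 400) ^ (e + 2) *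
          (2 * x ^ 900) + 9 * (2 * x ^ 900) ^ 2 * (4 * x ^ 400) ^ e * (C2 * x) ^ 2 * (C2 * x))) := by
          rw [hxH]; gcongr
      _ = (9 * (2 * C2)) * (3 ^ e * (9 * 8 * x ^ 3501 +
          9 * 48 ^ 2 * 24 ^ (e - 2) * 2 * x ^ (400 * e + 2501) +
          9 * 4 * 4 ^ e * C2 ^ 3 * x ^ (400 * e + 2604))) := by
          rw [mul_pow 4 (x ^ 400) e]; ring
      _ ≤ (9 * (2 * C2)) * (3 ^ e * (9 * 8 * x ^ N +
          9 * 48 ^ 2 * 24 ^ (e - 2) * 2 * x ^ N +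
          9 * 4 * 4 ^ e * C2 ^ 3 * x ^ N)) := by
          gcongr
          all_goals omega
      _ = _ := by ring
  have p3 : (((boxw (e + 1) H).filter (fun w => w (Fin.last (e + 1)) = 0)).card : ℝ) ≤
      9 ^ (e + 1) * x ^ N := by
    refine (card_top hH).trans ?_
    rw [← hxH, ← pow_mul]
    gcongr
    all_goals omega
  have p4 : (((boxw (e + 1) H).filter (fun w => HasDual Y w)).card : ℝ) ≤
      ((e + 1 + 1) ^ 4 : ℕ) * (2 * (2 ^ (2 * (e + 1)) *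
      ((99 * ((e:ℝ) + 1) ^ 2) ^ 2 * C2 ^ 2) + 4 ^ (e + 1) * 2 ^ (2 * (e + 1)) *
        (99 * ((e:ℝ) + 1) ^ 2) ^ 4)) * x ^ N := by
    have h1 := hasDual_card (d := e + 1) (Y := Y) hH hPY
    have hY4 : 2 * (Y:ℝ) + 1 ≤ 99 * ((e:ℝ) + 1) ^ 2 * x ^ 300 := by
      have h2 : (1:ℝ) ≤ ((e:ℝ) + 1) ^ 2 := one_le_pow₀ (by linarith)
      have h3 : (1:ℝ) ≤ x ^ 300 := one_le_pow₀ hx1
      have h4 : (1:ℝ) ≤ ((e:ℝ) + 1) ^ 2 * x ^ 300 := one_le_mul_of_one_le_of_one_le h2 h3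
      linarith
    have h2 : (2 * (H:ℝ)) ^ 2 * (((boxw (e + 1) H).filter (fun w => HasDual Y w)).card : ℝ) ≤
        (2 * (H:ℝ)) ^ 2 * (((e + 1 + 1) ^ 4 : ℕ) * (2 * (2 ^ (2 * (e + 1)) *
      ((99 * ((e:ℝ) + 1) ^ 2) ^ 2 * C2 ^ 2) + 4 ^ (e + 1) * 2 ^ (2 * (e + 1)) *
        (99 * ((e:ℝ) + 1) ^ 2) ^ 4)) * x ^ N) := by
      refine h1.trans ?_
      calc ((e + 1 + 1) ^ 4 : ℕ) * (2 * ((2 * (H:ℝ)) ^ (2 * (e + 1) + 2) *
            ((2 * Y + 1) ^ 2 * (C2 * x) ^ 2) +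
            4 ^ (e + 1) * (2 * (H:ℝ)) ^ (2 * (e + 1)) * (2 * Y + 1) ^ 4))
          ≤ ((e + 1 + 1) ^ 4 : ℕ) * (2 * ((2 * x ^ 400) ^ (2 * (e + 1) + 2) *
            ((99 * ((e:ℝ) + 1) ^ 2 * x ^ 300) ^ 2 * (C2 * x) ^ 2) +
            4 ^ (e + 1) * (2 * x ^ 400) ^ (2 * (e + 1)) *
              (99 * ((e:ℝ) + 1) ^ 2 * x ^ 300) ^ 4)) := by
            rw [hxH]; gcongr
        _ = ((e + 1 + 1) ^ 4 : ℕ) * (2 * (2 ^ (2 * (e + 1) + 2) *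
            ((99 * ((e:ℝ) + 1) ^ 2) ^ 2 * C2 ^ 2) * x ^ (800 * e + 2202) +
            4 ^ (e + 1) * 2 ^ (2 * (e + 1)) * (99 * ((e:ℝ) + 1) ^ 2) ^ 4 *
              x ^ (800 * e + 2000))) := by
            rw [mul_pow 2 (x ^ 400), mul_pow 2 (x ^ 400)]; ring
        _ ≤ ((e + 1 + 1) ^ 4 : ℕ) * (2 * (2 ^ (2 * (e + 1) + 2) *
            ((99 * ((e:ℝ) + 1) ^ 2) ^ 2 * C2 ^ 2) * x ^ (800 + N) +
            4 ^ (e + 1) * 2 ^ (2 * (e + 1)) * (99 * ((e:ℝ) + 1) ^ 2) ^ 4 *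
              (4 * x ^ (800 + N)))) := by
            have h5 : x ^ (800 * e + 2000) ≤ 4 * x ^ (800 + N) := by
              have h6 : x ^ (800 * e + 2000) ≤ x ^ (800 + N) := pow_le_pow_right₀ hx1 (by omega)
              have h7 : 0 ≤ x ^ (800 + N) := by positivity
              linarith
            have h8 : x ^ (800 * e + 2202) ≤ x ^ (800 + N) := pow_le_pow_right₀ hx1 (by omega)
            gcongr
        _ = _ := by rw [← hxH]; ring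
    exact le_of_mul_le_mul_left h2 (by positivity)
  have hmain := badX_card (d := e + 1) (H := H) (B0 := B0) (Y := Y) (by omega)
    (by exact_mod_cast hYB)
  have hmain' : (((boxw (e + 1) H).filter (fun w => NoZero w ∧ BadX w)).card : ℝ) ≤
      (((boxw (e + 1) H).filter (fun w => InC H B0 w)).card : ℝ) +
      (((boxw (e + 1) H).filter (fun w => InD H B0 w ∧ w (Fin.last (e + 1)) ≠ 0)).card : ℝ) +
      (((boxw (e + 1) H).filter (fun w => w (Fin.last (e + 1)) = 0)).card : ℝ) +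
      (((boxw (e + 1) H).filter (fun w => HasDual Y w)).card : ℝ) := by exact_mod_cast hmain
  have hb := bad_card (d := e + 1) (H := H)
  have hb' : (((boxw (e + 1) H).filter (fun w => NoZero w ∧ Bad w)).card : ℝ) ≤
      2 * (((boxw (e + 1) H).filter (fun w => NoZero w ∧ BadX w)).card : ℝ) := by
    exact_mod_cast hb
  calc _ ≤ 2 * (((boxw (e + 1) H).filter (fun w => NoZero w ∧ BadX w)).card : ℝ) := hb'
    _ ≤ _ := by
      refine (mul_le_mul_of_nonneg_left (hmain'.trans (add_le_add (add_le_add (add_le_add p1 p2) p3)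
        p4)) (by norm_num)).trans (le_of_eq ?_)
      ring

/-- degree three -/
theorem final3 : ∃ C : ℝ, ∀ H : ℕ, 1 ≤ H →
    (((boxw 3 H).filter (fun w => NoZero w ∧ Bad w)).card : ℝ) ≤
      C * ((H : ℝ) ^ (1 / 400 : ℝ)) ^ 3166 := by
  obtain ⟨C1, hC1, hpar⟩ := params
  set c : ℝ := 1000000 with hc
  have hc1 : 1 ≤ c := by norm_num [hc]
  set C2 : ℝ := C1 * c with hC2
  have hC2p : 1 ≤ C2 := one_le_mul_of_one_le_of_one_le hC1 hc1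
  refine ⟨2 * ((9 * (2 ^ 3 * 6 ^ (3 + 1) * 8 ^ 3)) * (4 * C2 ^ 2 + C2 ^ 2) +
    (9 * (2 * C2)) * (3 ^ 2 * (9 * 8 + 9 * 48 ^ 2 * 24 ^ (2 - 2) * 2 + 9 * 4 * 4 ^ 2 * C2 ^ 3)) +
    9 ^ 3 + (2 * (2 ^ 6 * (25 * C2 ^ 2) + 64 * 2 ^ 4 * 5 ^ 4) +
      (4 * 900 ^ 3 + (24 * C2 + 900) ^ 2 + (C2 * 900 ^ 3 + 900 * C2 ^ 2 * 900 * 900 ^ 2)) *
      (2 * (2 ^ 6 + 64 * 2 ^ 4)))), ?_⟩
  intro H hH
  obtain ⟨x, hx1, hxH, hxdef, hrest⟩ := hpar H hH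
  obtain ⟨hrho, D, hDle, hDdiv⟩ := hrest c hc1
  rw [← hxdef]
  have hx0 : 0 < x := by linarith
  have hH' : (1:ℝ) ≤ H := by exact_mod_cast hH
  set B0 := ⌈x ^ 760⌉₊ with hB0
  obtain ⟨hB1, hB2, hB3⟩ := ceil_bounds (one_le_pow₀ hx1 : 1 ≤ x ^ 760)
  rw [← hB0] at hB1 hB2 hB3
  set Z := ⌈x ^ 380⌉₊ with hZ
  obtain ⟨hZ1, hZ2, hZ3⟩ := ceil_bounds (one_le_pow₀ hx1 : 1 ≤ x ^ 380)
  rw [← hZ] at hZ1 hZ2 hZ3
  set K := ⌈x ^ 267⌉₊ with hK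
  obtain ⟨hK1, hK2, hK3⟩ := ceil_bounds (one_le_pow₀ hx1 : 1 ≤ x ^ 267)
  rw [← hK] at hK1 hK2 hK3
  set Y := ⌈216 * x ^ 440⌉₊ with hY
  have hY0 : 1 ≤ 216 * x ^ 440 := by
    have h2 : (1:ℝ) ≤ x ^ 440 := one_le_pow₀ hx1
    linarith
  obtain ⟨hY1, hY2, hY3⟩ := ceil_bounds hY0
  rw [← hY] at hY1 hY2 hY3
  have hYB : 216 * H ^ 3 ≤ Y * B0 := by
    have : (216 * (H:ℝ) ^ 3) ≤ (Y:ℝ) * B0 := by
      calc 216 * (H:ℝ) ^ 3 = (216 * x ^ 440) * x ^ 760 := by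
            rw [← hxH]; ring
        _ ≤ _ := by gcongr
    exact_mod_cast this
  have hp1600 : ∀ k ≤ 1600, x ^ k ≤ x ^ 1600 := fun k hk => pow_le_pow_right₀ hx1 hk
  have hPB : rho B0 ≤ C2 * x := by
    apply hrho
    calc (B0:ℝ) ≤ 2 * x ^ 760 := hB2
      _ ≤ c * x ^ 1600 := by
        have := hp1600 760 (by norm_num)
        gcongr; norm_num [hc]
  have hPH : rho (2 * H) ≤ C2 * x := by
    apply hrho
    push_cast
    calc 2 * (H:ℝ) = 2 * x ^ 400 := by rw [hxH]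
      _ ≤ c * x ^ 1600 := by
        have := hp1600 400 (by norm_num)
        gcongr; norm_num [hc]
  have hPY : rho Y ≤ C2 * x := by
    apply hrho
    calc (Y:ℝ) ≤ 2 * (216 * x ^ 440) := hY2
      _ = 432 * x ^ 440 := by ring
      _ ≤ c * x ^ 1600 := by
        have h1 := hp1600 440 (by norm_num)
        gcongr; norm_num [hc]
  have hPZ : rho Z ≤ C2 * x := by
    apply hrho
    calc (Z:ℝ) ≤ 2 * x ^ 380 := hZ2
      _ ≤ c * x ^ 1600 := by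
        have h1 := hp1600 380 (by norm_num)
        gcongr; norm_num [hc]
  have hD' : ∀ n, 0 < n → n ≤ 4 * B0 * H → n.divisors.card ≤ D := by
    intro n hn hn2
    apply hDdiv n hn
    calc (n:ℝ) ≤ 4 * B0 * H := by exact_mod_cast hn2
      _ ≤ 4 * (2 * x ^ 760) * x ^ 400 := by rw [hxH]; gcongr
      _ = 8 * x ^ 1160 := by ring
      _ ≤ c * x ^ 1600 := by
        have := hp1600 1160 (by norm_num)
        gcongr; norm_num [hc]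
  have hD'' : ∀ n, 0 < n → n ≤ 2 * Y ^ 2 → n.divisors.card ≤ D := by
    intro n hn hn2
    apply hDdiv n hn
    calc (n:ℝ) ≤ 2 * (Y:ℝ) ^ 2 := by exact_mod_cast hn2
      _ ≤ 2 * (2 * (216 * x ^ 440)) ^ 2 := by gcongr
      _ = 373248 * x ^ 880 := by ring
      _ ≤ c * x ^ 1600 := by
        have := hp1600 880 (by norm_num)
        gcongr; norm_num [hc]
  have hDx : (D:ℝ) ≤ C2 * x := hDle
  set N := 3166 with hN
  have p1 : (((boxw 3 H).filter (fun w => InC H B0 w)).card : ℝ) ≤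
      (9 * (2 ^ 3 * 6 ^ (3 + 1) * 8 ^ 3)) * (4 * C2 ^ 2 + C2 ^ 2) * x ^ N := by
    refine (partC (by omega) hH hPB).trans ?_
    rw [mul_assoc _ (4 * C2 ^ 2 + C2 ^ 2)]
    apply mul_le_mul_of_nonneg_left _ (by positivity)
    calc (B0:ℝ) ^ 2 * H ^ (3 + 1) * (C2 * x) ^ 2 + (H:ℝ) ^ (2 * 3 + 1) * (C2 * x) ^ 2
        ≤ (2 * x ^ 760) ^ 2 * (x ^ 400) ^ (3 + 1) * (C2 * x) ^ 2 +
          (x ^ 400) ^ (2 * 3 + 1) * (C2 * x) ^ 2 := by rw [hxH]; gcongr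
      _ = 4 * C2 ^ 2 * x ^ 3122 + C2 ^ 2 * x ^ 2802 := by ring
      _ ≤ 4 * C2 ^ 2 * x ^ N + C2 ^ 2 * x ^ N := by
          gcongr
          all_goals omega
      _ = _ := by ring
  have p2 : (((boxw 3 H).filter
      (fun w => InD H B0 w ∧ w (Fin.last 3) ≠ 0)).card : ℝ) ≤
      (9 * (2 * C2)) * (3 ^ 2 * (9 * 8 + 9 * 48 ^ 2 * 24 ^ (2 - 2) * 2 + 9 * 4 * 4 ^ 2 * C2 ^ 3)) *
        x ^ N := by
    refine (partD (e := 2) (by omega) hH hB3 hPH hD').trans ?_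
    calc 9 * (H:ℝ) ^ 2 * (2 * D) *
        (3 ^ 2 * (9 * (B0:ℝ) ^ 3 + 9 * 48 ^ 2 * 24 ^ (2 - 2) * (H:ℝ) ^ (2 + 2) * B0 +
          9 * (B0:ℝ) ^ 2 * (4 * (H:ℝ)) ^ 2 * (C2 * x) ^ 2 * D))
        ≤ 9 * (x ^ 400) ^ 2 * (2 * (C2 * x)) *
        (3 ^ 2 * (9 * (2 * x ^ 760) ^ 3 + 9 * 48 ^ 2 * 24 ^ (2 - 2) * (x ^ 400) ^ (2 + 2) *
          (2 * x ^ 760) + 9 * (2 * x ^ 760) ^ 2 * (4 * x ^ 400) ^ 2 * (C2 * x) ^ 2 * (C2 * x))) := by
          rw [hxH]; gcongr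
      _ = (9 * (2 * C2)) * (3 ^ 2 * (9 * 8 * x ^ 3081 +
          9 * 48 ^ 2 * 24 ^ (2 - 2) * 2 * x ^ 3161 +
          9 * 4 * 4 ^ 2 * C2 ^ 3 * x ^ 3124)) := by ring
      _ ≤ (9 * (2 * C2)) * (3 ^ 2 * (9 * 8 * x ^ N +
          9 * 48 ^ 2 * 24 ^ (2 - 2) * 2 * x ^ N +
          9 * 4 * 4 ^ 2 * C2 ^ 3 * x ^ N)) := by
          gcongr
          all_goals omega
      _ = _ := by ring
  have p3 : (((boxw 3 H).filter (fun w => w (Fin.last 3) = 0)).card : ℝ) ≤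
      9 ^ 3 * x ^ N := by
    refine (card_top hH).trans ?_
    rw [← hxH, ← pow_mul]
    gcongr
    all_goals omega
  have p4 : (((boxw 3 H).filter (fun w => HasDual3 H Y w)).card : ℝ) ≤
      (2 * (2 ^ 6 * (25 * C2 ^ 2) + 64 * 2 ^ 4 * 5 ^ 4) +
      (4 * 900 ^ 3 + (24 * C2 + 900) ^ 2 + (C2 * 900 ^ 3 + 900 * C2 ^ 2 * 900 * 900 ^ 2)) *
      (2 * (2 ^ 6 + 64 * 2 ^ 4))) * x ^ N := by
    have h1 := hasDual3_card (H := H) hH hZ3 hK3 hPZ hPY hD''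
    have hpow : ∀ k l : ℕ, k ≤ l → x ^ k ≤ x ^ l := fun k l h => pow_le_pow_right₀ hx1 h
    have hY4 : 2 * (Y:ℝ) + 1 ≤ 900 * x ^ 440 := by
      have h3 : (1:ℝ) ≤ x ^ 440 := one_le_pow₀ hx1
      linarith
    have hY5 : 2 * (Y:ℝ) ≤ 900 * x ^ 440 := by linarith
    have hZ4 : 2 * (Z:ℝ) + 1 ≤ 5 * x ^ 380 := by
      have h3 : (1:ℝ) ≤ x ^ 380 := one_le_pow₀ hx1
      linarith
    have hK4 : 2 * (Y:ℝ) / K ≤ 900 * x ^ 173 := by
      rw [div_le_iff₀ (by positivity)]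
      calc 2 * (Y:ℝ) ≤ 900 * x ^ 440 := hY5
        _ = 900 * x ^ 173 * x ^ 267 := by ring
        _ ≤ _ := by gcongr
    have hZinv : ((Z:ℝ) ^ 2)⁻¹ ≤ (x ^ 760)⁻¹ := by
      apply inv_anti₀ (by positivity)
      calc x ^ 760 = (x ^ 380) ^ 2 := by ring
        _ ≤ _ := by gcongr
    -- the count of `YY`
    have hYY : (4 * (2 * (Y:ℝ) + 1) ^ 3 + (2 * (K * (6 * H)) * (C2 * x) + (2 * Y + 1)) ^ 2 +
      (D * (2 * (Y:ℝ) + 1) ^ 3 + (2 * Y / K) * D ^ 2 * (2 * Y) * (2 * Y + 1) ^ 2)) ≤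
      (4 * 900 ^ 3 + (24 * C2 + 900) ^ 2 + (C2 * 900 ^ 3 + 900 * C2 ^ 2 * 900 * 900 ^ 2)) *
        x ^ 1495 := by
      have e1 : 4 * (2 * (Y:ℝ) + 1) ^ 3 ≤ 4 * 900 ^ 3 * x ^ 1495 := by
        calc 4 * (2 * (Y:ℝ) + 1) ^ 3 ≤ 4 * (900 * x ^ 440) ^ 3 := by gcongr
          _ = 4 * 900 ^ 3 * x ^ 1320 := by ring
          _ ≤ _ := by
            have := hpow 1320 1495 (by norm_num)
            gcongr
      have e2 : (2 * (K * (6 * H)) * (C2 * x) + (2 * (Y:ℝ) + 1)) ^ 2 ≤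
          (24 * C2 + 900) ^ 2 * x ^ 1495 := by
        calc (2 * ((K:ℝ) * (6 * H)) * (C2 * x) + (2 * (Y:ℝ) + 1)) ^ 2
            ≤ (2 * ((2 * x ^ 267) * (6 * x ^ 400)) * (C2 * x) + 900 * x ^ 440) ^ 2 := by
              rw [hxH]; gcongr
          _ = (24 * C2 * x ^ 668 + 900 * x ^ 440) ^ 2 := by ring
          _ ≤ (24 * C2 * x ^ 668 + 900 * x ^ 668) ^ 2 := by
              have := hpow 440 668 (by norm_num)
              gcongr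
          _ = (24 * C2 + 900) ^ 2 * x ^ 1336 := by ring
          _ ≤ _ := by
              have := hpow 1336 1495 (by norm_num)
              gcongr
      have e3 : D * (2 * (Y:ℝ) + 1) ^ 3 ≤ C2 * 900 ^ 3 * x ^ 1495 := by
        calc D * (2 * (Y:ℝ) + 1) ^ 3 ≤ (C2 * x) * (900 * x ^ 440) ^ 3 := by gcongr
          _ = C2 * 900 ^ 3 * x ^ 1321 := by ring
          _ ≤ _ := by
            have := hpow 1321 1495 (by norm_num)
            gcongr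
      have e4 : (2 * (Y:ℝ) / K) * D ^ 2 * (2 * Y) * (2 * Y + 1) ^ 2 ≤
          900 * C2 ^ 2 * 900 * 900 ^ 2 * x ^ 1495 := by
        calc (2 * (Y:ℝ) / K) * D ^ 2 * (2 * Y) * (2 * Y + 1) ^ 2
            ≤ (900 * x ^ 173) * (C2 * x) ^ 2 * (900 * x ^ 440) * (900 * x ^ 440) ^ 2 := by
              gcongr
          _ = _ := by ring
      calc _ ≤ 4 * 900 ^ 3 * x ^ 1495 + (24 * C2 + 900) ^ 2 * x ^ 1495 +
            (C2 * 900 ^ 3 * x ^ 1495 + 900 * C2 ^ 2 * 900 * 900 ^ 2 * x ^ 1495) := by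
            gcongr
        _ = _ := by ring
    have h2 : (2 * (H:ℝ)) ^ 2 * (((boxw 3 H).filter (fun w => HasDual3 H Y w)).card : ℝ) ≤
        (2 * (H:ℝ)) ^ 2 * ((2 * (2 ^ 6 * (25 * C2 ^ 2) + 64 * 2 ^ 4 * 5 ^ 4) +
      (4 * 900 ^ 3 + (24 * C2 + 900) ^ 2 + (C2 * 900 ^ 3 + 900 * C2 ^ 2 * 900 * 900 ^ 2)) *
      (2 * (2 ^ 6 + 64 * 2 ^ 4))) * x ^ N) := by
      refine h1.trans ?_
      have f1 : 2 * ((2 * (H:ℝ)) ^ 8 * ((2 * Z + 1) ^ 2 * (C2 * x) ^ 2) +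
          64 * (2 * (H:ℝ)) ^ 6 * (2 * Z + 1) ^ 4) ≤
          (2 * (H:ℝ)) ^ 2 * ((2 * (2 ^ 6 * (25 * C2 ^ 2) + 64 * 2 ^ 4 * 5 ^ 4)) * x ^ N) := by
        calc 2 * ((2 * (H:ℝ)) ^ 8 * ((2 * Z + 1) ^ 2 * (C2 * x) ^ 2) +
          64 * (2 * (H:ℝ)) ^ 6 * (2 * Z + 1) ^ 4)
            ≤ 2 * ((2 * x ^ 400) ^ 8 * ((5 * x ^ 380) ^ 2 * (C2 * x) ^ 2) +
          64 * (2 * x ^ 400) ^ 6 * (5 * x ^ 380) ^ 4) := by rw [hxH]; gcongr
          _ = 2 * (2 ^ 8 * (25 * C2 ^ 2) * x ^ 3962 + 64 * 2 ^ 6 * 5 ^ 4 * x ^ 3920) := by ring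
          _ ≤ 2 * (2 ^ 8 * (25 * C2 ^ 2) * x ^ 3966 + 64 * 2 ^ 6 * 5 ^ 4 * x ^ 3966) := by
              have := hpow 3962 3966 (by norm_num)
              have := hpow 3920 3966 (by norm_num)
              gcongr
          _ = _ := by rw [← hxH, hN]; ring
      have f2 : 2 * ((2 * (H:ℝ)) ^ 8 * ((Z : ℝ) ^ 2)⁻¹ + 64 * (2 * (H:ℝ)) ^ 6) ≤
          (2 * (H:ℝ)) ^ 2 * ((2 * (2 ^ 6 + 64 * 2 ^ 4)) * x ^ 1640) := by
        calc 2 * ((2 * (H:ℝ)) ^ 8 * ((Z : ℝ) ^ 2)⁻¹ + 64 * (2 * (H:ℝ)) ^ 6)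
            ≤ 2 * ((2 * x ^ 400) ^ 8 * (x ^ 760)⁻¹ + 64 * (2 * x ^ 400) ^ 6) := by
              rw [hxH]; gcongr
          _ = 2 * (2 ^ 8 * x ^ 2440 + 64 * 2 ^ 6 * x ^ 2400) := by
              have : (2 * x ^ 400) ^ 8 * (x ^ 760)⁻¹ = 2 ^ 8 * x ^ 2440 := by
                rw [← div_eq_mul_inv, div_eq_iff (by positivity)]; ring
              rw [this]; ring
          _ ≤ 2 * (2 ^ 8 * x ^ 2440 + 64 * 2 ^ 6 * x ^ 2440) := by
              have := hpow 2400 2440 (by norm_num)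
              gcongr
          _ = _ := by rw [← hxH]; ring
      calc _ ≤ (2 * (H:ℝ)) ^ 2 * ((2 * (2 ^ 6 * (25 * C2 ^ 2) + 64 * 2 ^ 4 * 5 ^ 4)) * x ^ N) +
            ((4 * 900 ^ 3 + (24 * C2 + 900) ^ 2 +
              (C2 * 900 ^ 3 + 900 * C2 ^ 2 * 900 * 900 ^ 2)) * x ^ 1495) *
            ((2 * (H:ℝ)) ^ 2 * ((2 * (2 ^ 6 + 64 * 2 ^ 4)) * x ^ 1640)) := by
            refine add_le_add f1 (mul_le_mul hYY f2 (by positivity) (by positivity))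
        _ = (2 * (H:ℝ)) ^ 2 * ((2 * (2 ^ 6 * (25 * C2 ^ 2) + 64 * 2 ^ 4 * 5 ^ 4)) * x ^ N) +
            (2 * (H:ℝ)) ^ 2 * ((4 * 900 ^ 3 + (24 * C2 + 900) ^ 2 +
              (C2 * 900 ^ 3 + 900 * C2 ^ 2 * 900 * 900 ^ 2)) *
              (2 * (2 ^ 6 + 64 * 2 ^ 4))) * x ^ 3135 := by ring
        _ ≤ (2 * (H:ℝ)) ^ 2 * ((2 * (2 ^ 6 * (25 * C2 ^ 2) + 64 * 2 ^ 4 * 5 ^ 4)) * x ^ N) +
            (2 * (H:ℝ)) ^ 2 * ((4 * 900 ^ 3 + (24 * C2 + 900) ^ 2 +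
              (C2 * 900 ^ 3 + 900 * C2 ^ 2 * 900 * 900 ^ 2)) *
              (2 * (2 ^ 6 + 64 * 2 ^ 4))) * x ^ N := by
            have := hpow 3135 N (by norm_num [hN])
            gcongr
        _ = _ := by ring
    exact le_of_mul_le_mul_left h2 (by positivity)
  have hmain := badX_card3 (H := H) (B0 := B0) (Y := Y) hYB
  have hmain' : (((boxw 3 H).filter (fun w => NoZero w ∧ BadX w)).card : ℝ) ≤
      (((boxw 3 H).filter (fun w => InC H B0 w)).card : ℝ) +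
      (((boxw 3 H).filter (fun w => InD H B0 w ∧ w (Fin.last 3) ≠ 0)).card : ℝ) +
      (((boxw 3 H).filter (fun w => w (Fin.last 3) = 0)).card : ℝ) +
      (((boxw 3 H).filter (fun w => HasDual3 H Y w)).card : ℝ) := by exact_mod_cast hmain
  have hb := bad_card (d := 3) (H := H)
  have hb' : (((boxw 3 H).filter (fun w => NoZero w ∧ Bad w)).card : ℝ) ≤
      2 * (((boxw 3 H).filter (fun w => NoZero w ∧ BadX w)).card : ℝ) := by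
    exact_mod_cast hb
  calc _ ≤ 2 * (((boxw 3 H).filter (fun w => NoZero w ∧ BadX w)).card : ℝ) := hb'
    _ ≤ _ := by
      refine (mul_le_mul_of_nonneg_left (hmain'.trans (add_le_add (add_le_add (add_le_add p1 p2) p3)
        p4)) (by norm_num)).trans (le_of_eq ?_)
      ring

/-- every degree at least three -/
theorem final {d : ℕ} (hd : 3 ≤ d) : ∃ C : ℝ, ∀ H : ℕ, 1 ≤ H →
    (((boxw d H).filter (fun w => NoZero w ∧ Bad w)).card : ℝ) ≤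
      C * (H : ℝ) ^ ((2 * d + 2 : ℝ) - 1 / 12) := by
  have key : ∃ C : ℝ, ∃ N : ℕ, (N:ℝ) / 400 ≤ (2 * d + 2 : ℝ) - 1 / 12 ∧ ∀ H : ℕ, 1 ≤ H →
    (((boxw d H).filter (fun w => NoZero w ∧ Bad w)).card : ℝ) ≤
      C * ((H : ℝ) ^ (1 / 400 : ℝ)) ^ N := by
    rcases Nat.eq_or_lt_of_le hd with h | h
    · subst h
      obtain ⟨C, hC⟩ := final3
      exact ⟨C, 3166, by norm_num, hC⟩
    · obtain ⟨C, hC⟩ := final4 (d := d) (by omega)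
      refine ⟨C, 800 * d + 610, ?_, hC⟩
      push_cast
      linarith
  obtain ⟨C, N, hN, hC⟩ := key
  refine ⟨|C|, fun H hH => (hC H hH).trans ?_⟩
  have hH' : (1:ℝ) ≤ H := by exact_mod_cast hH
  have h1 : ((H : ℝ) ^ (1 / 400 : ℝ)) ^ N ≤ (H : ℝ) ^ ((2 * d + 2 : ℝ) - 1 / 12) := by
    rw [← Real.rpow_natCast, ← Real.rpow_mul (by positivity)]
    apply Real.rpow_le_rpow_of_exponent_le hH'
    linarith
  calc C * ((H : ℝ) ^ (1 / 400 : ℝ)) ^ N ≤ |C| * ((H : ℝ) ^ (1 / 400 : ℝ)) ^ N := by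
        gcongr; exact le_abs_self C
    _ ≤ _ := by gcongr

end

end Pool.Agent.W47.AM
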