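import Pool.Agent.W47.AM.Orbit
import Pool.Agent.W47.AM.Params

/-! Many primitive pairs of forms without common zeros. -/

set_option autoImplicit false

namespace Pool.Agent.W47.AM

noncomputable section

open Finset Classical

/-- The rational maps of degree `d` over `ℚ` and height at most `H`: pairs of binary forms of degree
`d` with integral coefficients of absolute value at most `H`, without common factor of all the
coefficients and without common zero in `ℂ²` except `0`. (Every map corresponds to two pairs.) -/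
def maps (d H : ℕ) : Set ((Fin (d + 1) → ℤ) × (Fin (d + 1) → ℤ)) :=
  {φ | (∀ i, |φ.1 i| ≤ H ∧ |φ.2 i| ≤ H) ∧
    (∀ e : ℤ, (∀ i, e ∣ φ.1 i ∧ e ∣ φ.2 i) → IsUnit e) ∧ NoCommonZero φ}

lemma maps_finite (d H : ℕ) : (maps d H).Finite := by
  have h : maps d H ⊆ (((Fintype.piFinset fun _ : Fin (d + 1) => Iv H) ×ˢ
      (Fintype.piFinset fun _ : Fin (d + 1) => Iv H) : Finset _) : Set _) := by
    intro φ hφ
    rw [Finset.coe_product]
    refine ⟨?_, ?_⟩
    · rw [Finset.mem_coe, Fintype.mem_piFinset]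
      exact fun i => mem_Iv.mpr (hφ.1 i).1
    · rw [Finset.mem_coe, Fintype.mem_piFinset]
      exact fun i => mem_Iv.mpr (hφ.1 i).2
  exact (Finset.finite_toSet _).subset h

/-- the half-open interval -/
def Ih (H : ℕ) : Finset ℕ := Finset.Ioc (H / 2) H

lemma card_Ih (H : ℕ) : (Ih H).card = H - H / 2 := by simp [Ih]

lemma card_mult (H k : ℕ) (hk : 1 ≤ k) :
    (((Ih H).filter (fun u => k ∣ u)).card : ℝ) ≤ ((Ih H).card : ℝ) / k + 1 := by
  have hsub : (Ih H).filter (fun u => k ∣ u) =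
      (Finset.Ioc 0 H).filter (fun u => k ∣ u) \ (Finset.Ioc 0 (H / 2)).filter (fun u => k ∣ u) := by
    ext u
    simp only [Ih, Finset.mem_filter, Finset.mem_sdiff, Finset.mem_Ioc]
    constructor
    · rintro ⟨⟨h1, h2⟩, h3⟩
      exact ⟨⟨⟨by omega, h2⟩, h3⟩, fun h => by omega⟩
    · rintro ⟨⟨⟨h1, h2⟩, h3⟩, h4⟩
      refine ⟨⟨?_, h2⟩, h3⟩
      by_contra h5
      exact h4 ⟨⟨h1, by omega⟩, h3⟩
  have hss : (Finset.Ioc 0 (H / 2)).filter (fun u => k ∣ u) ⊆
      (Finset.Ioc 0 H).filter (fun u => k ∣ u) := by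
    apply Finset.filter_subset_filter
    apply Finset.Ioc_subset_Ioc_right
    omega
  rw [hsub, Finset.card_sdiff_of_subset hss, Nat.Ioc_filter_dvd_card_eq_div,
    Nat.Ioc_filter_dvd_card_eq_div, card_Ih]
  have hk' : (0:ℝ) < k := by exact_mod_cast hk
  have h1 : H / 2 / k ≤ H / k := Nat.div_le_div_right (by omega)
  rw [Nat.cast_sub h1, Nat.cast_sub (by omega : H / 2 ≤ H)]
  have h2 : ((H / k : ℕ) : ℝ) ≤ (H:ℝ) / k := by
    exact Nat.cast_div_le
  have h3 : ((H / 2 : ℕ) : ℝ) / k < ((H / 2 / k : ℕ) : ℝ) + 1 := by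
    rw [div_lt_iff₀ hk']
    have := Nat.lt_div_mul_add (a := H / 2) (b := k) hk
    have h4 : (H / 2 : ℕ) < (H / 2 / k + 1) * k := by rw [add_mul, one_mul]; exact this
    exact_mod_cast h4
  rw [sub_div]
  linarith

lemma sum_sq (n : ℕ) (hn : 2 ≤ n) : ∑ k ∈ Finset.Icc 2 n, ((k:ℝ) ^ 2)⁻¹ ≤ 3 / 4 - (n:ℝ)⁻¹ := by
  induction n, hn using Nat.le_induction with
  | base => norm_num
  | succ n hn ih =>
    rw [Finset.sum_Icc_succ_top (by omega)]
    have hn' : (0:ℝ) < n := by positivity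
    have h1 : (((n + 1 : ℕ) : ℝ) ^ 2)⁻¹ ≤ (n:ℝ)⁻¹ - ((n + 1 : ℕ) : ℝ)⁻¹ := by
      push_cast
      rw [inv_sub_inv hn'.ne' (by positivity), inv_eq_one_div, div_le_div_iff₀ (by positivity)
        (by positivity)]
      nlinarith
    linarith

/-- many coprime pairs -/
lemma coprime_pairs (H : ℕ) (hH : 40000 ≤ H) :
    (H:ℝ) ^ 2 / 64 ≤ (((Ih H ×ˢ Ih H).filter (fun p => Nat.Coprime p.1 p.2)).card : ℝ) := by
  set N : ℝ := ((Ih H).card : ℝ) with hN
  have hNle : N ≤ H := by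
    rw [hN, card_Ih]; exact_mod_cast Nat.sub_le _ _
  have hNge : (H:ℝ) / 2 ≤ N := by
    rw [hN, card_Ih, Nat.cast_sub (by omega)]
    have : ((H / 2 : ℕ) : ℝ) ≤ (H:ℝ) / 2 := Nat.cast_div_le
    linarith
  have hcover : (Ih H ×ˢ Ih H) ⊆ (Ih H ×ˢ Ih H).filter (fun p => Nat.Coprime p.1 p.2) ∪
      (Finset.Icc 2 H).biUnion fun k =>
        (Ih H).filter (fun u => k ∣ u) ×ˢ (Ih H).filter (fun u => k ∣ u) := by
    intro p hp
    rw [Finset.mem_union]
    by_cases hc : Nat.Coprime p.1 p.2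
    · left; exact Finset.mem_filter.mpr ⟨hp, hc⟩
    · right
      rw [Finset.mem_product] at hp
      have hp1 := hp.1
      rw [Ih, Finset.mem_Ioc] at hp1
      rw [Finset.mem_biUnion]
      have hg0 : 0 < Nat.gcd p.1 p.2 := Nat.gcd_pos_of_pos_left _ (by omega)
      have hg1 : Nat.gcd p.1 p.2 ≠ 1 := hc
      have hg2 : Nat.gcd p.1 p.2 ≤ p.1 := Nat.le_of_dvd (by omega) (Nat.gcd_dvd_left _ _)
      refine ⟨Nat.gcd p.1 p.2, Finset.mem_Icc.mpr ⟨by omega, by omega⟩, ?_⟩
      rw [Finset.mem_product, Finset.mem_filter, Finset.mem_filter]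
      exact ⟨⟨hp.1, Nat.gcd_dvd_left _ _⟩, ⟨hp.2, Nat.gcd_dvd_right _ _⟩⟩
  have h1 : N ^ 2 ≤ (((Ih H ×ˢ Ih H).filter (fun p => Nat.Coprime p.1 p.2)).card : ℝ) +
      ∑ k ∈ Finset.Icc 2 H, (N / k + 1) ^ 2 := by
    have h2 : (Ih H ×ˢ Ih H).card ≤ ((Ih H ×ˢ Ih H).filter (fun p => Nat.Coprime p.1 p.2)).card +
        ∑ k ∈ Finset.Icc 2 H, ((Ih H).filter (fun u => k ∣ u)).card *
          ((Ih H).filter (fun u => k ∣ u)).card := by
      refine (Finset.card_le_card hcover).trans ((Finset.card_union_le _ _).trans ?_)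
      apply Nat.add_le_add_left
      refine Finset.card_biUnion_le.trans (le_of_eq ?_)
      apply Finset.sum_congr rfl
      intro k _
      rw [Finset.card_product]
    have h3 : N ^ 2 ≤ (((Ih H ×ˢ Ih H).filter (fun p => Nat.Coprime p.1 p.2)).card : ℝ) +
        ∑ k ∈ Finset.Icc 2 H, (((Ih H).filter (fun u => k ∣ u)).card : ℝ) *
          (((Ih H).filter (fun u => k ∣ u)).card : ℝ) := by
      rw [Finset.card_product] at h2
      rw [hN, sq]
      exact_mod_cast h2
    refine h3.trans ?_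
    gcongr with k hk
    rw [sq]
    have := card_mult H k (by have := Finset.mem_Icc.mp hk; omega)
    gcongr
  have h2 : ∑ k ∈ Finset.Icc 2 H, (N / k + 1) ^ 2 ≤
      N ^ 2 * (3 / 4) + 2 * N * (1 + Real.log H) + H := by
    have e1 : ∀ k ∈ Finset.Icc 2 H, (N / k + 1) ^ 2 =
        N ^ 2 * ((k:ℝ) ^ 2)⁻¹ + 2 * N * (k:ℝ)⁻¹ + 1 := by
      intro k hk
      have : (k:ℝ) ≠ 0 := by
        have := (Finset.mem_Icc.mp hk).1
        positivity
      field_simp
      ring
    rw [Finset.sum_congr rfl e1, Finset.sum_add_distrib, Finset.sum_add_distrib, ← Finset.mul_sum,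
      ← Finset.mul_sum]
    have e2 := sum_sq H (by omega)
    have e3 : ∑ k ∈ Finset.Icc 2 H, (k:ℝ)⁻¹ ≤ 1 + Real.log H := by
      have h4 := harmonic_le_one_add_log H
      rw [harmonic_eq_sum_Icc] at h4
      push_cast at h4
      refine le_trans ?_ h4
      apply Finset.sum_le_sum_of_subset_of_nonneg
      · apply Finset.Icc_subset_Icc_left; norm_num
      · intro i _ _; positivity
    have e4 : ∑ k ∈ Finset.Icc 2 H, (1:ℝ) ≤ H := by
      rw [Finset.sum_const, Nat.card_Icc, nsmul_eq_mul, mul_one]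
      exact_mod_cast (by omega : H + 1 - 2 ≤ H)
    have e5 : (0:ℝ) ≤ (H:ℝ)⁻¹ := by positivity
    have hN0 : 0 ≤ N := by rw [hN]; positivity
    have e6 : N ^ 2 * ∑ k ∈ Finset.Icc 2 H, ((k:ℝ) ^ 2)⁻¹ ≤ N ^ 2 * (3 / 4) := by
      apply mul_le_mul_of_nonneg_left _ (by positivity)
      linarith
    have e7 : 2 * N * ∑ k ∈ Finset.Icc 2 H, (k:ℝ)⁻¹ ≤ 2 * N * (1 + Real.log H) := by
      apply mul_le_mul_of_nonneg_left e3 (by positivity)
    linarith
  -- the logarithm is small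
  have hH' : (40000:ℝ) ≤ H := by exact_mod_cast hH
  have hlog : Real.log H ≤ H / 100 - 1 := by
    set t := Real.sqrt H with ht
    have ht2 : t ^ 2 = H := Real.sq_sqrt (by positivity)
    have ht0 : 200 ≤ t := by
      rw [ht]
      apply Real.le_sqrt_of_sq_le
      linarith
    have : Real.log H = 2 * Real.log t := by
      rw [← ht2, Real.log_pow]; norm_num
    rw [this]
    have h3 := Real.log_le_sub_one_of_pos (by linarith : 0 < t)
    nlinarith
  have hN0 : 0 ≤ N := by rw [hN]; positivity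
  nlinarith

/-- dominant extreme coefficients exclude common zeros -/
lemma noCommonZero_of_dom {d : ℕ} (φ : (Fin (d + 1) → ℤ) × (Fin (d + 1) → ℤ))
    (h1 : ∑ i : Fin d, |φ.1 (Fin.castSucc i)| < |φ.1 (Fin.last d)|)
    (h2 : ∑ i : Fin d, |φ.2 (Fin.succ i)| < |φ.2 0|) : NoCommonZero φ := by
  rintro ⟨x, y⟩ h0
  have e1 : form φ.1 (x, y) = 0 := congrArg Prod.fst h0
  have e2 : form φ.2 (x, y) = 0 := congrArg Prod.snd h0
  rcases le_total ‖y‖ ‖x‖ with hxy | hxy
  · by_cases hx : x = 0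
    · subst hx
      have : y = 0 := by simpa using hxy
      rw [this]; rfl
    · exfalso
      have hx' : 0 < ‖x‖ := norm_pos_iff.mpr hx
      unfold form at e1
      rw [Fin.sum_univ_castSucc] at e1
      simp only [Fin.val_castSucc, Fin.val_last, Nat.sub_self, pow_zero, mul_one] at e1
      have h3 : ‖(φ.1 (Fin.last d) : ℂ) * x ^ d‖ ≤
          (∑ i : Fin d, |(φ.1 (Fin.castSucc i) : ℝ)|) * ‖x‖ ^ d := by
        have h4 : (φ.1 (Fin.last d) : ℂ) * x ^ d =
            -∑ i : Fin d, (φ.1 (Fin.castSucc i) : ℂ) * x ^ (i : ℕ) * y ^ (d - i) := by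
          rw [eq_neg_iff_add_eq_zero, add_comm]; exact e1
        rw [h4, norm_neg, Finset.sum_mul]
        refine (norm_sum_le _ _).trans ?_
        apply Finset.sum_le_sum
        intro i _
        rw [norm_mul, norm_mul, norm_pow, norm_pow, Complex.norm_intCast, mul_assoc]
        apply mul_le_mul_of_nonneg_left _ (abs_nonneg _)
        calc ‖x‖ ^ (i : ℕ) * ‖y‖ ^ (d - i) ≤ ‖x‖ ^ (i : ℕ) * ‖x‖ ^ (d - i) := by gcongr
          _ = ‖x‖ ^ d := by rw [← pow_add]; congr 1; have := i.2; omega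
      rw [norm_mul, norm_pow, Complex.norm_intCast] at h3
      have h5 : |(φ.1 (Fin.last d) : ℝ)| ≤ ∑ i : Fin d, |(φ.1 (Fin.castSucc i) : ℝ)| :=
        le_of_mul_le_mul_right h3 (by positivity)
      have h6 : ((∑ i : Fin d, |φ.1 (Fin.castSucc i)| : ℤ) : ℝ) < ((|φ.1 (Fin.last d)| : ℤ) : ℝ) := by
        exact_mod_cast h1
      push_cast at h6
      linarith
  · by_cases hy : y = 0
    · subst hy
      have : x = 0 := by simpa using hxy
      rw [this]; rfl
    · exfalso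
      have hy' : 0 < ‖y‖ := norm_pos_iff.mpr hy
      unfold form at e2
      rw [Fin.sum_univ_succ] at e2
      simp only [Fin.val_zero, Fin.val_succ, pow_zero, mul_one, Nat.sub_zero] at e2
      have h3 : ‖(φ.2 0 : ℂ) * y ^ d‖ ≤
          (∑ i : Fin d, |(φ.2 (Fin.succ i) : ℝ)|) * ‖y‖ ^ d := by
        have h4 : (φ.2 0 : ℂ) * y ^ d =
            -∑ i : Fin d, (φ.2 (Fin.succ i) : ℂ) * x ^ ((i : ℕ) + 1) * y ^ (d - (i + 1)) := by
          rw [eq_neg_iff_add_eq_zero]; exact e2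
        rw [h4, norm_neg, Finset.sum_mul]
        refine (norm_sum_le _ _).trans ?_
        apply Finset.sum_le_sum
        intro i _
        rw [norm_mul, norm_mul, norm_pow, norm_pow, Complex.norm_intCast, mul_assoc]
        apply mul_le_mul_of_nonneg_left _ (abs_nonneg _)
        calc ‖x‖ ^ ((i : ℕ) + 1) * ‖y‖ ^ (d - (i + 1)) ≤
              ‖y‖ ^ ((i : ℕ) + 1) * ‖y‖ ^ (d - (i + 1)) := by gcongr
          _ = ‖y‖ ^ d := by rw [← pow_add]; congr 1; have := i.2; omega
      rw [norm_mul, norm_pow, Complex.norm_intCast] at h3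
      have h5 : |(φ.2 0 : ℝ)| ≤ ∑ i : Fin d, |(φ.2 (Fin.succ i) : ℝ)| :=
        le_of_mul_le_mul_right h3 (by positivity)
      have h6 : ((∑ i : Fin d, |φ.2 (Fin.succ i)| : ℤ) : ℝ) < ((|φ.2 0| : ℤ) : ℝ) := by
        exact_mod_cast h2
      push_cast at h6
      linarith

/-- the family -/
def fam (d : ℕ) (r : (ℕ × ℕ) × ((Fin d → ℤ) × (Fin d → ℤ))) :
    (Fin (d + 1) → ℤ) × (Fin (d + 1) → ℤ) :=
  (Fin.snoc (α := fun _ => ℤ) r.2.1 (r.1.1 : ℤ), Fin.cons (α := fun _ => ℤ) (r.1.2 : ℤ) r.2.2)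

lemma fam_inj (d : ℕ) : Function.Injective (fam d) := by
  rintro ⟨⟨u, v⟩, f, g⟩ ⟨⟨u', v'⟩, f', g'⟩ h
  simp only [fam, Prod.mk.injEq] at h
  have h1 := Fin.snoc_inj.mp h.1
  have h2 := Fin.cons_inj.mp h.2
  obtain ⟨a1, a2⟩ := h1
  obtain ⟨a3, a4⟩ := h2
  simp only [Nat.cast_inj] at a2 a3
  rw [a1, a2, a3, a4]

theorem maps_lower_large {d H : ℕ} (hd : 1 ≤ d) (hH : 40000 ≤ H) :
    (H:ℝ) ^ 2 / 64 * ((H:ℝ) / (2 * d)) ^ (2 * d) ≤ ((maps d H).ncard : ℝ) := by
  set m := H / (2 * d) with hm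
  set T := ((Ih H ×ˢ Ih H).filter (fun p => Nat.Coprime p.1 p.2)) ×ˢ
    ((Fintype.piFinset fun _ : Fin d => Iv m) ×ˢ (Fintype.piFinset fun _ : Fin d => Iv m)) with hT
  have hsub : ((T.image (fam d) : Finset _) : Set _) ⊆ maps d H := by
    intro φ hφ
    rw [Finset.mem_coe, Finset.mem_image] at hφ
    obtain ⟨⟨⟨u, v⟩, f, g⟩, hr, rfl⟩ := hφ
    rw [hT, Finset.mem_product, Finset.mem_product, Finset.mem_filter, Finset.mem_product] at hr
    obtain ⟨⟨⟨hu, hv⟩, huv⟩, hf, hg⟩ := hr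
    simp only at hu hv huv hf hg
    rw [Ih, Finset.mem_Ioc] at hu hv
    rw [Fintype.mem_piFinset] at hf hg
    have hmH : m ≤ H := Nat.div_le_self _ _
    have hdm : d * m ≤ H / 2 := by
      rw [hm, Nat.le_div_iff_mul_le (by norm_num)]
      calc d * (H / (2 * d)) * 2 = H / (2 * d) * (2 * d) := by ring
        _ ≤ H := Nat.div_mul_le_self _ _
    refine ⟨?_, ?_, ?_⟩
    · intro i
      simp only [fam]
      constructor
      · refine Fin.lastCases ?_ (fun j => ?_) i
        · rw [Fin.snoc_last]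
          rw [abs_of_nonneg (by positivity)]
          exact_mod_cast hu.2
        · rw [Fin.snoc_castSucc]
          have := mem_Iv.mp (hf j)
          exact this.trans (by exact_mod_cast hmH)
      · refine Fin.cases ?_ (fun j => ?_) i
        · rw [Fin.cons_zero]
          rw [abs_of_nonneg (by positivity)]
          exact_mod_cast hv.2
        · rw [Fin.cons_succ]
          have := mem_Iv.mp (hg j)
          exact this.trans (by exact_mod_cast hmH)
    · intro e he
      have h1 := (he (Fin.last d)).1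
      have h2 := (he 0).2
      simp only [fam, Fin.snoc_last, Fin.cons_zero] at h1 h2
      have h3 : IsCoprime (u:ℤ) (v:ℤ) := Nat.isCoprime_iff_coprime.mpr huv
      exact h3.isUnit_of_dvd' h1 h2
    · apply noCommonZero_of_dom
      · simp only [fam, Fin.snoc_castSucc, Fin.snoc_last]
        calc ∑ i : Fin d, |f i| ≤ ∑ i : Fin d, (m:ℤ) :=
              Finset.sum_le_sum fun i _ => mem_Iv.mp (hf i)
          _ = ((d * m : ℕ) : ℤ) := by simp
          _ < (u:ℤ) := by exact_mod_cast (by omega : d * m < u)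
          _ = |(u:ℤ)| := (abs_of_nonneg (by positivity)).symm
      · simp only [fam, Fin.cons_succ, Fin.cons_zero]
        calc ∑ i : Fin d, |g i| ≤ ∑ i : Fin d, (m:ℤ) :=
              Finset.sum_le_sum fun i _ => mem_Iv.mp (hg i)
          _ = ((d * m : ℕ) : ℤ) := by simp
          _ < (v:ℤ) := by exact_mod_cast (by omega : d * m < v)
          _ = |(v:ℤ)| := (abs_of_nonneg (by positivity)).symm
  have h1 : T.card ≤ (maps d H).ncard := by
    rw [← Finset.card_image_of_injective T (fam_inj d), ← Set.ncard_coe_finset]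
    exact Set.ncard_le_ncard hsub (maps_finite d H)
  have h2 : (T.card : ℝ) ≤ ((maps d H).ncard : ℝ) := by exact_mod_cast h1
  refine le_trans ?_ h2
  rw [hT, Finset.card_product, Finset.card_product, Fintype.card_piFinset]
  simp only [card_Iv, Finset.prod_const, Finset.card_univ, Fintype.card_fin]
  push_cast
  have h3 := coprime_pairs H hH
  have h4 : (H:ℝ) / (2 * d) ≤ 2 * (m:ℝ) + 1 := by
    have hd' : (0:ℝ) < 2 * d := by positivity
    rw [div_le_iff₀ hd']
    have h5 : H < (m + 1) * (2 * d) := by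
      have := Nat.lt_div_mul_add (a := H) (b := 2 * d) (by omega)
      rw [hm, add_mul, one_mul]; exact this
    have h6 : (H:ℝ) < ((m:ℝ) + 1) * (2 * d) := by exact_mod_cast h5
    have h7 : (0:ℝ) ≤ (m:ℝ) := by positivity
    nlinarith
  calc (H:ℝ) ^ 2 / 64 * ((H:ℝ) / (2 * d)) ^ (2 * d)
      ≤ (((Ih H ×ˢ Ih H).filter (fun p => Nat.Coprime p.1 p.2)).card : ℝ) *
        (2 * (m:ℝ) + 1) ^ (2 * d) := by gcongr
    _ = _ := by rw [two_mul d, pow_add]

theorem maps_lower {d : ℕ} (hd : 1 ≤ d) : ∃ c : ℝ, 0 < c ∧ ∀ H : ℕ, 1 ≤ H →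
    c * (H:ℝ) ^ (2 * d + 2) ≤ ((maps d H).ncard : ℝ) := by
  have hd' : (1:ℝ) ≤ d := by exact_mod_cast hd
  set c1 : ℝ := 1 / (64 * (2 * d) ^ (2 * d)) with hc1
  set c2 : ℝ := 1 / (40000 : ℝ) ^ (2 * d + 2) with hc2
  have hc1p : 0 < c1 := by rw [hc1]; positivity
  have hc2p : 0 < c2 := by rw [hc2]; positivity
  refine ⟨min c1 c2, lt_min hc1p hc2p, ?_⟩
  intro H hH
  have hH' : (1:ℝ) ≤ H := by exact_mod_cast hH
  by_cases hbig : 40000 ≤ H
  · calc min c1 c2 * (H:ℝ) ^ (2 * d + 2) ≤ c1 * (H:ℝ) ^ (2 * d + 2) := by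
          gcongr; exact min_le_left _ _
      _ = (H:ℝ) ^ 2 / 64 * ((H:ℝ) / (2 * d)) ^ (2 * d) := by
          rw [hc1, div_pow, pow_add]; field_simp
      _ ≤ _ := maps_lower_large hd hbig
  · have hmem : (fam d ((1, 1), (0, 0))) ∈ maps d H := by
      refine ⟨?_, ?_, ?_⟩
      · intro i
        simp only [fam]
        constructor
        · refine Fin.lastCases ?_ (fun j => ?_) i
          · rw [Fin.snoc_last]; simp; exact_mod_cast hH
          · rw [Fin.snoc_castSucc]; simp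
        · refine Fin.cases ?_ (fun j => ?_) i
          · rw [Fin.cons_zero]; simp; exact_mod_cast hH
          · rw [Fin.cons_succ]; simp
      · intro e he
        have h1 := (he (Fin.last d)).1
        simp only [fam, Fin.snoc_last, Nat.cast_one] at h1
        exact isUnit_of_dvd_one h1
      · apply noCommonZero_of_dom
        · simp [fam, Fin.snoc_castSucc, Fin.snoc_last]
        · simp [fam]
    have h1 : 1 ≤ (maps d H).ncard := by
      have := (Set.ncard_pos (maps_finite d H)).mpr ⟨_, hmem⟩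
      exact this
    have h1' : (1:ℝ) ≤ ((maps d H).ncard : ℝ) := by exact_mod_cast h1
    have hlt : (H:ℝ) ≤ 40000 := by
      have : H ≤ 40000 := by omega
      exact_mod_cast this
    calc min c1 c2 * (H:ℝ) ^ (2 * d + 2) ≤ c2 * (40000:ℝ) ^ (2 * d + 2) := by
          gcongr; exact min_le_right _ _
      _ = 1 := by rw [hc2]; field_simp
      _ ≤ _ := h1'

end

end Pool.Agent.W47.AM
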