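import Mathlib

/-! Rational maps of the projective line over `ℚ`: heights along orbits. -/

set_option autoImplicit false

namespace Pool.Agent.W47.AM

/-- The value at `v = (x, y)` of the binary form `f_0 y^d + f_1 x y^(d-1) + ... + f_d x^d`. -/
def form {R : Type} [CommRing R] {d : ℕ} (f : Fin (d + 1) → ℤ) (v : R × R) : R :=
  ∑ i, (f i : R) * v.1 ^ (i : ℕ) * v.2 ^ (d - i)

/-- The self-map `(F, G)` of `R × R`. -/
def act {R : Type} [CommRing R] {d : ℕ} (φ : (Fin (d + 1) → ℤ) × (Fin (d + 1) → ℤ))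
    (v : R × R) : R × R := (form φ.1 v, form φ.2 v)

/-- `F` and `G` have no common zero in `ℂ²` except `0`. -/
def NoCommonZero {d : ℕ} (φ : (Fin (d + 1) → ℤ) × (Fin (d + 1) → ℤ)) : Prop :=
  ∀ v : ℂ × ℂ, act φ v = 0 → v = 0

/-- The height of every point of `P¹(ℚ)` is smaller than the height of its image. -/
def HeightIncreases {d : ℕ} (φ : (Fin (d + 1) → ℤ) × (Fin (d + 1) → ℤ)) : Prop :=
  ∀ a b p q k : ℤ, IsCoprime a b → IsCoprime p q → act φ (a, b) = (k * p, k * q) →
    max |a| |b| < max |p| |q|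

/-- Some point of `P¹(ℚ)` is preperiodic. -/
def HasPreperiodicPoint {d : ℕ} (φ : (Fin (d + 1) → ℤ) × (Fin (d + 1) → ℤ)) : Prop :=
  ∃ v : ℚ × ℚ, v ≠ 0 ∧ ∃ m n : ℕ, m < n ∧ ∃ c : ℚ, c ≠ 0 ∧ (act φ)^[n] v = c • (act φ)^[m] v

lemma form_smul {R : Type} [CommRing R] {d : ℕ} (f : Fin (d + 1) → ℤ) (c : R) (v : R × R) :
    form f (c • v) = c ^ d * form f v := by
  unfold form
  rw [Finset.mul_sum]
  apply Finset.sum_congr rfl
  intro i _
  simp only [Prod.smul_fst, Prod.smul_snd, smul_eq_mul, mul_pow]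
  have : c ^ d = c ^ (i : ℕ) * c ^ (d - i) := by
    rw [← pow_add]; congr 1; have := i.2; omega
  rw [this]; ring

lemma form_map {R S : Type} [CommRing R] [CommRing S] (g : R →+* S) {d : ℕ} (f : Fin (d + 1) → ℤ)
    (v : R × R) : form f (g v.1, g v.2) = g (form f v) := by
  unfold form
  rw [map_sum]
  apply Finset.sum_congr rfl
  intro i _
  simp

lemma exists_rep (v : ℚ × ℚ) (hv : v ≠ 0) : ∃ (c : ℚ) (a b : ℤ), c ≠ 0 ∧ IsCoprime a b ∧
    v = c • ((a : ℚ), (b : ℚ)) := by
  obtain ⟨x, y⟩ := v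
  set X : ℤ := x.num * y.den with hX
  set Y : ℤ := y.num * x.den with hY
  have hxd : (x.den : ℚ) ≠ 0 := by exact_mod_cast x.den_nz
  have hyd : (y.den : ℚ) ≠ 0 := by exact_mod_cast y.den_nz
  have hx : x = (X : ℚ) / (x.den * y.den) := by
    rw [hX, eq_div_iff (mul_ne_zero hxd hyd)]
    push_cast
    have := Rat.mul_den_eq_num x
    calc x * (x.den * y.den) = (x * x.den) * y.den := by ring
      _ = _ := by rw [this]
  have hy : y = (Y : ℚ) / (x.den * y.den) := by
    rw [hY, eq_div_iff (mul_ne_zero hxd hyd)]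
    push_cast
    have := Rat.mul_den_eq_num y
    calc y * (x.den * y.den) = (y * y.den) * x.den := by ring
      _ = _ := by rw [this]
  have hXY : Int.gcd X Y ≠ 0 := by
    intro h0
    rw [Int.gcd_eq_zero_iff] at h0
    apply hv
    rw [hx, hy, h0.1, h0.2]
    simp
  have hg : 0 < Int.gcd X Y := Nat.pos_of_ne_zero hXY
  obtain ⟨a, b, hab, ha, hb⟩ : ∃ a b : ℤ, IsCoprime a b ∧ X = Int.gcd X Y * a ∧
      Y = Int.gcd X Y * b := by
    obtain ⟨X', hX'⟩ := Int.gcd_dvd_left X Y
    obtain ⟨Y', hY'⟩ := Int.gcd_dvd_right X Y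
    refine ⟨X', Y', ?_, hX', hY'⟩
    have h1 := Int.gcd_eq_gcd_ab X Y
    have hgz : (Int.gcd X Y : ℤ) ≠ 0 := by exact_mod_cast hXY
    refine ⟨Int.gcdA X Y, Int.gcdB X Y, ?_⟩
    apply mul_left_cancel₀ hgz
    rw [mul_one]
    calc (Int.gcd X Y : ℤ) * (Int.gcdA X Y * X' + Int.gcdB X Y * Y') =
          (Int.gcd X Y * X') * Int.gcdA X Y + (Int.gcd X Y * Y') * Int.gcdB X Y := by ring
      _ = X * Int.gcdA X Y + Y * Int.gcdB X Y := by rw [← hX', ← hY']
      _ = _ := h1.symm
  refine ⟨(Int.gcd X Y : ℚ) / (x.den * y.den), a, b, ?_, hab, ?_⟩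
  · exact div_ne_zero (by exact_mod_cast hXY) (mul_ne_zero hxd hyd)
  · have hXq : (X : ℚ) = (Int.gcd X Y : ℚ) * a := by exact_mod_cast ha
    have hYq : (Y : ℚ) = (Int.gcd X Y : ℚ) * b := by exact_mod_cast hb
    have h1 : x = (Int.gcd X Y : ℚ) / (x.den * y.den) * a := by
      calc x = (X : ℚ) / (x.den * y.den) := hx
        _ = ((Int.gcd X Y : ℚ) * a) / (x.den * y.den) :=
            congrArg (fun t => t / ((x.den : ℚ) * y.den)) hXq
        _ = _ := by ring
    have h2 : y = (Int.gcd X Y : ℚ) / (x.den * y.den) * b := by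
      calc y = (Y : ℚ) / (x.den * y.den) := hy
        _ = ((Int.gcd X Y : ℚ) * b) / (x.den * y.den) :=
            congrArg (fun t => t / ((x.den : ℚ) * y.den)) hYq
        _ = _ := by ring
    exact Prod.ext h1 h2

lemma rep_unique {a b a' b' : ℤ} (h : IsCoprime a b) (h' : IsCoprime a' b')
    (e : a * b' = a' * b) : max |a| |b| = max |a'| |b'| := by
  have h1 : a ∣ a' := h.dvd_of_dvd_mul_right (Dvd.intro _ e)
  have h2 : a' ∣ a := h'.dvd_of_dvd_mul_right (Dvd.intro _ e.symm)
  have h3 : b ∣ b' := h.symm.dvd_of_dvd_mul_left (Dvd.intro_left _ e.symm)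
  have h4 : b' ∣ b := h'.symm.dvd_of_dvd_mul_left (Dvd.intro_left _ e)
  have e1 : |a| = |a'| := by
    rw [Int.abs_eq_natAbs, Int.abs_eq_natAbs,
      Nat.dvd_antisymm (Int.natAbs_dvd_natAbs.mpr h1) (Int.natAbs_dvd_natAbs.mpr h2)]
  have e2 : |b| = |b'| := by
    rw [Int.abs_eq_natAbs, Int.abs_eq_natAbs,
      Nat.dvd_antisymm (Int.natAbs_dvd_natAbs.mpr h3) (Int.natAbs_dvd_natAbs.mpr h4)]
  rw [e1, e2]

theorem no_preperiodic {d : ℕ} {φ : (Fin (d + 1) → ℤ) × (Fin (d + 1) → ℤ)}
    (hz : NoCommonZero φ) (hinc : HeightIncreases φ) : ¬ HasPreperiodicPoint φ := by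
  rintro ⟨v, hv, m, n, hmn, c, hc, hcyc⟩
  have hnz : ∀ u : ℚ × ℚ, u ≠ 0 → act φ u ≠ 0 := by
    intro u hu h0
    apply hu
    have h1 : act φ ((algebraMap ℚ ℂ u.1, algebraMap ℚ ℂ u.2) : ℂ × ℂ) = 0 := by
      have e1 : form φ.1 u = 0 := congrArg Prod.fst h0
      have e2 : form φ.2 u = 0 := congrArg Prod.snd h0
      unfold act
      rw [form_map, form_map, e1, e2, map_zero]; rfl
    have h2 := hz _ h1
    have e1 : algebraMap ℚ ℂ u.1 = 0 := congrArg Prod.fst h2
    have e2 : algebraMap ℚ ℂ u.2 = 0 := congrArg Prod.snd h2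
    exact Prod.ext ((map_eq_zero _).mp e1) ((map_eq_zero _).mp e2)
  have horb : ∀ k, (act φ)^[k] v ≠ 0 := by
    intro k
    induction k with
    | zero => simpa using hv
    | succ k ih => rw [Function.iterate_succ_apply']; exact hnz _ ih
  choose s a b hs hab hrep using fun k => exists_rep _ (horb k)
  have hstep : ∀ k, max |a k| |b k| < max |a (k + 1)| |b (k + 1)| := by
    intro k
    have h1 : act φ ((act φ)^[k] v) = (act φ)^[k + 1] v := by
      rw [Function.iterate_succ_apply']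
    have e1 : form φ.1 ((a k : ℚ), (b k : ℚ)) = ((form φ.1 (a k, b k) : ℤ) : ℚ) :=
      form_map (Int.castRingHom ℚ) φ.1 (a k, b k)
    have e2 : form φ.2 ((a k : ℚ), (b k : ℚ)) = ((form φ.2 (a k, b k) : ℤ) : ℚ) :=
      form_map (Int.castRingHom ℚ) φ.2 (a k, b k)
    rw [hrep k, hrep (k + 1)] at h1
    have h2 : s k ^ d * ((form φ.1 (a k, b k) : ℤ) : ℚ) = s (k + 1) * a (k + 1) := by
      have := congrArg Prod.fst h1
      simp only [act, form_smul, e1] at this
      simpa using this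
    have h3 : s k ^ d * ((form φ.2 (a k, b k) : ℤ) : ℚ) = s (k + 1) * b (k + 1) := by
      have := congrArg Prod.snd h1
      simp only [act, form_smul, e2] at this
      simpa using this
    obtain ⟨x, y, hxy⟩ := hab (k + 1)
    set F := (form φ.1 (a k, b k) : ℤ) with hF
    set G := (form φ.2 (a k, b k) : ℤ) with hG
    set μ := x * F + y * G with hμ
    have hsk : s k ^ d ≠ 0 := pow_ne_zero _ (hs k)
    have hxy' : (x:ℚ) * a (k + 1) + y * b (k + 1) = 1 := by exact_mod_cast hxy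
    have h4 : s k ^ d * (μ : ℚ) = s (k + 1) := by
      rw [hμ]; push_cast
      calc s k ^ d * (x * F + y * G) = x * (s k ^ d * F) + y * (s k ^ d * G) := by ring
        _ = x * (s (k + 1) * a (k + 1)) + y * (s (k + 1) * b (k + 1)) := by rw [h2, h3]
        _ = s (k + 1) * (x * a (k + 1) + y * b (k + 1)) := by ring
        _ = _ := by rw [hxy', mul_one]
    have h5 : F = μ * a (k + 1) := by
      have : (F : ℚ) = ((μ * a (k + 1) : ℤ) : ℚ) := by
        apply mul_left_cancel₀ hsk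
        rw [h2]; push_cast; rw [← mul_assoc, h4]
      exact_mod_cast this
    have h6 : G = μ * b (k + 1) := by
      have : (G : ℚ) = ((μ * b (k + 1) : ℤ) : ℚ) := by
        apply mul_left_cancel₀ hsk
        rw [h3]; push_cast; rw [← mul_assoc, h4]
      exact_mod_cast this
    refine hinc (a k) (b k) (a (k + 1)) (b (k + 1)) μ (hab k) (hab (k + 1)) ?_
    exact Prod.ext h5 h6
  have hmono : StrictMono (fun k => max |a k| |b k|) := strictMono_nat_of_lt_succ hstep
  have hlt := hmono hmn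
  have heq : max |a m| |b m| = max |a n| |b n| := by
    apply rep_unique (hab m) (hab n)
    rw [hrep n, hrep m] at hcyc
    have e1 : s n * a n = c * (s m * a m) := by
      have := congrArg Prod.fst hcyc
      simpa using this
    have e2 : s n * b n = c * (s m * b m) := by
      have := congrArg Prod.snd hcyc
      simpa using this
    have h7 : c * s m ≠ 0 := mul_ne_zero hc (hs m)
    have : (a m : ℚ) * b n = a n * b m := by
      apply mul_left_cancel₀ (mul_ne_zero h7 (hs n))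
      calc c * s m * s n * (a m * b n) = (c * (s m * a m)) * (s n * b n) := by ring
        _ = (s n * a n) * (c * (s m * b m)) := by rw [e1, e2]
        _ = _ := by ring
    exact_mod_cast this
  simp only at hlt
  omega

end Pool.Agent.W47.AM
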