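import Pool.Agent.W47.AM.Sums

/-! Small images: `|q| ≤ 2H`. -/

set_option autoImplicit false

namespace Pool.Agent.W47.AM

noncomputable section

open Finset Classical

/-- region `C` -/
def InC {d : ℕ} (H B0 : ℕ) (w : Fin (d + 1) → ℤ × ℤ) : Prop :=
  ∃ a : ℕ, 1 ≤ a ∧ a ≤ B0 ∧ ∃ b : ℤ, |b| ≤ a ∧ IsCoprime (a:ℤ) b ∧
    ∃ q : ℤ × ℤ, IsCoprime q.1 q.2 ∧ nrm q ≤ 2 * H ∧ nrm q ≤ a ∧ Rel w a b q

lemma sol_bound {d H a : ℕ} (hH : 1 ≤ H) (ha : 1 ≤ a) {b : ℤ}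
    (hab : IsCoprime (a:ℤ) b) {q : ℤ × ℤ} (hq : IsCoprime q.1 q.2) (hqH : nrm q ≤ 2 * H) :
    (((boxw d H).filter (fun w => Rel w a b q)).card : ℝ) ≤
      2 ^ d * 6 ^ (d + 1) * 8 ^ d * ((H:ℝ) ^ (d + 1) * ((nrm q : ℝ) ^ (d + 1))⁻¹ +
        (H:ℝ) ^ (2 * d + 1) * ((a:ℝ) ^ d)⁻¹ * (nrm q : ℝ)⁻¹) := by
  have h1 := sol_le (H := H) hab (by omega : (a:ℤ) ≠ 0) ((boxw d H).filter (fun w => Rel w a b q))
    (fun w hw => Finset.mem_filter.mp hw)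
  have hC : (1:ℝ) ≤ nrm q := by exact_mod_cast nrm_pos_of_coprime hq
  have ha' : (1:ℝ) ≤ a := by exact_mod_cast ha
  have hH' : (1:ℝ) ≤ H := by exact_mod_cast hH
  have hqH' : (nrm q : ℝ) ≤ 2 * H := by exact_mod_cast hqH
  have h2 : ((V H a q).card : ℝ) ≤ (1 + 8 * H * nrm q / a) * (6 * H / nrm q) := by
    have h3 := V_card_det (H := H) (a := a) (by omega) hq
    have h4 : ((V H a q).card : ℝ) ≤
        (2 * ((4 * H * nrm q / a : ℕ) : ℝ) + 1) * (((4 * H / nrm q : ℕ) : ℝ) + 1) := by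
      exact_mod_cast h3
    refine h4.trans ?_
    have h5 : ((4 * H * nrm q / a : ℕ) : ℝ) ≤ 4 * H * nrm q / a := by
      refine Nat.cast_div_le.trans ?_
      push_cast; exact le_rfl
    have h6 : ((4 * H / nrm q : ℕ) : ℝ) ≤ 4 * H / nrm q := by
      refine Nat.cast_div_le.trans ?_
      push_cast; exact le_rfl
    have h7 : (1:ℝ) ≤ 2 * H / nrm q := by
      rw [le_div_iff₀ (by linarith)]; linarith
    apply mul_le_mul
    · have : (8 * H * nrm q / a : ℝ) = 2 * (4 * H * nrm q / a) := by ring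
      rw [this]; linarith
    · have : (6 * H / nrm q : ℝ) = 4 * H / nrm q + 2 * H / nrm q := by ring
      rw [this]; linarith
    · positivity
    · positivity
  have h2' : ((V H 0 q).card : ℝ) ≤ 6 * H / nrm q := by
    have h3 := V0_card (H := H) hq
    have h4 : ((V H 0 q).card : ℝ) ≤ (((4 * H / nrm q : ℕ) : ℝ) + 1) := by
      exact_mod_cast h3
    refine h4.trans ?_
    have h6 : ((4 * H / nrm q : ℕ) : ℝ) ≤ 4 * H / nrm q := by
      refine Nat.cast_div_le.trans ?_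
      push_cast; exact le_rfl
    have h7 : (1:ℝ) ≤ 2 * H / nrm q := by
      rw [le_div_iff₀ (by linarith)]; linarith
    have : (6 * H / nrm q : ℝ) = 4 * H / nrm q + 2 * H / nrm q := by ring
    rw [this]; linarith
  have h3 : (((boxw d H).filter (fun w => Rel w a b q)).card : ℝ) ≤
      ((1 + 8 * H * nrm q / a) * (6 * H / nrm q)) ^ d * (6 * H / nrm q) := by
    calc (((boxw d H).filter (fun w => Rel w a b q)).card : ℝ)
        ≤ ((V H a q).card : ℝ) ^ d * ((V H 0 q).card : ℝ) := by exact_mod_cast h1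
      _ ≤ _ := by gcongr
  refine h3.trans ?_
  rw [mul_pow]
  have h4 := one_add_pow_le (x := 8 * H * nrm q / a) (by positivity) d
  have hC0 : (nrm q : ℝ) ≠ 0 := by positivity
  have ha0 : (a : ℝ) ≠ 0 := by positivity
  calc (1 + 8 * H * nrm q / a : ℝ) ^ d * (6 * H / nrm q) ^ d * (6 * H / nrm q)
      ≤ (2 ^ d * (1 + (8 * H * nrm q / a) ^ d)) * (6 * H / nrm q) ^ d * (6 * H / nrm q) := by
        gcongr
    _ = 2 ^ d * 6 ^ (d + 1) * ((H:ℝ) ^ (d + 1) * ((nrm q : ℝ) ^ (d + 1))⁻¹ +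
        8 ^ d * ((H:ℝ) ^ (2 * d + 1) * ((a:ℝ) ^ d)⁻¹ * (nrm q : ℝ)⁻¹)) := by
        rw [div_pow, div_pow, mul_pow, mul_pow, mul_pow]
        field_simp
        ring
    _ ≤ 2 ^ d * 6 ^ (d + 1) * (8 ^ d * ((H:ℝ) ^ (d + 1) * ((nrm q : ℝ) ^ (d + 1))⁻¹) +
        8 ^ d * ((H:ℝ) ^ (2 * d + 1) * ((a:ℝ) ^ d)⁻¹ * (nrm q : ℝ)⁻¹)) := by
        have h8 : (1:ℝ) ≤ 8 ^ d := one_le_pow₀ (by norm_num)
        have hx : (0:ℝ) ≤ (H:ℝ) ^ (d + 1) * ((nrm q : ℝ) ^ (d + 1))⁻¹ := by positivity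
        have : (H:ℝ) ^ (d + 1) * ((nrm q : ℝ) ^ (d + 1))⁻¹ ≤
          8 ^ d * ((H:ℝ) ^ (d + 1) * ((nrm q : ℝ) ^ (d + 1))⁻¹) := by nlinarith
        gcongr
    _ = _ := by ring

lemma inC_cover {d H B0 : ℕ} :
    (boxw d H).filter (fun w => InC H B0 w) ⊆
      (Finset.Icc 1 B0).biUnion fun a =>
        ((Finset.Icc (-(a:ℤ)) a).filter (fun b => IsCoprime (a:ℤ) b)).biUnion fun b =>
          ((bx a).filter (fun q => IsCoprime q.1 q.2 ∧ nrm q ≤ 2 * H)).biUnion fun q =>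
            (boxw d H).filter (fun w => Rel w a b q) := by
  intro w hw
  rw [Finset.mem_filter] at hw
  obtain ⟨hw, a, ha1, ha2, b, hb, hab, q, hq, hq1, hq2, hrel⟩ := hw
  simp only [Finset.mem_biUnion]
  refine ⟨a, Finset.mem_Icc.mpr ⟨ha1, ha2⟩, b, ?_, q, ?_, ?_⟩
  · rw [Finset.mem_filter, Finset.mem_Icc]
    exact ⟨abs_le.mp hb, hab⟩
  · rw [Finset.mem_filter]
    exact ⟨mem_bx'.mpr hq2, hq, hq1⟩
  · rw [Finset.mem_filter]
    exact ⟨hw, hrel⟩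

theorem partC {d H B0 : ℕ} (hd : 3 ≤ d) (hH : 1 ≤ H) {P : ℝ} (hP : rho B0 ≤ P) :
    (((boxw d H).filter (fun w => InC H B0 w)).card : ℝ) ≤
      9 * (2 ^ d * 6 ^ (d + 1) * 8 ^ d) *
        ((B0:ℝ) ^ 2 * H ^ (d + 1) * P ^ 2 + (H:ℝ) ^ (2 * d + 1) * P ^ 2) := by
  set c : ℝ := 2 ^ d * 6 ^ (d + 1) * 8 ^ d with hc
  have hc0 : 0 < c := by positivity
  have hH' : (1:ℝ) ≤ H := by exact_mod_cast hH
  have hP1 : 1 ≤ P := (one_le_rho B0).trans hP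
  have hcover : (((boxw d H).filter (fun w => InC H B0 w)).card : ℝ) ≤
      ∑ a ∈ Finset.Icc 1 B0, ∑ b ∈ (Finset.Icc (-(a:ℤ)) a).filter (fun b => IsCoprime (a:ℤ) b),
        ∑ q ∈ (bx a).filter (fun q => IsCoprime q.1 q.2 ∧ nrm q ≤ 2 * H),
          (((boxw d H).filter (fun w => Rel w a b q)).card : ℝ) := by
    have h1 := Finset.card_le_card (inC_cover (d := d) (H := H) (B0 := B0))
    have h2 : ((boxw d H).filter (fun w => InC H B0 w)).card ≤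
      ∑ a ∈ Finset.Icc 1 B0, ∑ b ∈ (Finset.Icc (-(a:ℤ)) a).filter (fun b => IsCoprime (a:ℤ) b),
        ∑ q ∈ (bx a).filter (fun q => IsCoprime q.1 q.2 ∧ nrm q ≤ 2 * H),
          ((boxw d H).filter (fun w => Rel w a b q)).card := by
      refine h1.trans (Finset.card_biUnion_le.trans ?_)
      apply Finset.sum_le_sum; intro a _
      refine Finset.card_biUnion_le.trans ?_
      apply Finset.sum_le_sum; intro b _
      exact Finset.card_biUnion_le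
    exact_mod_cast h2
  refine hcover.trans ?_
  have hq : ∀ a ∈ Finset.Icc 1 B0, ∀ b ∈ (Finset.Icc (-(a:ℤ)) a).filter (fun b => IsCoprime (a:ℤ) b),
      ∑ q ∈ (bx a).filter (fun q => IsCoprime q.1 q.2 ∧ nrm q ≤ 2 * H),
          (((boxw d H).filter (fun w => Rel w a b q)).card : ℝ) ≤
        c * ((H:ℝ) ^ (d + 1) * P ^ 2 + (H:ℝ) ^ (2 * d + 1) * ((a:ℝ) ^ d)⁻¹ * (3 * a * P)) := by
    intro a ha b hb
    rw [Finset.mem_Icc] at ha
    rw [Finset.mem_filter] at hb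
    have ha' : (1:ℝ) ≤ a := by exact_mod_cast ha.1
    have hPa : rho a ≤ P := (rho_mono ha.2).trans hP
    calc ∑ q ∈ (bx a).filter (fun q => IsCoprime q.1 q.2 ∧ nrm q ≤ 2 * H),
          (((boxw d H).filter (fun w => Rel w a b q)).card : ℝ)
        ≤ ∑ q ∈ (bx a).filter (fun q => IsCoprime q.1 q.2 ∧ nrm q ≤ 2 * H),
          c * ((H:ℝ) ^ (d + 1) * ((mx q.1)⁻¹ * (mx q.2)⁻¹) +
            (H:ℝ) ^ (2 * d + 1) * ((a:ℝ) ^ d)⁻¹ * (mx q.1)⁻¹) := by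
          apply Finset.sum_le_sum
          intro q hq
          rw [Finset.mem_filter] at hq
          have hq0 := ne_zero_of_coprime hq.2.1
          refine (sol_bound hH ha.1 hb.2 hq.2.1 hq.2.2).trans ?_
          rw [← hc]
          have e1 := inv_nrm_pow_le hq0 (show 2 ≤ d + 1 by omega)
          have e2 := inv_nrm_le hq0
          gcongr
      _ ≤ ∑ q ∈ bx a, c * ((H:ℝ) ^ (d + 1) * ((mx q.1)⁻¹ * (mx q.2)⁻¹) +
            (H:ℝ) ^ (2 * d + 1) * ((a:ℝ) ^ d)⁻¹ * (mx q.1)⁻¹) := by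
          apply Finset.sum_le_sum_of_subset_of_nonneg (Finset.filter_subset _ _)
          intro q _ _
          have := mx_pos q.1
          have := mx_pos q.2
          positivity
      _ = c * ((H:ℝ) ^ (d + 1) * rho a ^ 2 +
            (H:ℝ) ^ (2 * d + 1) * ((a:ℝ) ^ d)⁻¹ * ((2 * a + 1) * rho a)) := by
          rw [← Finset.mul_sum, Finset.sum_add_distrib, ← Finset.mul_sum, ← Finset.mul_sum,
            sum_bx_mul, sum_bx_fst]
      _ ≤ _ := by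
          have := rho_nonneg a
          gcongr
          linarith
  have hb : ∀ a ∈ Finset.Icc 1 B0,
      ∑ b ∈ (Finset.Icc (-(a:ℤ)) a).filter (fun b => IsCoprime (a:ℤ) b),
        ∑ q ∈ (bx a).filter (fun q => IsCoprime q.1 q.2 ∧ nrm q ≤ 2 * H),
          (((boxw d H).filter (fun w => Rel w a b q)).card : ℝ) ≤
        9 * c * ((B0:ℝ) * ((H:ℝ) ^ (d + 1) * P ^ 2) +
          (H:ℝ) ^ (2 * d + 1) * P * ((a:ℝ))⁻¹) := by
    intro a ha
    have ha0 := Finset.mem_Icc.mp ha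
    have ha' : (1:ℝ) ≤ a := by exact_mod_cast ha0.1
    have haB : (a:ℝ) ≤ B0 := by exact_mod_cast ha0.2
    have hcardb : (((Finset.Icc (-(a:ℤ)) a).filter (fun b => IsCoprime (a:ℤ) b)).card : ℝ) ≤
        3 * a := by
      have h1 : ((Finset.Icc (-(a:ℤ)) a).filter (fun b => IsCoprime (a:ℤ) b)).card ≤ 2 * a + 1 := by
        refine (Finset.card_filter_le _ _).trans ?_
        rw [Int.card_Icc]; omega
      have h2 : (((Finset.Icc (-(a:ℤ)) a).filter (fun b => IsCoprime (a:ℤ) b)).card : ℝ) ≤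
          2 * a + 1 := by exact_mod_cast h1
      linarith
    calc _ ≤ ∑ b ∈ (Finset.Icc (-(a:ℤ)) a).filter (fun b => IsCoprime (a:ℤ) b),
          c * ((H:ℝ) ^ (d + 1) * P ^ 2 + (H:ℝ) ^ (2 * d + 1) * ((a:ℝ) ^ d)⁻¹ * (3 * a * P)) :=
          Finset.sum_le_sum (hq a ha)
      _ = (((Finset.Icc (-(a:ℤ)) a).filter (fun b => IsCoprime (a:ℤ) b)).card : ℝ) *
          (c * ((H:ℝ) ^ (d + 1) * P ^ 2 +
            (H:ℝ) ^ (2 * d + 1) * ((a:ℝ) ^ d)⁻¹ * (3 * a * P))) := by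
          rw [Finset.sum_const, nsmul_eq_mul]
      _ ≤ (3 * a) * (c * ((H:ℝ) ^ (d + 1) * P ^ 2 +
            (H:ℝ) ^ (2 * d + 1) * ((a:ℝ) ^ d)⁻¹ * (3 * a * P))) := by
          gcongr
      _ = c * (3 * (a * ((H:ℝ) ^ (d + 1) * P ^ 2)) +
            9 * ((H:ℝ) ^ (2 * d + 1) * P * (a ^ 2 * ((a:ℝ) ^ d)⁻¹))) := by ring
      _ ≤ c * (9 * (B0 * ((H:ℝ) ^ (d + 1) * P ^ 2)) +
            9 * ((H:ℝ) ^ (2 * d + 1) * P * ((a:ℝ))⁻¹)) := by
          have e1 : (a:ℝ) ^ 2 * ((a:ℝ) ^ d)⁻¹ ≤ ((a:ℝ))⁻¹ := by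
            obtain ⟨e, rfl⟩ := Nat.exists_eq_add_of_le hd
            rw [← div_eq_mul_inv, div_le_iff₀ (by positivity)]
            have : (a:ℝ) ^ 3 ≤ (a:ℝ) ^ (3 + e) := pow_le_pow_right₀ ha' (by omega)
            calc (a:ℝ) ^ 2 = ((a:ℝ))⁻¹ * a ^ 3 := by field_simp
              _ ≤ _ := by gcongr
          have e2 : 3 * ((a:ℝ) * ((H:ℝ) ^ (d + 1) * P ^ 2)) ≤
              9 * ((B0:ℝ) * ((H:ℝ) ^ (d + 1) * P ^ 2)) := by
            have : (0:ℝ) ≤ (H:ℝ) ^ (d + 1) * P ^ 2 := by positivity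
            nlinarith
          gcongr
      _ = _ := by ring
  calc _ ≤ ∑ a ∈ Finset.Icc 1 B0, 9 * c * ((B0:ℝ) * ((H:ℝ) ^ (d + 1) * P ^ 2) +
          (H:ℝ) ^ (2 * d + 1) * P * ((a:ℝ))⁻¹) := Finset.sum_le_sum hb
    _ = 9 * c * ((B0:ℝ) * ((B0:ℝ) * ((H:ℝ) ^ (d + 1) * P ^ 2)) +
          (H:ℝ) ^ (2 * d + 1) * P * ∑ a ∈ Finset.Icc 1 B0, ((a:ℝ))⁻¹) := by
        rw [← Finset.mul_sum, Finset.sum_add_distrib, Finset.mul_sum (Finset.Icc 1 B0)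
          (fun a : ℕ => ((a:ℝ))⁻¹)]
        simp only [Finset.sum_const, Nat.card_Icc, nsmul_eq_mul, add_tsub_cancel_right]
    _ ≤ 9 * c * ((B0:ℝ) * ((B0:ℝ) * ((H:ℝ) ^ (d + 1) * P ^ 2)) +
          (H:ℝ) ^ (2 * d + 1) * P * P) := by
        have := (sum_inv_le_rho B0).trans hP
        gcongr
    _ = _ := by ring

end

end Pool.Agent.W47.AM
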