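import Pool.Agent.W47.AM.PartC

/-! Large images: `|q| > 2H`. -/

set_option autoImplicit false

namespace Pool.Agent.W47.AM

noncomputable section

open Finset Classical

/-- region `D` -/
def InD {d : ℕ} (H B0 : ℕ) (w : Fin (d + 1) → ℤ × ℤ) : Prop :=
  ∃ a : ℕ, 1 ≤ a ∧ a ≤ B0 ∧ ∃ b : ℤ, |b| ≤ a ∧ IsCoprime (a:ℤ) b ∧
    ∃ q : ℤ × ℤ, IsCoprime q.1 q.2 ∧ 2 * H < nrm q ∧ nrm q ≤ a ∧ Rel w a b q

lemma L_ne_zero {q v : ℤ × ℤ} (hq : IsCoprime q.1 q.2) (hv : v ≠ 0) (h : nrm v < nrm q) :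
    L q v ≠ 0 := by
  intro hm
  obtain ⟨k, hk1, hk2⟩ := exists_mul hq hm
  have hk0 : k ≠ 0 := by
    rintro rfl
    apply hv
    exact Prod.ext (by simpa using hk1) (by simpa using hk2)
  have hk1' : 1 ≤ |k| := Int.one_le_abs hk0
  have h1' : |q.1| ≤ |v.1| := by
    rw [hk1, abs_mul]; nlinarith [abs_nonneg q.1]
  have h2' : |q.2| ≤ |v.2| := by
    rw [hk2, abs_mul]; nlinarith [abs_nonneg q.2]
  have : nrm q ≤ nrm v := by
    simp only [nrm]
    exact max_le_max (na h1') (na h2')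
  omega

lemma card_int_divisors {r : ℤ} (hr : r ≠ 0) (S : Finset ℤ) (hS : ∀ b ∈ S, b ∣ r) :
    S.card ≤ 2 * r.natAbs.divisors.card := by
  have hsub : S ⊆ r.natAbs.divisors.image (fun n : ℕ => (n : ℤ)) ∪
      r.natAbs.divisors.image (fun n : ℕ => -(n : ℤ)) := by
    intro b hb
    have h1 : b.natAbs ∈ r.natAbs.divisors := by
      rw [Nat.mem_divisors]
      exact ⟨Int.natAbs_dvd_natAbs.mpr (hS b hb), Int.natAbs_ne_zero.mpr hr⟩
    rw [Finset.mem_union, Finset.mem_image, Finset.mem_image]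
    rcases le_total 0 b with h | h
    · left; exact ⟨b.natAbs, h1, by omega⟩
    · right; exact ⟨b.natAbs, h1, by omega⟩
  refine (Finset.card_le_card hsub).trans ((Finset.card_union_le _ _).trans ?_)
  have e1 := Finset.card_image_le (s := r.natAbs.divisors) (f := fun n : ℕ => (n : ℤ))
  have e2 := Finset.card_image_le (s := r.natAbs.divisors) (f := fun n : ℕ => -(n : ℤ))
  omega

lemma card_nat_divisors {r : ℤ} (hr : r ≠ 0) (S : Finset ℕ) (hS : ∀ b ∈ S, (b:ℤ) ∣ r) :
    S.card ≤ r.natAbs.divisors.card := by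
  apply Finset.card_le_card
  intro b hb
  rw [Nat.mem_divisors]
  exact ⟨by simpa using Int.natAbs_dvd_natAbs.mpr (hS b hb), Int.natAbs_ne_zero.mpr hr⟩

lemma natAbs_L_le {q v : ℤ × ℤ} {B K : ℕ} (hq : nrm q ≤ B) (hv : nrm v ≤ K) :
    (L q v).natAbs ≤ 2 * B * K := by
  have h1 := L_abs_le q v
  rw [Int.abs_eq_natAbs] at h1
  have h2 : (L q v).natAbs ≤ 2 * nrm q * nrm v := by exact_mod_cast h1
  refine h2.trans ?_
  exact Nat.mul_le_mul (Nat.mul_le_mul_left _ hq) hv

lemma V_pow_le {H a k : ℕ} (ha : 1 ≤ a) {q : ℤ × ℤ} (hq : IsCoprime q.1 q.2) :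
    ((V H a q).card : ℝ) ^ k ≤ 3 ^ k * (1 + (48 * (H:ℝ) ^ 2 / a) ^ k +
      ∑ v ∈ (V H a q).filter (fun v => v ≠ 0), (4 * (H:ℝ) / nrm v) ^ k) := by
  have ha' : (1:ℝ) ≤ a := by exact_mod_cast ha
  have hs : 0 ≤ ∑ v ∈ (V H a q).filter (fun v => v ≠ 0), (4 * (H:ℝ) / nrm v) ^ k :=
    Finset.sum_nonneg fun v _ => by positivity
  have h3 : (1:ℝ) ≤ 3 ^ k := one_le_pow₀ (by norm_num)
  have hx : (0:ℝ) ≤ (48 * (H:ℝ) ^ 2 / a) ^ k := by positivity
  rcases V_card_lat (H := H) (a := a) (by omega) hq with h | ⟨v0, hv0, hv1, h⟩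
  · have h' : ((V H a q).card : ℝ) ≤ 1 := by exact_mod_cast h
    calc ((V H a q).card : ℝ) ^ k ≤ 1 := pow_le_one₀ (by positivity) h'
      _ ≤ 3 ^ k * 1 := by linarith
      _ ≤ _ := by gcongr; linarith
  · have hl : (1:ℝ) ≤ nrm v0 := by exact_mod_cast nrm_pos hv1
    have hl2 : (nrm v0 : ℝ) ≤ 2 * H := by
      exact_mod_cast mem_bx'.mp (Finset.mem_filter.mp hv0).1
    have h4 : ((V H a q).card : ℝ) ≤
        (2 * ((4 * H * nrm v0 / a : ℕ) : ℝ) + 1) * (((4 * H / nrm v0 : ℕ) : ℝ) + 1) := by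
      exact_mod_cast h
    have h5 : ((4 * H * nrm v0 / a : ℕ) : ℝ) ≤ 4 * H * nrm v0 / a := by
      refine Nat.cast_div_le.trans ?_
      push_cast; exact le_rfl
    have h6 : ((4 * H / nrm v0 : ℕ) : ℝ) ≤ 4 * H / nrm v0 := by
      refine Nat.cast_div_le.trans ?_
      push_cast; exact le_rfl
    have h7 : ((V H a q).card : ℝ) ≤ 1 + 48 * (H:ℝ) ^ 2 / a + 4 * H / nrm v0 := by
      refine h4.trans ?_
      calc (2 * ((4 * H * nrm v0 / a : ℕ) : ℝ) + 1) * (((4 * H / nrm v0 : ℕ) : ℝ) + 1)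
          ≤ (2 * (4 * H * nrm v0 / a) + 1) * (4 * H / nrm v0 + 1) := by gcongr
        _ = 1 + 4 * H / nrm v0 + 8 * H * nrm v0 / a + 32 * (H:ℝ) ^ 2 / a := by
          field_simp; ring
        _ ≤ 1 + 4 * H / nrm v0 + 8 * H * (2 * H) / a + 32 * (H:ℝ) ^ 2 / a := by gcongr
        _ = _ := by ring
    calc ((V H a q).card : ℝ) ^ k ≤ (1 + 48 * (H:ℝ) ^ 2 / a + 4 * H / nrm v0) ^ k := by gcongr
      _ ≤ 3 ^ k * (1 ^ k + (48 * (H:ℝ) ^ 2 / a) ^ k + (4 * H / nrm v0) ^ k) :=
          three_pow_le (by norm_num) (by positivity) (by positivity) k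
      _ ≤ _ := by
          rw [one_pow]
          have : (4 * (H:ℝ) / nrm v0) ^ k ≤
              ∑ v ∈ (V H a q).filter (fun v => v ≠ 0), (4 * (H:ℝ) / nrm v) ^ k :=
            Finset.single_le_sum (f := fun v : ℤ × ℤ => (4 * (H:ℝ) / nrm v) ^ k)
              (fun v _ => by positivity) (Finset.mem_filter.mpr ⟨hv0, hv1⟩)
          gcongr

lemma sumV {H B0 k : ℕ} (hk : 2 ≤ k) (hH : 1 ≤ H) (hB0 : 1 ≤ B0) {P : ℝ} (hP : rho (2 * H) ≤ P) {D : ℕ}
    (hD : ∀ n, 0 < n → n ≤ 4 * B0 * H → n.divisors.card ≤ D) :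
    ∑ a ∈ Finset.Icc 1 B0, ∑ q ∈ (bx a).filter (fun q => IsCoprime q.1 q.2 ∧ 2 * H < nrm q),
      ((V H a q).card : ℝ) ^ k ≤
    3 ^ k * (9 * (B0:ℝ) ^ 3 + 9 * 48 ^ 2 * 24 ^ (k - 2) * (H:ℝ) ^ (k + 2) * B0 +
      9 * (B0:ℝ) ^ 2 * (4 * (H:ℝ)) ^ k * P ^ 2 * D) := by
  have hH' : (1:ℝ) ≤ H := by exact_mod_cast hH
  have hcardq : ∀ a ∈ Finset.Icc 1 B0,
      (((bx a).filter (fun q => IsCoprime q.1 q.2 ∧ 2 * H < nrm q)).card : ℝ) ≤ 9 * (a:ℝ) ^ 2 := by
    intro a ha
    have ha' : (1:ℝ) ≤ a := by exact_mod_cast (Finset.mem_Icc.mp ha).1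
    have h1 := (Finset.card_filter_le (bx a) (fun q => IsCoprime q.1 q.2 ∧ 2 * H < nrm q))
    rw [card_bx] at h1
    have h2 : (((bx a).filter (fun q => IsCoprime q.1 q.2 ∧ 2 * H < nrm q)).card : ℝ) ≤
        (2 * (a:ℝ) + 1) ^ 2 := by exact_mod_cast h1
    nlinarith
  -- the three parts
  have hA : ∑ a ∈ Finset.Icc 1 B0, ∑ q ∈ (bx a).filter (fun q => IsCoprime q.1 q.2 ∧ 2 * H < nrm q),
      (1 : ℝ) ≤ 9 * (B0:ℝ) ^ 3 := by
    calc _ ≤ ∑ a ∈ Finset.Icc 1 B0, 9 * (B0:ℝ) ^ 2 := by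
          apply Finset.sum_le_sum
          intro a ha
          rw [Finset.sum_const, nsmul_eq_mul, mul_one]
          refine (hcardq a ha).trans ?_
          have : (a:ℝ) ≤ B0 := by exact_mod_cast (Finset.mem_Icc.mp ha).2
          gcongr
      _ = _ := by
          rw [Finset.sum_const, Nat.card_Icc, nsmul_eq_mul, add_tsub_cancel_right]; ring
  have hB : ∑ a ∈ Finset.Icc 1 B0, ∑ q ∈ (bx a).filter (fun q => IsCoprime q.1 q.2 ∧ 2 * H < nrm q),
      (48 * (H:ℝ) ^ 2 / a) ^ k ≤ 9 * 48 ^ 2 * 24 ^ (k - 2) * (H:ℝ) ^ (k + 2) * B0 := by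
    calc _ ≤ ∑ a ∈ Finset.Icc 1 B0, 9 * 48 ^ 2 * 24 ^ (k - 2) * (H:ℝ) ^ (k + 2) := by
          apply Finset.sum_le_sum
          intro a ha
          have ha' : (1:ℝ) ≤ a := by exact_mod_cast (Finset.mem_Icc.mp ha).1
          rw [Finset.sum_const, nsmul_eq_mul]
          by_cases hne : ((bx a).filter (fun q => IsCoprime q.1 q.2 ∧ 2 * H < nrm q)).card = 0
          · rw [hne]; simp; positivity
          · obtain ⟨q, hq⟩ := Finset.card_pos.mp (Nat.pos_of_ne_zero hne)
            rw [Finset.mem_filter] at hq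
            have h1 := mem_bx'.mp hq.1
            have h2 : 2 * (H:ℝ) ≤ a := by
              have : 2 * H ≤ a := by omega
              exact_mod_cast this
            obtain ⟨m, rfl⟩ := Nat.exists_eq_add_of_le hk
            have e1 : (48 * (H:ℝ) ^ 2 / a) ≤ 24 * H := by
              rw [div_le_iff₀ (by linarith)]
              nlinarith
            calc (((bx a).filter (fun q => IsCoprime q.1 q.2 ∧ 2 * H < nrm q)).card : ℝ) *
                  (48 * (H:ℝ) ^ 2 / a) ^ (2 + m)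
                ≤ (9 * (a:ℝ) ^ 2) * ((48 * (H:ℝ) ^ 2 / a) ^ 2 * (24 * H) ^ m) := by
                  rw [pow_add]
                  gcongr
                  exact hcardq a ha
              _ = 9 * 48 ^ 2 * 24 ^ (2 + m - 2) * (H:ℝ) ^ (2 + m + 2) := by
                  rw [Nat.add_sub_cancel_left]
                  have : (a:ℝ) ≠ 0 := by positivity
                  field_simp
                  ring
      _ = _ := by
          rw [Finset.sum_const, Nat.card_Icc, nsmul_eq_mul, add_tsub_cancel_right]; ring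
  have hC : ∑ a ∈ Finset.Icc 1 B0, ∑ q ∈ (bx a).filter (fun q => IsCoprime q.1 q.2 ∧ 2 * H < nrm q),
      ∑ v ∈ (V H a q).filter (fun v => v ≠ 0), (4 * (H:ℝ) / nrm v) ^ k ≤
      9 * (B0:ℝ) ^ 2 * (4 * (H:ℝ)) ^ k * P ^ 2 * D := by
    calc _ ≤ ∑ a ∈ Finset.Icc 1 B0,
          ∑ q ∈ (bx B0).filter (fun q => IsCoprime q.1 q.2 ∧ 2 * H < nrm q),
          ∑ v ∈ (bx (2 * H)).filter (fun v => v ≠ 0),
            (4 * (H:ℝ)) ^ k * ((mx v.1)⁻¹ * (mx v.2)⁻¹) * (if (a:ℤ) ∣ L q v then 1 else 0) := by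
          apply Finset.sum_le_sum
          intro a ha
          have hsub : (bx a).filter (fun q => IsCoprime q.1 q.2 ∧ 2 * H < nrm q) ⊆
              (bx B0).filter (fun q => IsCoprime q.1 q.2 ∧ 2 * H < nrm q) := by
            intro q hq
            rw [Finset.mem_filter] at hq ⊢
            exact ⟨mem_bx'.mpr ((mem_bx'.mp hq.1).trans (Finset.mem_Icc.mp ha).2), hq.2⟩
          refine le_trans ?_ (Finset.sum_le_sum_of_subset_of_nonneg hsub ?_)
          · apply Finset.sum_le_sum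
            intro q hq
            have e : (V H a q).filter (fun v => v ≠ 0) =
                ((bx (2 * H)).filter (fun v => v ≠ 0)).filter (fun v => (a:ℤ) ∣ L q v) := by
              ext v
              simp only [V, Finset.mem_filter]
              tauto
            rw [e, Finset.sum_filter]
            apply Finset.sum_le_sum
            intro v hv
            rw [Finset.mem_filter] at hv
            split_ifs with hdv
            · rw [mul_one, div_pow, div_eq_mul_inv]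
              have := inv_nrm_pow_le hv.2 hk
              gcongr
            · simp
          · intro q _ _
            apply Finset.sum_nonneg
            intro v _
            have := mx_pos v.1
            have := mx_pos v.2
            split_ifs
            · positivity
            · simp
      _ = ∑ q ∈ (bx B0).filter (fun q => IsCoprime q.1 q.2 ∧ 2 * H < nrm q),
          ∑ v ∈ (bx (2 * H)).filter (fun v => v ≠ 0),
            (4 * (H:ℝ)) ^ k * ((mx v.1)⁻¹ * (mx v.2)⁻¹) *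
              ∑ a ∈ Finset.Icc 1 B0, (if (a:ℤ) ∣ L q v then (1:ℝ) else 0) := by
          rw [Finset.sum_comm]
          apply Finset.sum_congr rfl
          intro q _
          rw [Finset.sum_comm]
          apply Finset.sum_congr rfl
          intro v _
          rw [Finset.mul_sum]
      _ ≤ ∑ q ∈ (bx B0).filter (fun q => IsCoprime q.1 q.2 ∧ 2 * H < nrm q),
          ∑ v ∈ (bx (2 * H)).filter (fun v => v ≠ 0),
            (4 * (H:ℝ)) ^ k * ((mx v.1)⁻¹ * (mx v.2)⁻¹) * D := by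
          apply Finset.sum_le_sum
          intro q hq
          apply Finset.sum_le_sum
          intro v hv
          rw [Finset.mem_filter] at hq hv
          have hv1 := mem_bx'.mp hv.1
          have hq1 := mem_bx'.mp hq.1
          have hL := L_ne_zero hq.2.1 hv.2 (by omega)
          have := mx_pos v.1
          have := mx_pos v.2
          have hcount : ∑ a ∈ Finset.Icc 1 B0, (if (a:ℤ) ∣ L q v then (1:ℝ) else 0) ≤ D := by
            rw [Finset.sum_boole]
            have h1 := card_nat_divisors hL ((Finset.Icc 1 B0).filter (fun a : ℕ => (a:ℤ) ∣ L q v))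
              (fun b hb => (Finset.mem_filter.mp hb).2)
            have h2 := hD (L q v).natAbs (Int.natAbs_pos.mpr hL)
              ((natAbs_L_le hq1 hv1).trans (le_of_eq (by ring)))
            exact_mod_cast h1.trans h2
          gcongr
      _ ≤ ∑ q ∈ bx B0, ∑ v ∈ bx (2 * H),
            (4 * (H:ℝ)) ^ k * ((mx v.1)⁻¹ * (mx v.2)⁻¹) * D := by
          refine (Finset.sum_le_sum_of_subset_of_nonneg (Finset.filter_subset _ _) ?_).trans ?_
          · intro q _ _
            apply Finset.sum_nonneg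
            intro v _
            have := mx_pos v.1
            have := mx_pos v.2
            positivity
          · apply Finset.sum_le_sum
            intro q _
            apply Finset.sum_le_sum_of_subset_of_nonneg (Finset.filter_subset _ _)
            intro v _ _
            have := mx_pos v.1
            have := mx_pos v.2
            positivity
      _ = (2 * (B0:ℝ) + 1) ^ 2 * ((4 * (H:ℝ)) ^ k * rho (2 * H) ^ 2 * D) := by
          rw [Finset.sum_const, card_bx, nsmul_eq_mul, ← Finset.sum_mul, ← Finset.mul_sum,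
            sum_bx_mul]
          push_cast; ring
      _ ≤ (9 * (B0:ℝ) ^ 2) * ((4 * (H:ℝ)) ^ k * P ^ 2 * D) := by
          have : (1:ℝ) ≤ B0 := by exact_mod_cast hB0
          have hr := rho_nonneg (2 * H)
          gcongr
          nlinarith
      _ = _ := by ring
  calc _ ≤ ∑ a ∈ Finset.Icc 1 B0,
        ∑ q ∈ (bx a).filter (fun q => IsCoprime q.1 q.2 ∧ 2 * H < nrm q),
        3 ^ k * (1 + (48 * (H:ℝ) ^ 2 / a) ^ k +
      ∑ v ∈ (V H a q).filter (fun v => v ≠ 0), (4 * (H:ℝ) / nrm v) ^ k) := by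
        apply Finset.sum_le_sum
        intro a ha
        apply Finset.sum_le_sum
        intro q hq
        exact V_pow_le (Finset.mem_Icc.mp ha).1 (Finset.mem_filter.mp hq).2.1
    _ = 3 ^ k * (∑ a ∈ Finset.Icc 1 B0,
        ∑ q ∈ (bx a).filter (fun q => IsCoprime q.1 q.2 ∧ 2 * H < nrm q), (1:ℝ) +
        ∑ a ∈ Finset.Icc 1 B0,
        ∑ q ∈ (bx a).filter (fun q => IsCoprime q.1 q.2 ∧ 2 * H < nrm q),
          (48 * (H:ℝ) ^ 2 / a) ^ k +
        ∑ a ∈ Finset.Icc 1 B0,
        ∑ q ∈ (bx a).filter (fun q => IsCoprime q.1 q.2 ∧ 2 * H < nrm q),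
      ∑ v ∈ (V H a q).filter (fun v => v ≠ 0), (4 * (H:ℝ) / nrm v) ^ k) := by
        simp only [← Finset.mul_sum, Finset.sum_add_distrib]
    _ ≤ _ := by gcongr

lemma inD_cover {d H B0 : ℕ} :
    (boxw d H).filter (fun w => InD H B0 w ∧ w (Fin.last d) ≠ 0) ⊆
      (Finset.Icc 1 B0).biUnion fun a =>
        ((bx a).filter (fun q => IsCoprime q.1 q.2 ∧ 2 * H < nrm q)).biUnion fun q =>
          ((bx H).filter (fun v => v ≠ 0)).biUnion fun v =>
            ((Finset.Icc (-(a:ℤ)) a).filter (fun b => IsCoprime (a:ℤ) b ∧ b ∣ L q v)).biUnion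
              fun b => (boxw d H).filter (fun w => Rel w a b q ∧ w (Fin.last d) = v) := by
  intro w hw
  rw [Finset.mem_filter] at hw
  obtain ⟨hw, ⟨a, ha1, ha2, b, hb, hab, q, hq, hq1, hq2, hrel⟩, hlast⟩ := hw
  simp only [Finset.mem_biUnion]
  refine ⟨a, Finset.mem_Icc.mpr ⟨ha1, ha2⟩, q, ?_, w (Fin.last d), ?_, b, ?_, ?_⟩
  · rw [Finset.mem_filter]
    exact ⟨mem_bx'.mpr hq2, hq, hq1⟩
  · rw [Finset.mem_filter]
    exact ⟨mem_boxw.mp hw _, hlast⟩
  · rw [Finset.mem_filter, Finset.mem_Icc]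
    exact ⟨abs_le.mp hb, hab, top_dvd hab hrel⟩
  · rw [Finset.mem_filter]
    exact ⟨hw, hrel, rfl⟩

theorem partD {e H B0 : ℕ} (he : 2 ≤ e) (hH : 1 ≤ H) (hB0 : 1 ≤ B0) {P : ℝ}
    (hP : rho (2 * H) ≤ P) {D : ℕ} (hD : ∀ n, 0 < n → n ≤ 4 * B0 * H → n.divisors.card ≤ D) :
    (((boxw (e + 1) H).filter (fun w => InD H B0 w ∧ w (Fin.last (e + 1)) ≠ 0)).card : ℝ) ≤
      9 * (H:ℝ) ^ 2 * (2 * D) *
        (3 ^ e * (9 * (B0:ℝ) ^ 3 + 9 * 48 ^ 2 * 24 ^ (e - 2) * (H:ℝ) ^ (e + 2) * B0 +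
      9 * (B0:ℝ) ^ 2 * (4 * (H:ℝ)) ^ e * P ^ 2 * D)) := by
  have hH' : (1:ℝ) ≤ H := by exact_mod_cast hH
  have hcover : (((boxw (e + 1) H).filter
      (fun w => InD H B0 w ∧ w (Fin.last (e + 1)) ≠ 0)).card : ℝ) ≤
      ∑ a ∈ Finset.Icc 1 B0, ∑ q ∈ (bx a).filter (fun q => IsCoprime q.1 q.2 ∧ 2 * H < nrm q),
        ∑ v ∈ (bx H).filter (fun v => v ≠ 0),
        ∑ b ∈ (Finset.Icc (-(a:ℤ)) a).filter (fun b => IsCoprime (a:ℤ) b ∧ b ∣ L q v),
          (((boxw (e + 1) H).filter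
            (fun w => Rel w a b q ∧ w (Fin.last (e + 1)) = v)).card : ℝ) := by
    have h1 := Finset.card_le_card (inD_cover (d := e + 1) (H := H) (B0 := B0))
    have h2 : ((boxw (e + 1) H).filter
      (fun w => InD H B0 w ∧ w (Fin.last (e + 1)) ≠ 0)).card ≤
      ∑ a ∈ Finset.Icc 1 B0, ∑ q ∈ (bx a).filter (fun q => IsCoprime q.1 q.2 ∧ 2 * H < nrm q),
        ∑ v ∈ (bx H).filter (fun v => v ≠ 0),
        ∑ b ∈ (Finset.Icc (-(a:ℤ)) a).filter (fun b => IsCoprime (a:ℤ) b ∧ b ∣ L q v),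
          ((boxw (e + 1) H).filter
            (fun w => Rel w a b q ∧ w (Fin.last (e + 1)) = v)).card := by
      refine h1.trans (Finset.card_biUnion_le.trans ?_)
      apply Finset.sum_le_sum; intro a _
      refine Finset.card_biUnion_le.trans ?_
      apply Finset.sum_le_sum; intro b _
      refine Finset.card_biUnion_le.trans ?_
      apply Finset.sum_le_sum; intro c _
      exact Finset.card_biUnion_le
    exact_mod_cast h2
  refine hcover.trans ?_
  have hinner : ∀ a ∈ Finset.Icc 1 B0,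
      ∀ q ∈ (bx a).filter (fun q => IsCoprime q.1 q.2 ∧ 2 * H < nrm q),
      ∀ v ∈ (bx H).filter (fun v => v ≠ 0),
        ∑ b ∈ (Finset.Icc (-(a:ℤ)) a).filter (fun b => IsCoprime (a:ℤ) b ∧ b ∣ L q v),
          (((boxw (e + 1) H).filter
            (fun w => Rel w a b q ∧ w (Fin.last (e + 1)) = v)).card : ℝ) ≤
        (2 * D) * ((V H a q).card : ℝ) ^ e := by
    intro a ha q hq v hv
    rw [Finset.mem_Icc] at ha
    rw [Finset.mem_filter] at hq hv
    have hq1 := mem_bx'.mp hq.1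
    have hv1 := mem_bx'.mp hv.1
    have hL := L_ne_zero hq.2.1 hv.2 (by omega)
    calc ∑ b ∈ (Finset.Icc (-(a:ℤ)) a).filter (fun b => IsCoprime (a:ℤ) b ∧ b ∣ L q v),
          (((boxw (e + 1) H).filter
            (fun w => Rel w a b q ∧ w (Fin.last (e + 1)) = v)).card : ℝ)
        ≤ ∑ b ∈ (Finset.Icc (-(a:ℤ)) a).filter (fun b => IsCoprime (a:ℤ) b ∧ b ∣ L q v),
          ((V H a q).card : ℝ) ^ e := by
          apply Finset.sum_le_sum
          intro b hb
          rw [Finset.mem_filter] at hb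
          have hb0 : b ≠ 0 := by
            rintro rfl
            have : IsUnit (a:ℤ) := by
              have := hb.2.1
              rwa [isCoprime_zero_right] at this
            rw [Int.isUnit_iff] at this
            omega
          have h1 := solD_le (H := H) hb.2.1 (by omega : (a:ℤ) ≠ 0) hb0 v
            ((boxw (e + 1) H).filter (fun w => Rel w a b q ∧ w (Fin.last (e + 1)) = v))
            (fun w hw => Finset.mem_filter.mp hw)
          have h2 := V0_card_one (H := H) hq.2.1 hq.2.2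
          have h3 : ((boxw (e + 1) H).filter
              (fun w => Rel w a b q ∧ w (Fin.last (e + 1)) = v)).card ≤ (V H a q).card ^ e * 1 :=
            h1.trans (Nat.mul_le_mul_left _ h2)
          rw [mul_one] at h3
          exact_mod_cast h3
      _ = ((((Finset.Icc (-(a:ℤ)) a).filter
            (fun b => IsCoprime (a:ℤ) b ∧ b ∣ L q v)).card : ℕ) : ℝ) *
          ((V H a q).card : ℝ) ^ e := by rw [Finset.sum_const, nsmul_eq_mul]
      _ ≤ _ := by
          have h1 := card_int_divisors hL ((Finset.Icc (-(a:ℤ)) a).filter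
            (fun b => IsCoprime (a:ℤ) b ∧ b ∣ L q v)) (fun b hb => (Finset.mem_filter.mp hb).2.2)
          have h2 := hD (L q v).natAbs (Int.natAbs_pos.mpr hL)
            ((natAbs_L_le (hq1.trans ha.2) hv1).trans (by nlinarith))
          have h3 : ((((Finset.Icc (-(a:ℤ)) a).filter
            (fun b => IsCoprime (a:ℤ) b ∧ b ∣ L q v)).card : ℕ) : ℝ) ≤ 2 * D := by
            exact_mod_cast h1.trans (Nat.mul_le_mul_left 2 h2)
          gcongr
  have hcardv : (((bx H).filter (fun v => v ≠ 0)).card : ℝ) ≤ 9 * (H:ℝ) ^ 2 := by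
    have h1 := Finset.card_filter_le (bx H) (fun v => v ≠ 0)
    rw [card_bx] at h1
    have h2 : (((bx H).filter (fun v => v ≠ 0)).card : ℝ) ≤ (2 * (H:ℝ) + 1) ^ 2 := by
      exact_mod_cast h1
    nlinarith
  calc _ ≤ ∑ a ∈ Finset.Icc 1 B0,
        ∑ q ∈ (bx a).filter (fun q => IsCoprime q.1 q.2 ∧ 2 * H < nrm q),
        ∑ v ∈ (bx H).filter (fun v => v ≠ 0), (2 * D) * ((V H a q).card : ℝ) ^ e := by
        apply Finset.sum_le_sum; intro a ha
        apply Finset.sum_le_sum; intro q hq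
        apply Finset.sum_le_sum; intro v hv
        exact hinner a ha q hq v hv
    _ = ((bx H).filter (fun v => v ≠ 0)).card * (2 * D) * ∑ a ∈ Finset.Icc 1 B0,
        ∑ q ∈ (bx a).filter (fun q => IsCoprime q.1 q.2 ∧ 2 * H < nrm q),
          ((V H a q).card : ℝ) ^ e := by
        rw [Finset.mul_sum]
        apply Finset.sum_congr rfl; intro a _
        rw [Finset.mul_sum]
        apply Finset.sum_congr rfl; intro q _
        rw [Finset.sum_const, nsmul_eq_mul]; ring
    _ ≤ _ := by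
        have := sumV he hH hB0 hP hD
        have hs : 0 ≤ ∑ a ∈ Finset.Icc 1 B0,
          ∑ q ∈ (bx a).filter (fun q => IsCoprime q.1 q.2 ∧ 2 * H < nrm q),
            ((V H a q).card : ℝ) ^ e :=
          Finset.sum_nonneg fun a _ => Finset.sum_nonneg fun q _ => by positivity
        gcongr

end

end Pool.Agent.W47.AM
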