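import Pool.Agent.W47.AM.Lin
import Pool.Agent.W47.AM.Dual3

/-! Counting pairs of forms with a dual vector. -/

set_option autoImplicit false

namespace Pool.Agent.W47.AM

noncomputable section

open Finset Classical

/-- sup norm on `ℤ⁴` -/
def nrm4 (y : Fin 4 → ℤ) : ℕ := Finset.univ.sup fun i => (y i).natAbs

/-- the box in `ℤ⁴` -/
def bx4 (Y : ℕ) : Finset (Fin 4 → ℤ) := Fintype.piFinset fun _ => Finset.Icc (-(Y:ℤ)) Y

lemma mem_bx4 {Y : ℕ} {y : Fin 4 → ℤ} : y ∈ bx4 Y ↔ ∀ i, |y i| ≤ Y := by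
  simp [bx4, Fintype.mem_piFinset, abs_le]

lemma mem_bx4' {Y : ℕ} {y : Fin 4 → ℤ} : y ∈ bx4 Y ↔ nrm4 y ≤ Y := by
  rw [mem_bx4, nrm4, Finset.sup_le_iff]
  constructor
  · intro h i _
    have := h i
    rw [Int.abs_eq_natAbs] at this
    exact_mod_cast this
  · intro h i
    have := h i (Finset.mem_univ i)
    rw [Int.abs_eq_natAbs]
    exact_mod_cast this

lemma natAbs_le_nrm4 (y : Fin 4 → ℤ) (i : Fin 4) : (y i).natAbs ≤ nrm4 y :=
  Finset.le_sup (f := fun i => (y i).natAbs) (Finset.mem_univ i)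

lemma exists_nrm4 (y : Fin 4 → ℤ) : ∃ i, nrm4 y = (y i).natAbs := by
  obtain ⟨i, _, hi⟩ := Finset.exists_mem_eq_sup Finset.univ Finset.univ_nonempty
    (fun i => (y i).natAbs)
  exact ⟨i, hi⟩

lemma nrm4_pos {y : Fin 4 → ℤ} (hy : y ≠ 0) : 1 ≤ nrm4 y := by
  by_contra h
  apply hy
  funext i
  have := natAbs_le_nrm4 y i
  have : (y i).natAbs = 0 := by omega
  exact Int.natAbs_eq_zero.mp this

lemma ne_zero_of_gcd {y : Fin 4 → ℤ} (hy : Finset.univ.gcd y = 1) : y ≠ 0 := by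
  rintro rfl
  have h : Finset.univ.gcd (0 : Fin 4 → ℤ) = 0 := Finset.gcd_eq_zero_iff.mpr (fun _ _ => rfl)
  rw [h] at hy
  exact zero_ne_one hy

/-- push forward of `y` along `j` -/
def pf {d : ℕ} (j : Fin 4 → Fin (d + 1)) (y : Fin 4 → ℤ) (k : Fin (d + 1)) : ℤ :=
  ∑ i, if j i = k then y i else 0

lemma pf_apply {d : ℕ} {j : Fin 4 → Fin (d + 1)} (hj : Function.Injective j) (y : Fin 4 → ℤ)
    (i : Fin 4) : pf j y (j i) = y i := by
  unfold pf
  rw [Finset.sum_eq_single i]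
  · simp
  · intro i' _ hi'
    rw [if_neg (fun h => hi' (hj h))]
  · simp

lemma pf_sum {d : ℕ} (j : Fin 4 → Fin (d + 1)) (y : Fin 4 → ℤ) (f : Fin (d + 1) → ℤ) :
    ∑ k, pf j y k * f k = ∑ i, y i * f (j i) := by
  unfold pf
  simp only [Finset.sum_mul]
  rw [Finset.sum_comm]
  apply Finset.sum_congr rfl
  intro i _
  simp [ite_mul]

lemma pf_gcd {d : ℕ} {j : Fin 4 → Fin (d + 1)} (hj : Function.Injective j) {y : Fin 4 → ℤ}
    (hy : Finset.univ.gcd y = 1) : Finset.univ.gcd (pf j y) = 1 := by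
  rw [← hy]
  apply dvd_antisymm_of_normalize_eq
  · exact Finset.normalize_gcd
  · exact Finset.normalize_gcd
  · apply Finset.dvd_gcd
    intro i _
    rw [← pf_apply hj y i]
    exact Finset.gcd_dvd (Finset.mem_univ _)
  · apply Finset.dvd_gcd
    intro k _
    unfold pf
    apply Finset.dvd_sum
    intro i _
    split_ifs
    · exact Finset.gcd_dvd (Finset.mem_univ _)
    · exact dvd_zero _

/-- the number of solutions -/
lemma NN_bound {d H : ℕ} (hH : 1 ≤ H) {j : Fin 4 → Fin (d + 1)} (hj : Function.Injective j)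
    {y : Fin 4 → ℤ} (hy : Finset.univ.gcd y = 1) :
    (2 * (H:ℝ)) * ((lin H (pf j y)).card : ℝ) ≤
      (2 * (H:ℝ)) ^ (d + 1) / (nrm4 y : ℝ) + 2 ^ d * (2 * (H:ℝ)) ^ d := by
  obtain ⟨i, hi⟩ := exists_nrm4 y
  have hy0 : y ≠ 0 := ne_zero_of_gcd hy
  have h1 := nrm4_pos hy0
  have h2 : pf j y (j i) ≠ 0 := by
    rw [pf_apply hj]
    intro h0
    rw [h0] at hi
    simp at hi
    omega
  have := lin_card (H := H) (pf j y) (pf_gcd hj hy) h2 hH
  rw [pf_apply hj, ← hi] at this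
  exact this

/-- pairs of forms orthogonal to `y` -/
def Orth {d : ℕ} (j : Fin 4 → Fin (d + 1)) (y : Fin 4 → ℤ) (w : Fin (d + 1) → ℤ × ℤ) : Prop :=
  ∑ i, y i * (w (j i)).1 = 0 ∧ ∑ i, y i * (w (j i)).2 = 0

lemma card_orth {d H : ℕ} (j : Fin 4 → Fin (d + 1)) (y : Fin 4 → ℤ) :
    ((boxw d H).filter (fun w => Orth j y w)).card ≤ (lin H (pf j y)).card ^ 2 := by
  rw [sq, ← Finset.card_product]
  refine Finset.card_le_card_of_injOn (fun w => (fun i => (w i).1, fun i => (w i).2)) ?_ ?_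
  · intro w hw
    rw [Finset.mem_coe, Finset.mem_filter] at hw
    simp only [Finset.coe_product, Set.mem_prod, Finset.mem_coe]
    rw [mem_lin, mem_lin, pf_sum, pf_sum]
    refine ⟨⟨fun i => ?_, hw.2.1⟩, ⟨fun i => ?_, hw.2.2⟩⟩
    · exact (mem_bx.mp (mem_boxw.mp hw.1 i)).1
    · exact (mem_bx.mp (mem_boxw.mp hw.1 i)).2
  · intro w _ w' _ hww
    simp only [Prod.mk.injEq] at hww
    funext i
    exact Prod.ext (congrFun hww.1 i) (congrFun hww.2 i)

lemma orth_real {d H : ℕ} (hH : 1 ≤ H) {j : Fin 4 → Fin (d + 1)} (hj : Function.Injective j)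
    {y : Fin 4 → ℤ} (hy : Finset.univ.gcd y = 1) :
    (2 * (H:ℝ)) ^ 2 * (((boxw d H).filter (fun w => Orth j y w)).card : ℝ) ≤
      2 * ((2 * (H:ℝ)) ^ (2 * d + 2) * ((nrm4 y : ℝ) ^ 2)⁻¹ + 4 ^ d * (2 * (H:ℝ)) ^ (2 * d)) := by
  have h1 : (((boxw d H).filter (fun w => Orth j y w)).card : ℝ) ≤
      ((lin H (pf j y)).card : ℝ) ^ 2 := by exact_mod_cast card_orth j y
  have h2 := NN_bound hH hj hy
  have h0 : (0:ℝ) ≤ (2 * (H:ℝ)) * ((lin H (pf j y)).card : ℝ) := by positivity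
  calc (2 * (H:ℝ)) ^ 2 * (((boxw d H).filter (fun w => Orth j y w)).card : ℝ)
      ≤ (2 * (H:ℝ)) ^ 2 * ((lin H (pf j y)).card : ℝ) ^ 2 := by gcongr
    _ = ((2 * (H:ℝ)) * ((lin H (pf j y)).card : ℝ)) ^ 2 := by ring
    _ ≤ ((2 * (H:ℝ)) ^ (d + 1) / (nrm4 y : ℝ) + 2 ^ d * (2 * (H:ℝ)) ^ d) ^ 2 := by gcongr
    _ ≤ 2 * (((2 * (H:ℝ)) ^ (d + 1) / (nrm4 y : ℝ)) ^ 2 + (2 ^ d * (2 * (H:ℝ)) ^ d) ^ 2) := by
        nlinarith [sq_nonneg ((2 * (H:ℝ)) ^ (d + 1) / (nrm4 y : ℝ) - 2 ^ d * (2 * (H:ℝ)) ^ d)]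
    _ = _ := by
        have e : (4:ℝ) ^ d = (2 ^ d) ^ 2 := by rw [← pow_mul, mul_comm, pow_mul]; norm_num
        rw [e, div_pow, mul_pow (2 ^ d), ← pow_mul, ← pow_mul (2 * (H:ℝ)) d 2, div_eq_mul_inv]
        ring

lemma inv_nrm4_le {y : Fin 4 → ℤ} (hy : y ≠ 0) :
    ((nrm4 y : ℝ) ^ 2)⁻¹ ≤ (mx (y 0))⁻¹ * (mx (y 1))⁻¹ := by
  have h0 : (1 : ℝ) ≤ nrm4 y := by exact_mod_cast nrm4_pos hy
  have h : ∀ i, mx (y i) ≤ nrm4 y := by
    intro i
    refine max_le h0 ?_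
    have := natAbs_le_nrm4 y i
    have h2 : |y i| ≤ (nrm4 y : ℤ) := by rw [Int.abs_eq_natAbs]; exact_mod_cast this
    exact_mod_cast h2
  rw [← mul_inv]
  apply inv_anti₀ (mul_pos (mx_pos _) (mx_pos _))
  calc mx (y 0) * mx (y 1) ≤ nrm4 y * nrm4 y :=
        mul_le_mul (h 0) (h 1) (mx_pos _).le (by positivity)
    _ = (nrm4 y : ℝ) ^ 2 := by ring

lemma card_bx4 (Y : ℕ) : (bx4 Y).card = (2 * Y + 1) ^ 4 := by
  unfold bx4
  rw [Fintype.card_piFinset]
  simp only [Int.card_Icc, Finset.prod_const, Finset.card_univ, Fintype.card_fin]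
  congr 1
  omega

lemma sum_bx4 (Y : ℕ) : ∑ y ∈ bx4 Y, (mx (y 0))⁻¹ * (mx (y 1))⁻¹ = (2 * Y + 1) ^ 2 * rho Y ^ 2 := by
  have h : ∀ y : Fin 4 → ℤ, (mx (y 0))⁻¹ * (mx (y 1))⁻¹ =
      ∏ i, (![fun u => (mx u)⁻¹, fun u => (mx u)⁻¹, fun _ => 1, fun _ => 1] :
        Fin 4 → ℤ → ℝ) i (y i) := by
    intro y
    rw [Fin.prod_univ_four]
    simp
  simp only [h]
  unfold bx4
  rw [← Finset.prod_univ_sum]
  rw [Fin.prod_univ_four]
  simp only [Matrix.cons_val_zero, Matrix.cons_val_one, Matrix.cons_val_two, Matrix.cons_val_three,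
      Matrix.head_cons, Matrix.tail_cons, Finset.sum_const, Int.card_Icc, nsmul_eq_mul, mul_one]
  have : ((Y:ℤ) + 1 - -(Y:ℤ)).toNat = 2 * Y + 1 := by omega
  rw [this]
  unfold rho
  push_cast; ring

/-- all short dual vectors -/
theorem sum_short {d H Z : ℕ} (hH : 1 ≤ H) {P : ℝ} (hP : rho Z ≤ P)
    {j : Fin 4 → Fin (d + 1)} (hj : Function.Injective j) :
    (2 * (H:ℝ)) ^ 2 * ∑ y ∈ (bx4 Z).filter (fun y => Finset.univ.gcd y = 1),
      (((boxw d H).filter (fun w => Orth j y w)).card : ℝ) ≤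
    2 * ((2 * (H:ℝ)) ^ (2 * d + 2) * ((2 * Z + 1) ^ 2 * P ^ 2) +
      4 ^ d * (2 * (H:ℝ)) ^ (2 * d) * (2 * Z + 1) ^ 4) := by
  have hr := rho_nonneg Z
  rw [Finset.mul_sum]
  calc _ ≤ ∑ y ∈ (bx4 Z).filter (fun y => Finset.univ.gcd y = 1),
        2 * ((2 * (H:ℝ)) ^ (2 * d + 2) * ((mx (y 0))⁻¹ * (mx (y 1))⁻¹) +
          4 ^ d * (2 * (H:ℝ)) ^ (2 * d)) := by
        apply Finset.sum_le_sum
        intro y hy
        have hy1 := (Finset.mem_filter.mp hy).2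
        have hy0 : y ≠ 0 := ne_zero_of_gcd hy1
        refine (orth_real hH hj hy1).trans ?_
        have := inv_nrm4_le hy0
        gcongr
    _ ≤ ∑ y ∈ bx4 Z,
        2 * ((2 * (H:ℝ)) ^ (2 * d + 2) * ((mx (y 0))⁻¹ * (mx (y 1))⁻¹) +
          4 ^ d * (2 * (H:ℝ)) ^ (2 * d)) := by
        apply Finset.sum_le_sum_of_subset_of_nonneg (Finset.filter_subset _ _)
        intro y _ _
        have := mx_pos (y 0)
        have := mx_pos (y 1)
        positivity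
    _ = 2 * ((2 * (H:ℝ)) ^ (2 * d + 2) * ((2 * Z + 1) ^ 2 * rho Z ^ 2) +
      4 ^ d * (2 * (H:ℝ)) ^ (2 * d) * (2 * Z + 1) ^ 4) := by
        rw [← Finset.mul_sum, Finset.sum_add_distrib, ← Finset.mul_sum, sum_bx4, Finset.sum_const,
          card_bx4, nsmul_eq_mul]
        push_cast; ring
    _ ≤ _ := by gcongr

/-- passing to a primitive dual vector -/
lemma primitive4 {y : Fin 4 → ℤ} (hy : y ≠ 0) : ∃ (c : ℤ) (y' : Fin 4 → ℤ), c ≠ 0 ∧
    (∀ i, y i = c * y' i) ∧ Finset.univ.gcd y' = 1 ∧ y' ≠ 0 ∧ ∀ i, |y' i| ≤ |y i| := by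
  obtain ⟨g, hg1, hg2⟩ := Finset.extract_gcd y (Finset.univ_nonempty (α := Fin 4))
  have hc : Finset.univ.gcd y ≠ 0 := by
    intro h0
    apply hy
    funext i
    rw [Finset.gcd_eq_zero_iff] at h0
    exact h0 i (Finset.mem_univ i)
  refine ⟨Finset.univ.gcd y, g, hc, fun i => hg1 i (Finset.mem_univ i), hg2, ?_, ?_⟩
  · exact ne_zero_of_gcd hg2
  · intro i
    rw [hg1 i (Finset.mem_univ i), abs_mul]
    have h1 : 1 ≤ |Finset.univ.gcd y| := Int.one_le_abs hc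
    nlinarith [abs_nonneg (g i)]

theorem hasDual_card {d H Y : ℕ} (hH : 1 ≤ H) {P : ℝ} (hP : rho Y ≤ P) :
    (2 * (H:ℝ)) ^ 2 * (((boxw d H).filter (fun w => HasDual Y w)).card : ℝ) ≤
    ((d + 1) ^ 4 : ℕ) * (2 * ((2 * (H:ℝ)) ^ (2 * d + 2) * ((2 * Y + 1) ^ 2 * P ^ 2) +
      4 ^ d * (2 * (H:ℝ)) ^ (2 * d) * (2 * Y + 1) ^ 4)) := by
  have hcover : (boxw d H).filter (fun w => HasDual Y w) ⊆
      (Finset.univ.filter (fun j : Fin 4 → Fin (d + 1) => Function.Injective j)).biUnion fun j =>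
        ((bx4 Y).filter (fun y => Finset.univ.gcd y = 1)).biUnion fun y =>
          (boxw d H).filter (fun w => Orth j y w) := by
    intro w hw
    rw [Finset.mem_filter] at hw
    obtain ⟨hw, j, hj, y, hy0, hyY, hy1, hy2⟩ := hw
    obtain ⟨c, y', hc, hcy, hgcd, hy'0, hyy⟩ := primitive4 hy0
    simp only [Finset.mem_biUnion, Finset.mem_filter, Finset.mem_univ, true_and]
    refine ⟨j, hj, y', ⟨mem_bx4.mpr fun i => (hyy i).trans (hyY i), hgcd⟩, hw, ?_, ?_⟩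
    · apply mul_left_cancel₀ hc
      rw [mul_zero, Finset.mul_sum, ← hy1]
      apply Finset.sum_congr rfl
      intro i _
      rw [hcy]; ring
    · apply mul_left_cancel₀ hc
      rw [mul_zero, Finset.mul_sum, ← hy2]
      apply Finset.sum_congr rfl
      intro i _
      rw [hcy]; ring
  have h1 : (((boxw d H).filter (fun w => HasDual Y w)).card : ℝ) ≤
      ∑ j ∈ Finset.univ.filter (fun j : Fin 4 → Fin (d + 1) => Function.Injective j),
        ∑ y ∈ (bx4 Y).filter (fun y => Finset.univ.gcd y = 1),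
          (((boxw d H).filter (fun w => Orth j y w)).card : ℝ) := by
    have h2 : ((boxw d H).filter (fun w => HasDual Y w)).card ≤
      ∑ j ∈ Finset.univ.filter (fun j : Fin 4 → Fin (d + 1) => Function.Injective j),
        ∑ y ∈ (bx4 Y).filter (fun y => Finset.univ.gcd y = 1),
          ((boxw d H).filter (fun w => Orth j y w)).card := by
      refine (Finset.card_le_card hcover).trans (Finset.card_biUnion_le.trans ?_)
      apply Finset.sum_le_sum; intro j _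
      exact Finset.card_biUnion_le
    exact_mod_cast h2
  calc (2 * (H:ℝ)) ^ 2 * (((boxw d H).filter (fun w => HasDual Y w)).card : ℝ)
      ≤ (2 * (H:ℝ)) ^ 2 *
        ∑ j ∈ Finset.univ.filter (fun j : Fin 4 → Fin (d + 1) => Function.Injective j),
        ∑ y ∈ (bx4 Y).filter (fun y => Finset.univ.gcd y = 1),
          (((boxw d H).filter (fun w => Orth j y w)).card : ℝ) := by gcongr
    _ = ∑ j ∈ Finset.univ.filter (fun j : Fin 4 → Fin (d + 1) => Function.Injective j),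
        (2 * (H:ℝ)) ^ 2 * ∑ y ∈ (bx4 Y).filter (fun y => Finset.univ.gcd y = 1),
          (((boxw d H).filter (fun w => Orth j y w)).card : ℝ) := by rw [Finset.mul_sum]
    _ ≤ ∑ j ∈ Finset.univ.filter (fun j : Fin 4 → Fin (d + 1) => Function.Injective j),
        2 * ((2 * (H:ℝ)) ^ (2 * d + 2) * ((2 * Y + 1) ^ 2 * P ^ 2) +
          4 ^ d * (2 * (H:ℝ)) ^ (2 * d) * (2 * Y + 1) ^ 4) := by
        apply Finset.sum_le_sum
        intro j hj
        exact sum_short hH hP (Finset.mem_filter.mp hj).2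
    _ = (Finset.univ.filter (fun j : Fin 4 → Fin (d + 1) => Function.Injective j)).card *
        (2 * ((2 * (H:ℝ)) ^ (2 * d + 2) * ((2 * Y + 1) ^ 2 * P ^ 2) +
          4 ^ d * (2 * (H:ℝ)) ^ (2 * d) * (2 * Y + 1) ^ 4)) := by
        rw [Finset.sum_const, nsmul_eq_mul]
    _ ≤ _ := by
        have h3 : (Finset.univ.filter
            (fun j : Fin 4 → Fin (d + 1) => Function.Injective j)).card ≤ (d + 1) ^ 4 := by
          refine (Finset.card_filter_le _ _).trans ?_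
          simp
        have h4 : ((Finset.univ.filter
            (fun j : Fin 4 → Fin (d + 1) => Function.Injective j)).card : ℝ) ≤
            (((d + 1) ^ 4 : ℕ) : ℝ) := by exact_mod_cast h3
        gcongr

end

end Pool.Agent.W47.AM
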