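import Pool.Agent.W47.AM.PartE
import Pool.Agent.W47.AM.PartD

/-! Vectors of `ℤ⁴` with a short linear recurrence of order two. -/

set_option autoImplicit false

namespace Pool.Agent.W47.AM

noncomputable section

open Finset Classical

/-- vectors with a short recurrence -/
def YY (Y σ : ℕ) : Finset (Fin 4 → ℤ) := (bx4 Y).filter fun y =>
  ∃ s : Fin 3 → ℤ, s ≠ 0 ∧ (∀ i, |s i| ≤ σ) ∧
      s 0 * y 0 + s 1 * y 1 + s 2 * y 2 = 0 ∧ s 0 * y 1 + s 1 * y 2 + s 2 * y 3 = 0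

lemma YY_key {Y σ : ℕ} {y : Fin 4 → ℤ} (h : y ∈ YY Y σ) : ∃ k : ℕ,
    (k:ℤ) ∣ y 0 * y 2 - y 1 ^ 2 ∧ (k:ℤ) ∣ y 1 * y 3 - y 2 ^ 2 ∧
    |y 0 * y 2 - y 1 ^ 2| ≤ k * σ ∧ |y 1 * y 3 - y 2 ^ 2| ≤ k * σ := by
  obtain ⟨s, hs0, hs, h1, h2⟩ := (Finset.mem_filter.mp h).2
  -- primitive s
  obtain ⟨g, hg1, hg2⟩ := Finset.extract_gcd s (Finset.univ_nonempty (α := Fin 3))
  set e := Finset.univ.gcd s with he
  have hc : e ≠ 0 := by
    intro h0
    apply hs0
    funext i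
    rw [he, Finset.gcd_eq_zero_iff] at h0
    exact h0 i (Finset.mem_univ i)
  have hg1' : ∀ i, s i = e * g i := fun i => hg1 i (Finset.mem_univ i)
  have hgs : ∀ i, |g i| ≤ σ := by
    intro i
    refine le_trans ?_ (hs i)
    rw [hg1' i, abs_mul]
    have h1 : 1 ≤ |e| := Int.one_le_abs hc
    nlinarith [abs_nonneg (g i)]
  have r1 : g 0 * y 0 + g 1 * y 1 + g 2 * y 2 = 0 := by
    apply mul_left_cancel₀ hc
    rw [mul_zero, ← h1, hg1' 0, hg1' 1, hg1' 2]; ring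
  have r2 : g 0 * y 1 + g 1 * y 2 + g 2 * y 3 = 0 := by
    apply mul_left_cancel₀ hc
    rw [mul_zero, ← h2, hg1' 0, hg1' 1, hg1' 2]; ring
  obtain ⟨c, hc1⟩ := Finset.gcd_eq_sum_mul Finset.univ g
  rw [hg2, Fin.sum_univ_three] at hc1
  set κ : ℤ := c 0 * (y 1 * y 3 - y 2 ^ 2) + c 1 * (y 1 * y 2 - y 0 * y 3) +
    c 2 * (y 0 * y 2 - y 1 ^ 2) with hκ
  have e0 : y 1 * y 3 - y 2 ^ 2 = κ * g 0 := by
    rw [hκ]
    linear_combination (y 1 * y 3 - y 2 ^ 2) * hc1 + c 1 * (y 3 * r1 - y 2 * r2) -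
      c 2 * (y 2 * r1 - y 1 * r2)
  have e2 : y 0 * y 2 - y 1 ^ 2 = κ * g 2 := by
    rw [hκ]
    linear_combination (y 0 * y 2 - y 1 ^ 2) * hc1 + c 0 * (y 2 * r1 - y 1 * r2) -
      c 1 * (y 1 * r1 - y 0 * r2)
  refine ⟨κ.natAbs, ?_, ?_, ?_, ?_⟩
  · rw [e2]; exact Dvd.dvd.mul_right (Int.natAbs_dvd.mpr dvd_rfl) _
  · rw [e0]; exact Dvd.dvd.mul_right (Int.natAbs_dvd.mpr dvd_rfl) _
  · rw [e2, abs_mul, Int.abs_eq_natAbs κ]
    exact mul_le_mul_of_nonneg_left (hgs 2) (by positivity)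
  · rw [e0, abs_mul, Int.abs_eq_natAbs κ]
    exact mul_le_mul_of_nonneg_left (hgs 0) (by positivity)

/-- the interval -/
def Iv (Y : ℕ) : Finset ℤ := Finset.Icc (-(Y:ℤ)) Y

lemma mem_Iv {Y : ℕ} {u : ℤ} : u ∈ Iv Y ↔ |u| ≤ Y := by simp [Iv, abs_le]

lemma card_Iv (Y : ℕ) : (Iv Y).card = 2 * Y + 1 := by
  unfold Iv; rw [Int.card_Icc]; omega

/-- a coordinate determined by the three others -/
lemma card_three {Y : ℕ} (S : Finset (Fin 4 → ℤ)) (hS : ∀ y ∈ S, ∀ i, |y i| ≤ Y)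
    (i0 : Fin 4) (h : ∀ y ∈ S, ∀ y' ∈ S, (∀ i, i ≠ i0 → y i = y' i) → y i0 = y' i0) :
    S.card ≤ (2 * Y + 1) ^ 3 := by
  have h1 : S.card ≤ (Fintype.piFinset fun _ : {i : Fin 4 // i ≠ i0} => Iv Y).card := by
    refine Finset.card_le_card_of_injOn (fun y i => y i.1) ?_ ?_
    · intro y hy
      rw [Finset.mem_coe, Fintype.mem_piFinset]
      intro i
      exact mem_Iv.mpr (hS y hy i.1)
    · intro y hy y' hy' hyy
      funext i
      have h2 : ∀ i, i ≠ i0 → y i = y' i := fun i hi => congrFun hyy ⟨i, hi⟩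
      by_cases hi : i = i0
      · rw [hi]; exact h y hy y' hy' h2
      · exact h2 i hi
  refine h1.trans (le_of_eq ?_)
  rw [Fintype.card_piFinset]
  simp only [card_Iv, Finset.prod_const, Finset.card_univ]
  congr 1
  rw [Fintype.card_subtype_compl]
  simp

/-- solutions of `|u m - c| ≤ T` -/
lemma card_interval {T : ℕ} (S : Finset ℤ) {m c : ℤ} (hm : m ≠ 0)
    (hS : ∀ u ∈ S, |u * m - c| ≤ T) : (S.card : ℝ) ≤ 2 * T * (mx m)⁻¹ + 1 := by
  have hm' : 0 < |m| := abs_pos.mpr hm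
  have hcard : S.card ≤ 2 * T / m.natAbs + 1 := by
    rcases S.eq_empty_or_nonempty with h0 | hne
    · rw [h0]; simp
    -- take the minimum
    set u0 := S.min' hne with hu0
    have hcc : (Finset.Icc (0:ℤ) ((2 * T / m.natAbs : ℕ) : ℤ)).card = 2 * T / m.natAbs + 1 := by
      generalize 2 * T / m.natAbs = K
      rw [Int.card_Icc]; omega
    rw [← hcc]
    refine Finset.card_le_card_of_injOn (fun u => u - u0) ?_ ?_
    · intro u hu
      have h1 := hS u hu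
      have h2 := hS u0 (S.min'_mem hne)
      have h3 : u0 ≤ u := S.min'_le u hu
      simp only [Finset.mem_coe, Finset.mem_Icc]
      refine ⟨by linarith, ?_⟩
      push_cast
      rw [Int.le_ediv_iff_mul_le hm']
      have h4 : (u - u0) * |m| = |(u * m - c) - (u0 * m - c)| := by
        have : (u * m - c) - (u0 * m - c) = (u - u0) * m := by ring
        rw [this, abs_mul, abs_of_nonneg (by linarith : (0:ℤ) ≤ u - u0)]
      rw [h4]
      have := abs_sub (u * m - c) (u0 * m - c)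
      linarith
    · intro u _ u' _ h
      simp only at h
      linarith
  have h1 : (S.card : ℝ) ≤ ((2 * T / m.natAbs : ℕ) : ℝ) + 1 := by exact_mod_cast hcard
  refine h1.trans ?_
  have h2 : ((2 * T / m.natAbs : ℕ) : ℝ) ≤ 2 * T * (mx m)⁻¹ := by
    refine Nat.cast_div_le.trans ?_
    have h3 : ((m.natAbs : ℕ) : ℝ) = mx m := by
      unfold mx
      have : (1:ℝ) ≤ |(m:ℝ)| := by exact_mod_cast Int.one_le_abs hm
      rw [max_eq_right this, ← Int.cast_abs, Int.abs_eq_natAbs, Int.cast_natCast]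
    rw [h3]; push_cast; rw [div_eq_mul_inv]
  linarith

/-- both quadratic expressions small -/
lemma cardS2 {Y T : ℕ} {P : ℝ} (hP : rho Y ≤ P) (S : Finset (Fin 4 → ℤ))
    (hS : ∀ y ∈ S, (∀ i, |y i| ≤ Y) ∧ y 1 ≠ 0 ∧ y 2 ≠ 0 ∧ |y 0 * y 2 - y 1 ^ 2| ≤ T ∧
      |y 1 * y 3 - y 2 ^ 2| ≤ T) :
    (S.card : ℝ) ≤ (2 * T * P + (2 * Y + 1)) ^ 2 := by
  have hcover : S ⊆ (((Iv Y).filter (fun u => u ≠ 0)) ×ˢ ((Iv Y).filter (fun u => u ≠ 0))).biUnion
      fun p => (((Iv Y).filter (fun u => |u * p.2 - p.1 ^ 2| ≤ (T:ℤ))) ×ˢ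
        ((Iv Y).filter (fun u => |u * p.1 - p.2 ^ 2| ≤ (T:ℤ)))).image
          (fun r => ![r.1, p.1, p.2, r.2]) := by
    intro y hy
    obtain ⟨h0, h1, h2, h3, h4⟩ := hS y hy
    rw [Finset.mem_biUnion]
    refine ⟨(y 1, y 2), ?_, ?_⟩
    · rw [Finset.mem_product, Finset.mem_filter, Finset.mem_filter]
      exact ⟨⟨mem_Iv.mpr (h0 1), h1⟩, ⟨mem_Iv.mpr (h0 2), h2⟩⟩
    · rw [Finset.mem_image]
      refine ⟨(y 0, y 3), ?_, ?_⟩
      · rw [Finset.mem_product, Finset.mem_filter, Finset.mem_filter]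
        exact ⟨⟨mem_Iv.mpr (h0 0), h3⟩, ⟨mem_Iv.mpr (h0 3), by rw [mul_comm]; exact h4⟩⟩
      · funext i
        fin_cases i <;> rfl
  have h1 : (S.card : ℝ) ≤ ∑ p ∈ (((Iv Y).filter (fun u => u ≠ 0)) ×ˢ
      ((Iv Y).filter (fun u => u ≠ 0))),
      (2 * T * (mx p.1)⁻¹ + 1) * (2 * T * (mx p.2)⁻¹ + 1) := by
    have h2 := (Finset.card_le_card hcover).trans Finset.card_biUnion_le
    have h3 : (S.card : ℝ) ≤ ∑ p ∈ (((Iv Y).filter (fun u => u ≠ 0)) ×ˢ
      ((Iv Y).filter (fun u => u ≠ 0))),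
        (((((Iv Y).filter (fun u => |u * p.2 - p.1 ^ 2| ≤ (T:ℤ))) ×ˢ
        ((Iv Y).filter (fun u => |u * p.1 - p.2 ^ 2| ≤ (T:ℤ)))).image
          (fun r : ℤ × ℤ => (![r.1, p.1, p.2, r.2] : Fin 4 → ℤ))).card : ℝ) := by
      exact_mod_cast h2
    refine h3.trans ?_
    apply Finset.sum_le_sum
    intro p hp
    rw [Finset.mem_product, Finset.mem_filter, Finset.mem_filter] at hp
    have e1 := card_interval (T := T) ((Iv Y).filter (fun u => |u * p.2 - p.1 ^ 2| ≤ (T:ℤ))) hp.2.2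
      (fun u hu => (Finset.mem_filter.mp hu).2)
    have e2 := card_interval (T := T) ((Iv Y).filter (fun u => |u * p.1 - p.2 ^ 2| ≤ (T:ℤ))) hp.1.2
      (fun u hu => (Finset.mem_filter.mp hu).2)
    have e3 := Finset.card_image_le (s := ((Iv Y).filter (fun u => |u * p.2 - p.1 ^ 2| ≤ (T:ℤ))) ×ˢ
        ((Iv Y).filter (fun u => |u * p.1 - p.2 ^ 2| ≤ (T:ℤ))))
        (f := fun r : ℤ × ℤ => (![r.1, p.1, p.2, r.2] : Fin 4 → ℤ))
    rw [Finset.card_product] at e3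
    calc _ ≤ (((Iv Y).filter (fun u => |u * p.2 - p.1 ^ 2| ≤ (T:ℤ))).card : ℝ) *
        (((Iv Y).filter (fun u => |u * p.1 - p.2 ^ 2| ≤ (T:ℤ))).card : ℝ) := by exact_mod_cast e3
      _ ≤ (2 * T * (mx p.2)⁻¹ + 1) * (2 * T * (mx p.1)⁻¹ + 1) := by
          have := mx_pos p.2
          gcongr
      _ = _ := by ring
  refine h1.trans ?_
  rw [Finset.sum_product]
  simp only
  rw [← Finset.sum_mul_sum, sq]
  have h4 : ∑ u ∈ (Iv Y).filter (fun u => u ≠ 0), (2 * T * (mx u)⁻¹ + 1) ≤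
      2 * T * P + (2 * Y + 1) := by
    calc _ ≤ ∑ u ∈ Iv Y, (2 * (T:ℝ) * (mx u)⁻¹ + 1) := by
          apply Finset.sum_le_sum_of_subset_of_nonneg (Finset.filter_subset _ _)
          intro u _ _
          have := mx_pos u
          positivity
      _ = 2 * T * rho Y + (2 * Y + 1) := by
          rw [Finset.sum_add_distrib, ← Finset.mul_sum, Finset.sum_const, card_Iv, nsmul_eq_mul]
          unfold rho Iv
          push_cast; ring
      _ ≤ _ := by gcongr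
  have h5 : 0 ≤ ∑ u ∈ (Iv Y).filter (fun u => u ≠ 0), (2 * (T:ℝ) * (mx u)⁻¹ + 1) := by
    apply Finset.sum_nonneg
    intro u _
    have := mx_pos u
    positivity
  exact mul_le_mul h4 h4 h5 (h5.trans h4)

lemma sum_abs_le (Y : ℕ) (F : ℕ → ℝ) (hF : ∀ n, 0 ≤ F n) :
    ∑ u ∈ (Iv Y).filter (fun u => u ≠ 0), F u.natAbs ≤ 2 * ∑ n ∈ Finset.Ioc 0 Y, F n := by
  have hsub : (Iv Y).filter (fun u => u ≠ 0) ⊆ (Finset.Ioc 0 Y).image (fun n : ℕ => (n : ℤ)) ∪
      (Finset.Ioc 0 Y).image (fun n : ℕ => -(n : ℤ)) := by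
    intro u hu
    rw [Finset.mem_filter, Iv, Finset.mem_Icc] at hu
    simp only [Finset.mem_union, Finset.mem_image, Finset.mem_Ioc]
    rcases lt_or_gt_of_ne hu.2 with h | h
    · right; exact ⟨u.natAbs, by omega, by omega⟩
    · left; exact ⟨u.natAbs, by omega, by omega⟩
  calc _ ≤ ∑ u ∈ (Finset.Ioc 0 Y).image (fun n : ℕ => (n : ℤ)) ∪
      (Finset.Ioc 0 Y).image (fun n : ℕ => -(n : ℤ)), F u.natAbs :=
        Finset.sum_le_sum_of_subset_of_nonneg hsub (fun u _ _ => hF _)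
    _ ≤ ∑ u ∈ (Finset.Ioc 0 Y).image (fun n : ℕ => (n : ℤ)), F u.natAbs +
        ∑ u ∈ (Finset.Ioc 0 Y).image (fun n : ℕ => -(n : ℤ)), F u.natAbs :=
        sum_union_le' (fun u => F u.natAbs) (fun u => hF _) _ _
    _ = _ := by
        rw [Finset.sum_image (by intro x _ y _ hxy; simpa using hxy),
          Finset.sum_image (by intro x _ y _ hxy; simpa using hxy)]
        simp
        ring

lemma gcd_sum (Y N : ℕ) (hN : N ≠ 0) :
    ∑ u ∈ (Iv Y).filter (fun u => u ≠ 0), ((Nat.gcd u.natAbs N : ℕ) : ℝ) ≤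
      2 * Y * N.divisors.card := by
  refine (sum_abs_le Y (fun n => ((Nat.gcd n N : ℕ) : ℝ)) (fun n => by positivity)).trans ?_
  have h1 : ∑ n ∈ Finset.Ioc 0 Y, Nat.gcd n N ≤ Y * N.divisors.card := by
    calc ∑ n ∈ Finset.Ioc 0 Y, Nat.gcd n N
        ≤ ∑ n ∈ Finset.Ioc 0 Y, ∑ e ∈ N.divisors, (if e ∣ n then e else 0) := by
          apply Finset.sum_le_sum
          intro n _
          have h2 : Nat.gcd n N ∈ N.divisors := Nat.mem_divisors.mpr ⟨Nat.gcd_dvd_right _ _, hN⟩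
          have h3 := Finset.single_le_sum (f := fun e => if e ∣ n then e else 0)
            (fun e _ => Nat.zero_le _) h2
          simpa [Nat.gcd_dvd_left] using h3
      _ = ∑ e ∈ N.divisors, ∑ n ∈ Finset.Ioc 0 Y, (if e ∣ n then e else 0) := Finset.sum_comm
      _ = ∑ e ∈ N.divisors, (Y / e) * e := by
          apply Finset.sum_congr rfl
          intro e _
          rw [← Finset.sum_filter, Finset.sum_const, Nat.Ioc_filter_dvd_card_eq_div, smul_eq_mul]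
      _ ≤ ∑ e ∈ N.divisors, Y := by
          apply Finset.sum_le_sum
          intro e _
          exact Nat.div_mul_le_self _ _
      _ = _ := by rw [Finset.sum_const, smul_eq_mul, mul_comm]
  have h2 : (∑ n ∈ Finset.Ioc 0 Y, ((Nat.gcd n N : ℕ) : ℝ)) ≤ Y * N.divisors.card := by
    exact_mod_cast h1
  linarith

/-- a large common divisor -/
lemma cardS3 {Y K : ℕ} (hK : 1 ≤ K) {D : ℕ}
    (hD : ∀ n, 0 < n → n ≤ 2 * Y ^ 2 → n.divisors.card ≤ D) (S : Finset (Fin 4 → ℤ))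
    (hS : ∀ y ∈ S, (∀ i, |y i| ≤ Y) ∧ y 0 ≠ 0 ∧ y 1 ≠ 0 ∧ y 2 ≠ 0 ∧ y 0 * y 2 - y 1 ^ 2 ≠ 0 ∧
      ∃ k : ℕ, K ≤ k ∧ (k:ℤ) ∣ y 0 * y 2 - y 1 ^ 2 ∧ (k:ℤ) ∣ y 1 * y 3 - y 2 ^ 2) :
    (S.card : ℝ) ≤ D * (2 * Y + 1) ^ 3 + (2 * Y / K) * D ^ 2 * (2 * Y) * (2 * Y + 1) ^ 2 := by
  set NZ := (Iv Y).filter (fun u => u ≠ 0) with hNZ
  set I3 := (NZ ×ˢ NZ ×ˢ NZ).filter (fun p => p.1 * p.2.2 - p.2.1 ^ 2 ≠ 0) with hI3
  have hY : ∀ y : Fin 4 → ℤ, (∀ i, |y i| ≤ Y) → (y 0 * y 2 - y 1 ^ 2).natAbs ≤ 2 * Y ^ 2 := by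
    intro y hy
    have h1 : |y 0 * y 2 - y 1 ^ 2| ≤ 2 * Y ^ 2 := by
      calc |y 0 * y 2 - y 1 ^ 2| ≤ |y 0 * y 2| + |y 1 ^ 2| := abs_sub _ _
        _ = |y 0| * |y 2| + |y 1| ^ 2 := by rw [abs_mul, abs_pow]
        _ ≤ Y * Y + (Y:ℤ) ^ 2 := by
          have := hy 0; have := hy 1; have := hy 2
          gcongr
        _ = _ := by ring
    rw [Int.abs_eq_natAbs] at h1
    exact_mod_cast h1
  have hcover : S ⊆ I3.biUnion fun p =>
      ((p.1 * p.2.2 - p.2.1 ^ 2).natAbs.divisors.filter (fun k => K ≤ k)).biUnion fun k =>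
        ((Iv Y).filter (fun u => (k:ℤ) ∣ p.2.1 * u - p.2.2 ^ 2)).image
          (fun u => ![p.1, p.2.1, p.2.2, u]) := by
    intro y hy
    obtain ⟨h0, h1, h2, h3, h4, k, hk, hk1, hk2⟩ := hS y hy
    simp only [Finset.mem_biUnion]
    refine ⟨(y 0, y 1, y 2), ?_, k, ?_, ?_⟩
    · rw [hI3, Finset.mem_filter, Finset.mem_product, Finset.mem_product, hNZ, Finset.mem_filter,
        Finset.mem_filter, Finset.mem_filter]
      exact ⟨⟨⟨mem_Iv.mpr (h0 0), h1⟩, ⟨mem_Iv.mpr (h0 1), h2⟩, ⟨mem_Iv.mpr (h0 2), h3⟩⟩, h4⟩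
    · rw [Finset.mem_filter, Nat.mem_divisors]
      exact ⟨⟨by simpa using Int.natAbs_dvd_natAbs.mpr hk1, Int.natAbs_ne_zero.mpr h4⟩, hk⟩
    · rw [Finset.mem_image]
      refine ⟨y 3, ?_, ?_⟩
      · rw [Finset.mem_filter]
        exact ⟨mem_Iv.mpr (h0 3), hk2⟩
      · funext i
        fin_cases i <;> rfl
  have hin : ∀ p ∈ I3, ∀ k ∈ (p.1 * p.2.2 - p.2.1 ^ 2).natAbs.divisors.filter (fun k => K ≤ k),
      ((((Iv Y).filter (fun u => (k:ℤ) ∣ p.2.1 * u - p.2.2 ^ 2)).image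
          (fun u => (![p.1, p.2.1, p.2.2, u] : Fin 4 → ℤ))).card : ℝ) ≤
        (2 * Y / K) * (Nat.gcd p.2.1.natAbs (p.1 * p.2.2).natAbs : ℕ) + 1 := by
    intro p hp k hk
    rw [hI3, Finset.mem_filter, Finset.mem_product, Finset.mem_product, hNZ, Finset.mem_filter,
        Finset.mem_filter, Finset.mem_filter] at hp
    rw [Finset.mem_filter, Nat.mem_divisors] at hk
    have hk0 : 0 < k := by omega
    set g := Nat.gcd k p.2.1.natAbs with hg
    have hgk : g ∣ k := Nat.gcd_dvd_left _ _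
    have hg0 : 0 < g := Nat.gcd_pos_of_pos_left _ hk0
    have hclass := card_class (H := Y) (v := k / g)
      ((Iv Y).filter (fun u => (k:ℤ) ∣ p.2.1 * u - p.2.2 ^ 2))
      (fun u hu => mem_Iv.mp (Finset.mem_filter.mp hu).1) ?_
    · have h1 := Finset.card_image_le (s := (Iv Y).filter (fun u => (k:ℤ) ∣ p.2.1 * u - p.2.2 ^ 2))
        (f := fun u => (![p.1, p.2.1, p.2.2, u] : Fin 4 → ℤ))
      have h2 : ((((Iv Y).filter (fun u => (k:ℤ) ∣ p.2.1 * u - p.2.2 ^ 2)).image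
          (fun u => (![p.1, p.2.1, p.2.2, u] : Fin 4 → ℤ))).card : ℝ) ≤
          ((2 * Y / (k / g) : ℕ) : ℝ) + 1 := by exact_mod_cast h1.trans hclass
      refine h2.trans ?_
      have h3 : ((2 * Y / (k / g) : ℕ) : ℝ) ≤ 2 * Y / ((k / g : ℕ) : ℝ) := by
        refine Nat.cast_div_le.trans ?_
        push_cast; exact le_rfl
      have h4 : ((k / g : ℕ) : ℝ) = k / g := Nat.cast_div hgk (by positivity)
      have hK' : (1:ℝ) ≤ K := by exact_mod_cast hK
      have hk' : (K:ℝ) ≤ k := by exact_mod_cast hk.2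
      have hgr : (0:ℝ) < g := by exact_mod_cast hg0
      have hg2 : g ≤ Nat.gcd p.2.1.natAbs (p.1 * p.2.2).natAbs := by
        apply Nat.le_of_dvd
        · apply Nat.gcd_pos_of_pos_left
          exact Int.natAbs_pos.mpr hp.1.2.1.2
        · apply Nat.dvd_gcd (Nat.gcd_dvd_right _ _)
          have e1 : (g:ℤ) ∣ p.1 * p.2.2 - p.2.1 ^ 2 := by
            have : (k:ℤ) ∣ p.1 * p.2.2 - p.2.1 ^ 2 := by
              have := Int.natCast_dvd_natCast.mpr hk.1.1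
              exact (Int.dvd_natAbs).mp this
            exact (Int.natCast_dvd_natCast.mpr hgk).trans this
          have e2 : (g:ℤ) ∣ p.2.1 := by
            have := Int.natCast_dvd_natCast.mpr (Nat.gcd_dvd_right k p.2.1.natAbs)
            exact (Int.dvd_natAbs).mp this
          have e3 : (g:ℤ) ∣ p.1 * p.2.2 := by
            have e4 : (g:ℤ) ∣ p.2.1 ^ 2 := Dvd.dvd.pow e2 (by norm_num)
            have := dvd_add e1 e4
            simpa using this
          simpa using Int.natAbs_dvd_natAbs.mpr e3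
      have hg2' : (g:ℝ) ≤ (Nat.gcd p.2.1.natAbs (p.1 * p.2.2).natAbs : ℕ) := by exact_mod_cast hg2
      have h5 : 2 * (Y:ℝ) / ((k / g : ℕ) : ℝ) ≤
          (2 * Y / K) * (Nat.gcd p.2.1.natAbs (p.1 * p.2.2).natAbs : ℕ) := by
        rw [h4]
        calc 2 * (Y:ℝ) / ((k:ℝ) / g) = 2 * Y / k * g := by
              field_simp
          _ ≤ 2 * Y / K * g := by gcongr
          _ ≤ _ := by gcongr
      linarith
    · intro u hu u' hu'
      have e1 := (Finset.mem_filter.mp hu).2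
      have e2 := (Finset.mem_filter.mp hu').2
      have e3 : (k:ℤ) ∣ p.2.1 * (u - u') := by
        have := dvd_sub e1 e2
        have e : p.2.1 * u - p.2.2 ^ 2 - (p.2.1 * u' - p.2.2 ^ 2) = p.2.1 * (u - u') := by ring
        rwa [e] at this
      have e4 : k ∣ p.2.1.natAbs * (u - u').natAbs := by
        have := Int.natAbs_dvd_natAbs.mpr e3
        rwa [Int.natAbs_natCast, Int.natAbs_mul] at this
      have e5 : k / g ∣ (u - u').natAbs := by
        have hc : Nat.Coprime (k / g) (p.2.1.natAbs / g) := Nat.coprime_div_gcd_div_gcd hg0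
        obtain ⟨m, hm⟩ := hgk
        obtain ⟨n, hn⟩ := Nat.gcd_dvd_right k p.2.1.natAbs
        rw [← hg] at hn
        rw [hm, hn, mul_assoc] at e4
        have e6 := Nat.dvd_of_mul_dvd_mul_left hg0 e4
        have e7 : k / g = m := by rw [hm]; exact Nat.mul_div_cancel_left m hg0
        have e8 : p.2.1.natAbs / g = n := by rw [hn]; exact Nat.mul_div_cancel_left n hg0
        rw [e7, e8] at hc
        rw [e7]
        exact hc.dvd_of_dvd_mul_left e6
      exact Int.natCast_dvd.mpr e5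
  have h1 : (S.card : ℝ) ≤ ∑ p ∈ I3,
      ∑ k ∈ (p.1 * p.2.2 - p.2.1 ^ 2).natAbs.divisors.filter (fun k => K ≤ k),
      ((2 * (Y:ℝ) / K) * (Nat.gcd p.2.1.natAbs (p.1 * p.2.2).natAbs : ℕ) + 1) := by
    have h2 : S.card ≤ ∑ p ∈ I3,
      ∑ k ∈ (p.1 * p.2.2 - p.2.1 ^ 2).natAbs.divisors.filter (fun k => K ≤ k),
        (((Iv Y).filter (fun u => (k:ℤ) ∣ p.2.1 * u - p.2.2 ^ 2)).image
          (fun u => (![p.1, p.2.1, p.2.2, u] : Fin 4 → ℤ))).card := by
      refine (Finset.card_le_card hcover).trans (Finset.card_biUnion_le.trans ?_)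
      apply Finset.sum_le_sum; intro p _
      exact Finset.card_biUnion_le
    have h3 : (S.card : ℝ) ≤ ∑ p ∈ I3,
      ∑ k ∈ (p.1 * p.2.2 - p.2.1 ^ 2).natAbs.divisors.filter (fun k => K ≤ k),
        ((((Iv Y).filter (fun u => (k:ℤ) ∣ p.2.1 * u - p.2.2 ^ 2)).image
          (fun u => (![p.1, p.2.1, p.2.2, u] : Fin 4 → ℤ))).card : ℝ) := by exact_mod_cast h2
    refine h3.trans ?_
    apply Finset.sum_le_sum; intro p hp
    apply Finset.sum_le_sum; intro k hk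
    exact hin p hp k hk
  have h2 : ∀ p ∈ I3, ∑ k ∈ (p.1 * p.2.2 - p.2.1 ^ 2).natAbs.divisors.filter (fun k => K ≤ k),
      ((2 * (Y:ℝ) / K) * (Nat.gcd p.2.1.natAbs (p.1 * p.2.2).natAbs : ℕ) + 1) ≤
      D * ((2 * (Y:ℝ) / K) * (Nat.gcd p.2.1.natAbs (p.1 * p.2.2).natAbs : ℕ) + 1) := by
    intro p hp
    rw [hI3, Finset.mem_filter, Finset.mem_product, Finset.mem_product, hNZ, Finset.mem_filter,
        Finset.mem_filter, Finset.mem_filter] at hp
    rw [Finset.sum_const, nsmul_eq_mul]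
    have h3 : ((p.1 * p.2.2 - p.2.1 ^ 2).natAbs.divisors.filter (fun k => K ≤ k)).card ≤ D := by
      refine (Finset.card_filter_le _ _).trans (hD _ (Int.natAbs_pos.mpr hp.2) ?_)
      have := hY ![p.1, p.2.1, p.2.2, 0] ?_
      · simpa using this
      · intro i
        fin_cases i
        · exact mem_Iv.mp hp.1.1.1
        · exact mem_Iv.mp hp.1.2.1.1
        · exact mem_Iv.mp hp.1.2.2.1
        · simp
    have h4 : (((p.1 * p.2.2 - p.2.1 ^ 2).natAbs.divisors.filter (fun k => K ≤ k)).card : ℝ) ≤ D := by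
      exact_mod_cast h3
    gcongr
  have hsub : I3 ⊆ NZ ×ˢ NZ ×ˢ NZ := Finset.filter_subset _ _
  have hcardNZ : (NZ.card : ℝ) ≤ 2 * Y + 1 := by
    have : NZ.card ≤ 2 * Y + 1 := by
      rw [hNZ, ← card_Iv]; exact Finset.card_filter_le _ _
    exact_mod_cast this
  have h3 : ∑ p ∈ NZ ×ˢ NZ ×ˢ NZ, ((Nat.gcd p.2.1.natAbs (p.1 * p.2.2).natAbs : ℕ) : ℝ) ≤
      (2 * Y + 1) ^ 2 * (2 * Y * D) := by
    rw [Finset.sum_product]
    calc ∑ x ∈ NZ, ∑ z ∈ NZ ×ˢ NZ, ((Nat.gcd z.1.natAbs (x * z.2).natAbs : ℕ) : ℝ)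
        ≤ ∑ x ∈ NZ, ((2 * (Y:ℝ) + 1) * (2 * Y * D)) := by
          apply Finset.sum_le_sum
          intro x hx
          rw [Finset.sum_product_right]
          calc ∑ z ∈ NZ, ∑ u ∈ NZ, ((Nat.gcd u.natAbs (x * z).natAbs : ℕ) : ℝ)
              ≤ ∑ z ∈ NZ, (2 * (Y:ℝ) * D) := by
                apply Finset.sum_le_sum
                intro z hz
                rw [hNZ, Finset.mem_filter] at hx hz
                have hxz : x * z ≠ 0 := mul_ne_zero hx.2 hz.2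
                have hne : (x * z).natAbs ≠ 0 := Int.natAbs_ne_zero.mpr hxz
                refine (gcd_sum Y _ hne).trans ?_
                have h5 : (x * z).natAbs ≤ 2 * Y ^ 2 := by
                  rw [Int.natAbs_mul]
                  have a1 := mem_Iv.mp hx.1
                  have a2 := mem_Iv.mp hz.1
                  rw [Int.abs_eq_natAbs] at a1 a2
                  have a1' : x.natAbs ≤ Y := by exact_mod_cast a1
                  have a2' : z.natAbs ≤ Y := by exact_mod_cast a2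
                  nlinarith [Nat.mul_le_mul a1' a2']
                have h6 := hD _ (Nat.pos_of_ne_zero hne) h5
                have h7 : ((x * z).natAbs.divisors.card : ℝ) ≤ D := by exact_mod_cast h6
                gcongr
            _ = NZ.card * (2 * (Y:ℝ) * D) := by rw [Finset.sum_const, nsmul_eq_mul]
            _ ≤ _ := by gcongr
      _ = NZ.card * ((2 * (Y:ℝ) + 1) * (2 * Y * D)) := by rw [Finset.sum_const, nsmul_eq_mul]
      _ ≤ (2 * (Y:ℝ) + 1) * ((2 * (Y:ℝ) + 1) * (2 * Y * D)) := by gcongr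
      _ = _ := by ring
  calc (S.card : ℝ) ≤ ∑ p ∈ I3,
        D * ((2 * (Y:ℝ) / K) * (Nat.gcd p.2.1.natAbs (p.1 * p.2.2).natAbs : ℕ) + 1) :=
        h1.trans (Finset.sum_le_sum h2)
    _ ≤ ∑ p ∈ NZ ×ˢ NZ ×ˢ NZ,
        D * ((2 * (Y:ℝ) / K) * (Nat.gcd p.2.1.natAbs (p.1 * p.2.2).natAbs : ℕ) + 1) := by
        apply Finset.sum_le_sum_of_subset_of_nonneg hsub
        intro p _ _
        positivity
    _ = D * ((2 * (Y:ℝ) / K) *
          ∑ p ∈ NZ ×ˢ NZ ×ˢ NZ, ((Nat.gcd p.2.1.natAbs (p.1 * p.2.2).natAbs : ℕ) : ℝ)) +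
        D * ((NZ ×ˢ NZ ×ˢ NZ).card : ℝ) := by
        rw [← Finset.mul_sum, Finset.sum_add_distrib, ← Finset.mul_sum, Finset.sum_const,
          nsmul_eq_mul]
        ring
    _ ≤ D * ((2 * (Y:ℝ) / K) * ((2 * Y + 1) ^ 2 * (2 * Y * D))) + D * (2 * Y + 1) ^ 3 := by
        have h8 : ((NZ ×ˢ NZ ×ˢ NZ).card : ℝ) ≤ (2 * Y + 1) ^ 3 := by
          rw [Finset.card_product, Finset.card_product]
          push_cast
          calc (NZ.card : ℝ) * (NZ.card * NZ.card) ≤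
                (2 * (Y:ℝ) + 1) * ((2 * Y + 1) * (2 * Y + 1)) := by gcongr
            _ = _ := by ring
        gcongr
    _ = _ := by ring

theorem YY_card {Y σ K : ℕ} (hK : 1 ≤ K) {P : ℝ} (hP : rho Y ≤ P) {D : ℕ}
    (hD : ∀ n, 0 < n → n ≤ 2 * Y ^ 2 → n.divisors.card ≤ D) :
    ((YY Y σ).card : ℝ) ≤ 4 * (2 * Y + 1) ^ 3 + (2 * (K * σ) * P + (2 * Y + 1)) ^ 2 +
      (D * (2 * Y + 1) ^ 3 + (2 * Y / K) * D ^ 2 * (2 * Y) * (2 * Y + 1) ^ 2) := by
  set A0 := (YY Y σ).filter (fun y => y 0 = 0) with hA0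
  set A1 := (YY Y σ).filter (fun y => y 1 = 0) with hA1
  set A2 := (YY Y σ).filter (fun y => y 2 = 0) with hA2
  set A3 := (YY Y σ).filter (fun y => y 0 ≠ 0 ∧ y 0 * y 2 - y 1 ^ 2 = 0) with hA3
  set A4 := (YY Y σ).filter (fun y => y 1 ≠ 0 ∧ y 2 ≠ 0 ∧
    |y 0 * y 2 - y 1 ^ 2| ≤ ((K * σ : ℕ) : ℤ) ∧ |y 1 * y 3 - y 2 ^ 2| ≤ ((K * σ : ℕ) : ℤ)) with hA4
  set A5 := (YY Y σ).filter (fun y => y 0 ≠ 0 ∧ y 1 ≠ 0 ∧ y 2 ≠ 0 ∧ y 0 * y 2 - y 1 ^ 2 ≠ 0 ∧
      ∃ k : ℕ, K ≤ k ∧ (k:ℤ) ∣ y 0 * y 2 - y 1 ^ 2 ∧ (k:ℤ) ∣ y 1 * y 3 - y 2 ^ 2) with hA5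
  have hb : ∀ y ∈ YY Y σ, ∀ i, |y i| ≤ Y := fun y hy => mem_bx4.mp (Finset.mem_filter.mp hy).1
  have hsub : YY Y σ ⊆ A0 ∪ A1 ∪ A2 ∪ A3 ∪ A4 ∪ A5 := by
    intro y hy
    simp only [Finset.mem_union, hA0, hA1, hA2, hA3, hA4, hA5, Finset.mem_filter]
    by_cases h0 : y 0 = 0
    · tauto
    by_cases h1 : y 1 = 0
    · tauto
    by_cases h2 : y 2 = 0
    · tauto
    by_cases h3 : y 0 * y 2 - y 1 ^ 2 = 0
    · tauto
    obtain ⟨k, hk1, hk2, hk3, hk4⟩ := YY_key hy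
    by_cases h4 : K ≤ k
    · right
      exact ⟨hy, h0, h1, h2, h3, k, h4, hk1, hk2⟩
    · left; right
      have h5 : (k:ℤ) * σ ≤ ((K * σ : ℕ) : ℤ) := by
        push_cast
        have : (k:ℤ) ≤ K := by omega
        gcongr
      exact ⟨hy, h1, h2, hk3.trans h5, hk4.trans h5⟩
  have c0 : A0.card ≤ (2 * Y + 1) ^ 3 := by
    refine card_three A0 (fun y hy => hb y (Finset.mem_filter.mp hy).1) 0 ?_
    intro y hy y' hy' _
    rw [(Finset.mem_filter.mp hy).2, (Finset.mem_filter.mp hy').2]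
  have c1 : A1.card ≤ (2 * Y + 1) ^ 3 := by
    refine card_three A1 (fun y hy => hb y (Finset.mem_filter.mp hy).1) 1 ?_
    intro y hy y' hy' _
    rw [(Finset.mem_filter.mp hy).2, (Finset.mem_filter.mp hy').2]
  have c2 : A2.card ≤ (2 * Y + 1) ^ 3 := by
    refine card_three A2 (fun y hy => hb y (Finset.mem_filter.mp hy).1) 2 ?_
    intro y hy y' hy' _
    rw [(Finset.mem_filter.mp hy).2, (Finset.mem_filter.mp hy').2]
  have c3 : A3.card ≤ (2 * Y + 1) ^ 3 := by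
    refine card_three A3 (fun y hy => hb y (Finset.mem_filter.mp hy).1) 2 ?_
    intro y hy y' hy' h
    have e1 := (Finset.mem_filter.mp hy).2
    have e2 := (Finset.mem_filter.mp hy').2
    apply mul_left_cancel₀ e1.1
    have h0 := h 0 (by decide)
    have h1 := h 1 (by decide)
    have e3 := e2.2
    rw [← h0, ← h1] at e3
    linarith [e1.2]
  have c4 : (A4.card : ℝ) ≤ (2 * (K * σ) * P + (2 * Y + 1)) ^ 2 := by
    have := cardS2 (T := K * σ) hP A4 (fun y hy => ⟨hb y (Finset.mem_filter.mp hy).1,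
      (Finset.mem_filter.mp hy).2⟩)
    push_cast at this
    exact this
  have c5 := cardS3 hK hD A5 (fun y hy => ⟨hb y (Finset.mem_filter.mp hy).1,
      (Finset.mem_filter.mp hy).2⟩)
  have hcard : (YY Y σ).card ≤ A0.card + A1.card + A2.card + A3.card + A4.card + A5.card := by
    refine (Finset.card_le_card hsub).trans ?_
    refine (Finset.card_union_le _ _).trans (Nat.add_le_add_right ?_ _)
    refine (Finset.card_union_le _ _).trans (Nat.add_le_add_right ?_ _)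
    refine (Finset.card_union_le _ _).trans (Nat.add_le_add_right ?_ _)
    refine (Finset.card_union_le _ _).trans (Nat.add_le_add_right ?_ _)
    exact Finset.card_union_le _ _
  have hcard' : ((YY Y σ).card : ℝ) ≤ A0.card + A1.card + A2.card + A3.card + A4.card + A5.card := by
    exact_mod_cast hcard
  have c0' : (A0.card : ℝ) ≤ (2 * Y + 1) ^ 3 := by exact_mod_cast c0
  have c1' : (A1.card : ℝ) ≤ (2 * Y + 1) ^ 3 := by exact_mod_cast c1
  have c2' : (A2.card : ℝ) ≤ (2 * Y + 1) ^ 3 := by exact_mod_cast c2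
  have c3' : (A3.card : ℝ) ≤ (2 * Y + 1) ^ 3 := by exact_mod_cast c3
  linarith

/-- pairs of cubic forms with a dual vector having a short recurrence -/
theorem hasDual3_card {H Y Z K : ℕ} (hH : 1 ≤ H) (hZ : 1 ≤ Z) (hK : 1 ≤ K) {P : ℝ}
    (hPZ : rho Z ≤ P) (hP : rho Y ≤ P) {D : ℕ}
    (hD : ∀ n, 0 < n → n ≤ 2 * Y ^ 2 → n.divisors.card ≤ D) :
    (2 * (H:ℝ)) ^ 2 * (((boxw 3 H).filter (fun w => HasDual3 H Y w)).card : ℝ) ≤
    2 * ((2 * (H:ℝ)) ^ 8 * ((2 * Z + 1) ^ 2 * P ^ 2) + 64 * (2 * (H:ℝ)) ^ 6 * (2 * Z + 1) ^ 4) +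
    (4 * (2 * Y + 1) ^ 3 + (2 * (K * (6 * H)) * P + (2 * Y + 1)) ^ 2 +
      (D * (2 * Y + 1) ^ 3 + (2 * Y / K) * D ^ 2 * (2 * Y) * (2 * Y + 1) ^ 2)) *
      (2 * ((2 * (H:ℝ)) ^ 8 * ((Z : ℝ) ^ 2)⁻¹ + 64 * (2 * (H:ℝ)) ^ 6)) := by
  have hid : Function.Injective (id : Fin 4 → Fin (3 + 1)) := Function.injective_id
  have hcover : (boxw 3 H).filter (fun w => HasDual3 H Y w) ⊆
      (((bx4 Z).filter (fun y => Finset.univ.gcd y = 1)).biUnion fun y =>
          (boxw 3 H).filter (fun w => Orth id y w)) ∪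
      (((YY Y (6 * H)).filter (fun y => Finset.univ.gcd y = 1 ∧ Z < nrm4 y)).biUnion fun y =>
          (boxw 3 H).filter (fun w => Orth id y w)) := by
    intro w hw
    rw [Finset.mem_filter] at hw
    obtain ⟨hw, y, hy0, hyY, hy1, hy2, s, hs0, hs, hs1, hs2⟩ := hw
    obtain ⟨c, y', hc, hcy, hgcd, hy'0, hyy⟩ := primitive4 hy0
    have horth : Orth (d := 3) id y' w := by
      constructor
      · apply mul_left_cancel₀ hc
        rw [mul_zero, Finset.mul_sum, ← hy1]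
        apply Finset.sum_congr rfl
        intro i _
        rw [hcy]; simp only [id]; ring
      · apply mul_left_cancel₀ hc
        rw [mul_zero, Finset.mul_sum, ← hy2]
        apply Finset.sum_congr rfl
        intro i _
        rw [hcy]; simp only [id]; ring
    rw [Finset.mem_union]
    by_cases hZy : Z < nrm4 y'
    · right
      rw [Finset.mem_biUnion]
      refine ⟨y', ?_, Finset.mem_filter.mpr ⟨hw, horth⟩⟩
      rw [Finset.mem_filter, YY, Finset.mem_filter]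
      refine ⟨⟨mem_bx4.mpr fun i => (hyy i).trans (hyY i), s, hs0, ?_, ?_, ?_⟩, hgcd, hZy⟩
      · intro i; have := hs i; push_cast; exact this
      · apply mul_left_cancel₀ hc
        rw [mul_zero, ← hs1, hcy 0, hcy 1, hcy 2]; ring
      · apply mul_left_cancel₀ hc
        rw [mul_zero, ← hs2, hcy 1, hcy 2, hcy 3]; ring
    · left
      rw [Finset.mem_biUnion]
      refine ⟨y', ?_, Finset.mem_filter.mpr ⟨hw, horth⟩⟩
      rw [Finset.mem_filter]
      exact ⟨mem_bx4'.mpr (by omega), hgcd⟩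
  have h1 : (((boxw 3 H).filter (fun w => HasDual3 H Y w)).card : ℝ) ≤
      ∑ y ∈ (bx4 Z).filter (fun y => Finset.univ.gcd y = 1),
        (((boxw 3 H).filter (fun w => Orth (d := 3) id y w)).card : ℝ) +
      ∑ y ∈ (YY Y (6 * H)).filter (fun y => Finset.univ.gcd y = 1 ∧ Z < nrm4 y),
        (((boxw 3 H).filter (fun w => Orth (d := 3) id y w)).card : ℝ) := by
    have h2 : ((boxw 3 H).filter (fun w => HasDual3 H Y w)).card ≤
      ∑ y ∈ (bx4 Z).filter (fun y => Finset.univ.gcd y = 1),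
        ((boxw 3 H).filter (fun w => Orth (d := 3) id y w)).card +
      ∑ y ∈ (YY Y (6 * H)).filter (fun y => Finset.univ.gcd y = 1 ∧ Z < nrm4 y),
        ((boxw 3 H).filter (fun w => Orth (d := 3) id y w)).card :=
      (Finset.card_le_card hcover).trans ((Finset.card_union_le _ _).trans
        (Nat.add_le_add Finset.card_biUnion_le Finset.card_biUnion_le))
    exact_mod_cast h2
  have h2 := sum_short (d := 3) hH hPZ hid
  have h3 : (2 * (H:ℝ)) ^ 2 *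
      ∑ y ∈ (YY Y (6 * H)).filter (fun y => Finset.univ.gcd y = 1 ∧ Z < nrm4 y),
        (((boxw 3 H).filter (fun w => Orth (d := 3) id y w)).card : ℝ) ≤
      ((YY Y (6 * H)).card : ℝ) *
        (2 * ((2 * (H:ℝ)) ^ 8 * ((Z : ℝ) ^ 2)⁻¹ + 64 * (2 * (H:ℝ)) ^ 6)) := by
    rw [Finset.mul_sum]
    calc _ ≤ ∑ y ∈ (YY Y (6 * H)).filter (fun y => Finset.univ.gcd y = 1 ∧ Z < nrm4 y),
          (2 * ((2 * (H:ℝ)) ^ 8 * ((Z : ℝ) ^ 2)⁻¹ + 64 * (2 * (H:ℝ)) ^ 6)) := by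
          apply Finset.sum_le_sum
          intro y hy
          rw [Finset.mem_filter] at hy
          refine (orth_real (d := 3) hH hid hy.2.1).trans ?_
          have hZ' : (1:ℝ) ≤ Z := by exact_mod_cast hZ
          have e1 : (Z:ℝ) ≤ nrm4 y := by
            have := hy.2.2
            exact_mod_cast this.le
          have e2 : ((nrm4 y : ℝ) ^ 2)⁻¹ ≤ ((Z : ℝ) ^ 2)⁻¹ := by
            apply inv_anti₀ (by positivity)
            gcongr
          norm_num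
          gcongr
      _ = (((YY Y (6 * H)).filter (fun y => Finset.univ.gcd y = 1 ∧ Z < nrm4 y)).card : ℝ) *
          (2 * ((2 * (H:ℝ)) ^ 8 * ((Z : ℝ) ^ 2)⁻¹ + 64 * (2 * (H:ℝ)) ^ 6)) := by
          rw [Finset.sum_const, nsmul_eq_mul]
      _ ≤ _ := by
          have := Finset.card_filter_le (YY Y (6 * H))
            (fun y => Finset.univ.gcd y = 1 ∧ Z < nrm4 y)
          have : (((YY Y (6 * H)).filter
            (fun y => Finset.univ.gcd y = 1 ∧ Z < nrm4 y)).card : ℝ) ≤ (YY Y (6 * H)).card := by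
            exact_mod_cast this
          gcongr
  have h4 := YY_card (σ := 6 * H) hK hP hD
  calc (2 * (H:ℝ)) ^ 2 * (((boxw 3 H).filter (fun w => HasDual3 H Y w)).card : ℝ)
      ≤ (2 * (H:ℝ)) ^ 2 * (∑ y ∈ (bx4 Z).filter (fun y => Finset.univ.gcd y = 1),
        (((boxw 3 H).filter (fun w => Orth (d := 3) id y w)).card : ℝ) +
      ∑ y ∈ (YY Y (6 * H)).filter (fun y => Finset.univ.gcd y = 1 ∧ Z < nrm4 y),
        (((boxw 3 H).filter (fun w => Orth (d := 3) id y w)).card : ℝ)) := by gcongr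
    _ = (2 * (H:ℝ)) ^ 2 * ∑ y ∈ (bx4 Z).filter (fun y => Finset.univ.gcd y = 1),
        (((boxw 3 H).filter (fun w => Orth (d := 3) id y w)).card : ℝ) +
        (2 * (H:ℝ)) ^ 2 *
      ∑ y ∈ (YY Y (6 * H)).filter (fun y => Finset.univ.gcd y = 1 ∧ Z < nrm4 y),
        (((boxw 3 H).filter (fun w => Orth (d := 3) id y w)).card : ℝ) := by ring
    _ ≤ _ := by
        refine add_le_add ?_ (h3.trans ?_)
        · refine h2.trans (le_of_eq ?_)
          norm_num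
        · push_cast at h4
          gcongr

end

end Pool.Agent.W47.AM
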