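import Pool.Agent.W47.AM.Line

/-! Elementary sums. -/

set_option autoImplicit false

namespace Pool.Agent.W47.AM

noncomputable section

open Finset

/-- `max 1 |u|` -/
def mx (u : ℤ) : ℝ := max 1 |(u : ℝ)|

/-- `∑_{|u| ≤ X} 1 / max 1 |u|` -/
def rho (X : ℕ) : ℝ := ∑ u ∈ Finset.Icc (-(X:ℤ)) X, (mx u)⁻¹

lemma mx_pos (u : ℤ) : 0 < mx u := lt_of_lt_of_le one_pos (le_max_left _ _)

lemma one_le_mx (u : ℤ) : 1 ≤ mx u := le_max_left _ _

lemma rho_nonneg (X : ℕ) : 0 ≤ rho X := Finset.sum_nonneg fun u _ => (inv_pos.mpr (mx_pos u)).le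

lemma rho_mono {X Y : ℕ} (h : X ≤ Y) : rho X ≤ rho Y := by
  apply Finset.sum_le_sum_of_subset_of_nonneg
  · apply Finset.Icc_subset_Icc <;> omega
  · intro u _ _; exact (inv_pos.mpr (mx_pos u)).le

lemma one_le_rho (X : ℕ) : 1 ≤ rho X := by
  have h : ∑ u ∈ ({0} : Finset ℤ), (mx u)⁻¹ ≤ rho X := by
    apply Finset.sum_le_sum_of_subset_of_nonneg
    · intro u hu
      rw [Finset.mem_singleton] at hu
      rw [hu, Finset.mem_Icc]; constructor <;> omega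
    · intro u _ _; exact (inv_pos.mpr (mx_pos u)).le
  simpa [mx] using h

lemma Icc_eq (X : ℕ) : Finset.Icc (-(X:ℤ)) X =
    ({0} ∪ (Finset.Icc 1 X).image (fun n : ℕ => (n : ℤ))) ∪
      (Finset.Icc 1 X).image (fun n : ℕ => -(n : ℤ)) := by
  ext u
  simp only [Finset.mem_union, Finset.mem_image, Finset.mem_singleton, Finset.mem_Icc]
  constructor
  · rintro ⟨h1, h2⟩
    rcases lt_trichotomy u 0 with h | h | h
    · right; exact ⟨u.natAbs, by omega, by omega⟩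
    · left; left; exact h
    · left; right; exact ⟨u.natAbs, by omega, by omega⟩
  · rintro ((h | ⟨n, hn, h⟩) | ⟨n, hn, h⟩) <;> omega

lemma sum_inv_le_rho (X : ℕ) : ∑ n ∈ Finset.Icc 1 X, ((n : ℝ))⁻¹ ≤ rho X := by
  have h : ∑ u ∈ (Finset.Icc 1 X).image (fun n : ℕ => (n : ℤ)), (mx u)⁻¹ ≤ rho X := by
    apply Finset.sum_le_sum_of_subset_of_nonneg
    · rw [Icc_eq]
      intro u hu
      exact Finset.mem_union_left _ (Finset.mem_union_right _ hu)
    · intro u _ _; exact (inv_pos.mpr (mx_pos u)).le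
  rw [Finset.sum_image (by intro x _ y _ hxy; simpa using hxy)] at h
  refine le_trans (le_of_eq ?_) h
  apply Finset.sum_congr rfl
  intro n hn
  rw [Finset.mem_Icc] at hn
  have h1 : (1 : ℝ) ≤ n := by exact_mod_cast hn.1
  simp only [mx]
  rw [max_eq_right]
  · simp
  · simp only [Int.cast_natCast]
    rw [abs_of_nonneg (by positivity)]; exact h1

lemma sum_union_le' (f : ℤ → ℝ) (hf : ∀ u, 0 ≤ f u) (s t : Finset ℤ) :
    ∑ u ∈ s ∪ t, f u ≤ ∑ u ∈ s, f u + ∑ u ∈ t, f u := by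
  rw [← Finset.sum_union_inter]
  have : 0 ≤ ∑ u ∈ s ∩ t, f u := Finset.sum_nonneg fun u _ => hf u
  linarith

lemma rho_le_log (X : ℕ) : rho X ≤ 3 + 2 * Real.log X := by
  have hharm : ∑ n ∈ Finset.Icc 1 X, ((n : ℝ))⁻¹ ≤ 1 + Real.log X := by
    have := harmonic_le_one_add_log X
    rw [harmonic_eq_sum_Icc] at this
    push_cast at this
    exact this
  have h1 : rho X ≤ 1 + ∑ n ∈ Finset.Icc 1 X, ((n : ℝ))⁻¹ + ∑ n ∈ Finset.Icc 1 X, ((n : ℝ))⁻¹ := by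
    unfold rho
    rw [Icc_eq]
    have hf : ∀ u : ℤ, 0 ≤ (mx u)⁻¹ := fun u => (inv_pos.mpr (mx_pos u)).le
    refine (sum_union_le' _ hf _ _).trans ?_
    have e1 : ∑ u ∈ (Finset.Icc 1 X).image (fun n : ℕ => (n : ℤ)), (mx u)⁻¹ =
        ∑ n ∈ Finset.Icc 1 X, ((n : ℝ))⁻¹ := by
      rw [Finset.sum_image (by intro x _ y _ hxy; simpa using hxy)]
      apply Finset.sum_congr rfl
      intro n hn
      rw [Finset.mem_Icc] at hn
      have h1 : (1 : ℝ) ≤ n := by exact_mod_cast hn.1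
      simp only [mx]
      rw [max_eq_right]
      · simp
      · simp only [Int.cast_natCast]
        rw [abs_of_nonneg (by positivity)]; exact h1
    have e2 : ∑ u ∈ (Finset.Icc 1 X).image (fun n : ℕ => -(n : ℤ)), (mx u)⁻¹ =
        ∑ n ∈ Finset.Icc 1 X, ((n : ℝ))⁻¹ := by
      rw [Finset.sum_image (by intro x _ y _ hxy; simpa using hxy)]
      apply Finset.sum_congr rfl
      intro n hn
      rw [Finset.mem_Icc] at hn
      have h1 : (1 : ℝ) ≤ n := by exact_mod_cast hn.1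
      simp only [mx]
      rw [max_eq_right]
      · simp
      · simp only [Int.cast_neg, Int.cast_natCast, abs_neg]
        rw [abs_of_nonneg (by positivity)]; exact h1
    have h2 := sum_union_le' (fun u => (mx u)⁻¹) hf {0}
      ((Finset.Icc 1 X).image (fun n : ℕ => (n : ℤ)))
    rw [e1] at h2
    rw [e2]
    have e3 : ∑ u ∈ ({0} : Finset ℤ), (mx u)⁻¹ = 1 := by simp [mx]
    rw [e3] at h2
    linarith
  linarith

/-- `(1 + x)^k ≤ 2^k (1 + x^k)` -/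
lemma one_add_pow_le {x : ℝ} (hx : 0 ≤ x) (k : ℕ) : (1 + x) ^ k ≤ 2 ^ k * (1 + x ^ k) := by
  rcases le_total x 1 with h | h
  · calc (1 + x) ^ k ≤ 2 ^ k := by gcongr; linarith
      _ ≤ 2 ^ k * (1 + x ^ k) := by
        have : (0:ℝ) ≤ x ^ k := by positivity
        nlinarith [pow_pos (two_pos : (0:ℝ) < 2) k]
  · calc (1 + x) ^ k ≤ (2 * x) ^ k := by gcongr; linarith
      _ = 2 ^ k * x ^ k := by rw [mul_pow]
      _ ≤ 2 ^ k * (1 + x ^ k) := by gcongr; linarith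

lemma three_pow_le {x y z : ℝ} (hx : 0 ≤ x) (hy : 0 ≤ y) (hz : 0 ≤ z) (k : ℕ) :
    (x + y + z) ^ k ≤ 3 ^ k * (x ^ k + y ^ k + z ^ k) := by
  have h : ∀ t : ℝ, 0 ≤ t → x ≤ t → y ≤ t → z ≤ t → t ^ k ≤ x ^ k + y ^ k + z ^ k →
      (x + y + z) ^ k ≤ 3 ^ k * (x ^ k + y ^ k + z ^ k) := by
    intro t ht h1 h2 h3 h4
    calc (x + y + z) ^ k ≤ (3 * t) ^ k := by gcongr; linarith
      _ = 3 ^ k * t ^ k := by rw [mul_pow]
      _ ≤ _ := by gcongr
  have px : 0 ≤ x ^ k := by positivity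
  have py : 0 ≤ y ^ k := by positivity
  have pz : 0 ≤ z ^ k := by positivity
  rcases le_total x y with h1 | h1
  · rcases le_total y z with h2 | h2
    · exact h z hz (h1.trans h2) h2 le_rfl (by linarith)
    · exact h y hy h1 le_rfl h2 (by linarith)
  · rcases le_total x z with h2 | h2
    · exact h z hz h2 (h1.trans h2) le_rfl (by linarith)
    · exact h x hx le_rfl h1 h2 (by linarith)

/-- `|v|² ≥ max 1 |v₁| * max 1 |v₂|` -/
lemma inv_nrm_pow_le {v : ℤ × ℤ} (hv : v ≠ 0) {k : ℕ} (hk : 2 ≤ k) :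
    ((nrm v : ℝ) ^ k)⁻¹ ≤ (mx v.1)⁻¹ * (mx v.2)⁻¹ := by
  have h0 : (1 : ℝ) ≤ nrm v := by exact_mod_cast nrm_pos hv
  have h1 : mx v.1 ≤ nrm v := by
    refine max_le h0 ?_
    have := abs_fst_le v
    exact_mod_cast this
  have h2 : mx v.2 ≤ nrm v := by
    refine max_le h0 ?_
    have := abs_snd_le v
    exact_mod_cast this
  rw [← mul_inv]
  apply inv_anti₀ (mul_pos (mx_pos _) (mx_pos _))
  calc mx v.1 * mx v.2 ≤ nrm v * nrm v :=
        mul_le_mul h1 h2 (mx_pos _).le (by positivity)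
    _ = (nrm v : ℝ) ^ 2 := by ring
    _ ≤ (nrm v : ℝ) ^ k := pow_le_pow_right₀ h0 hk

lemma inv_nrm_le {v : ℤ × ℤ} (hv : v ≠ 0) : ((nrm v : ℝ))⁻¹ ≤ (mx v.1)⁻¹ := by
  have h0 : (1 : ℝ) ≤ nrm v := by exact_mod_cast nrm_pos hv
  have h1 : mx v.1 ≤ nrm v := by
    refine max_le h0 ?_
    have := abs_fst_le v
    exact_mod_cast this
  exact inv_anti₀ (mx_pos _) h1

lemma sum_bx_mul (X : ℕ) : ∑ v ∈ bx X, (mx v.1)⁻¹ * (mx v.2)⁻¹ = rho X ^ 2 := by
  unfold bx rho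
  rw [Finset.sum_product, sq, Finset.sum_mul_sum]

lemma sum_bx_fst (X : ℕ) : ∑ v ∈ bx X, (mx v.1)⁻¹ = (2 * X + 1) * rho X := by
  unfold bx rho
  rw [Finset.sum_product, Finset.mul_sum]
  apply Finset.sum_congr rfl
  intro u _
  simp only [Finset.sum_const, Int.card_Icc, nsmul_eq_mul]
  congr 1
  have : ((X:ℤ) + 1 - -(X:ℤ)).toNat = 2 * X + 1 := by omega
  rw [this]; push_cast; ring

lemma card_bx (X : ℕ) : (bx X).card = (2 * X + 1) ^ 2 := by
  unfold bx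
  rw [Finset.card_product, Int.card_Icc]
  have : ((X:ℤ) + 1 - -(X:ℤ)).toNat = 2 * X + 1 := by omega
  rw [this, sq]

end

end Pool.Agent.W47.AM
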