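import Mathlib

/-! Counting tuples by prefixes. -/

set_option autoImplicit false

namespace Pool.Agent.W47.AM

open Finset

/-- If for every prefix of an element of `S` there are at most `m k` possibilities for the `k`-th
coordinate, then `S` has at most `∏ m k` elements. -/
theorem tree {α : Type*} [DecidableEq α] : ∀ (n : ℕ) (S : Finset (Fin n → α)) (m : Fin n → ℕ),
    (∀ k : Fin n, ∀ y ∈ S,
      ((S.filter (fun z => ∀ j, j < k → z j = y j)).image (fun z => z k)).card ≤ m k) →
    S.card ≤ ∏ k, m k := by
  intro n
  induction n with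
  | zero =>
    intro S m _
    simp only [univ_eq_empty, prod_empty]
    exact Finset.card_le_one.mpr fun a _ b _ => Subsingleton.elim a b
  | succ n ih =>
    intro S m h
    rw [Fin.prod_univ_castSucc]
    set S' : Finset (Fin n → α) := S.image (fun z => Fin.init z) with hS'
    have h1 : S.card ≤ m (Fin.last n) * S'.card := by
      rw [hS']
      refine Finset.card_le_mul_card_image (f := fun z : Fin (n + 1) → α => Fin.init z) S
        (m (Fin.last n)) ?_
      intro x hx
      obtain ⟨y, hy, rfl⟩ := Finset.mem_image.mp hx
      refine le_trans ?_ (h (Fin.last n) y hy)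
      have hinj : Set.InjOn (fun z : Fin (n + 1) → α => z (Fin.last n))
          (S.filter (fun z => Fin.init z = (Fin.init y : Fin n → α)) : Finset (Fin (n + 1) → α)) := by
        intro z hz z' hz' hzz
        have e1 : Fin.init z = (Fin.init y : Fin n → α) := (Finset.mem_filter.mp hz).2
        have e2 : Fin.init z' = (Fin.init y : Fin n → α) := (Finset.mem_filter.mp hz').2
        rw [← Fin.snoc_init_self z, ← Fin.snoc_init_self z', e1, e2]
        simp only at hzz
        rw [hzz]
      rw [← Finset.card_image_of_injOn hinj]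
      apply Finset.card_le_card
      intro t ht
      obtain ⟨z, hz, rfl⟩ := Finset.mem_image.mp ht
      refine Finset.mem_image.mpr ⟨z, Finset.mem_filter.mpr ⟨(Finset.mem_filter.mp hz).1, ?_⟩, rfl⟩
      intro j hj
      have e1 : Fin.init z = (Fin.init y : Fin n → α) := (Finset.mem_filter.mp hz).2
      have hj' : (j : ℕ) < n := by simpa [Fin.lt_def] using hj
      have := congrFun e1 ⟨j, hj'⟩
      simpa [Fin.init] using this
    have h2 : S'.card ≤ ∏ k : Fin n, m (Fin.castSucc k) := by
      apply ih
      intro k y hy
      obtain ⟨y0, hy0, rfl⟩ := Finset.mem_image.mp hy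
      refine le_trans ?_ (h (Fin.castSucc k) y0 hy0)
      apply Finset.card_le_card
      intro t ht
      obtain ⟨z, hz, rfl⟩ := Finset.mem_image.mp ht
      rw [Finset.mem_filter] at hz
      obtain ⟨z0, hz0, rfl⟩ := Finset.mem_image.mp hz.1
      refine Finset.mem_image.mpr ⟨z0, Finset.mem_filter.mpr ⟨hz0, ?_⟩, rfl⟩
      intro j hj
      have hj' : (j : ℕ) < n := lt_trans (by simpa [Fin.lt_def] using hj) k.2
      have := hz.2 ⟨j, hj'⟩ (by simpa [Fin.lt_def] using hj)
      simpa [Fin.init] using this
    calc S.card ≤ m (Fin.last n) * S'.card := h1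
      _ ≤ m (Fin.last n) * ∏ k : Fin n, m (Fin.castSucc k) := Nat.mul_le_mul_left _ h2
      _ = _ := mul_comm _ _

end Pool.Agent.W47.AM
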